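import Mathlib

open MeasureTheory

namespace Pool.Agent.Helper64.Frolov

variable {X : Type*} [MeasurableSpace X] {G : Type*} [AddCommGroup G]

/-- A system of characters on a probability space. -/
structure CharSys (μ : Measure X) (χ : G → X → ℂ) : Prop where
  meas : ∀ g, Measurable (χ g)
  zero : ∀ x, χ 0 x = 1
  add : ∀ g h x, χ (g + h) x = χ g x * χ h x
  neg : ∀ g x, χ (-g) x = (starRingEnd ℂ) (χ g x)
  int : ∀ g, g ≠ 0 → ∫ x, χ g x ∂μ = 0

/-- The character `g ↦ χ g x` as a monoid hom. -/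
def chHom {μ : Measure X} {χ : G → X → ℂ} (h : CharSys μ χ) (x : X) : Multiplicative G →* ℂ where
  toFun g := χ g.toAdd x
  map_one' := h.zero x
  map_mul' a b := h.add a.toAdd b.toAdd x

/-- evaluation of a trigonometric polynomial -/
noncomputable def ev {μ : Measure X} {χ : G → X → ℂ} (h : CharSys μ χ) (P : AddMonoidAlgebra ℝ G)
    (x : X) : ℂ := AddMonoidAlgebra.lift ℝ ℂ G (chHom h x) P

section
variable {μ : Measure X} {χ : G → X → ℂ} (h : CharSys μ χ)

lemma ev_single (g : G) (a : ℝ) (x : X) : ev h (AddMonoidAlgebra.single g a) x = a * χ g x := by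
  simp [ev, chHom]

lemma ev_add (P Q : AddMonoidAlgebra ℝ G) (x : X) : ev h (P + Q) x = ev h P x + ev h Q x := by
  simp [ev]

lemma ev_mul (P Q : AddMonoidAlgebra ℝ G) (x : X) : ev h (P * Q) x = ev h P x * ev h Q x := by
  simp [ev]

lemma ev_pow (P : AddMonoidAlgebra ℝ G) (k : ℕ) (x : X) : ev h (P ^ k) x = (ev h P x) ^ k := by
  simp [ev]

lemma ev_sum {ι : Type*} (s : Finset ι) (P : ι → AddMonoidAlgebra ℝ G) (x : X) :
    ev h (∑ i ∈ s, P i) x = ∑ i ∈ s, ev h (P i) x := by
  simp [ev]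

lemma ev_smul (a : ℝ) (P : AddMonoidAlgebra ℝ G) (x : X) : ev h (a • P) x = a * ev h P x := by
  simp [ev]

lemma ev_eq_sum (P : AddMonoidAlgebra ℝ G) (x : X) :
    ev h P x = ∑ g ∈ P.coeff.support, (P.coeff g : ℂ) * χ g x := by
  simp [ev, AddMonoidAlgebra.lift_apply, Finsupp.sum, chHom]

include h in
lemma norm_chi (g : G) (x : X) : ‖χ g x‖ = 1 := by
  have h1 : χ (g + (-g)) x = χ g x * χ (-g) x := h.add g (-g) x
  rw [add_neg_cancel, h.zero, h.neg, Complex.mul_conj] at h1
  have h2 : Complex.normSq (χ g x) = 1 := by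
    exact_mod_cast h1.symm
  rw [Complex.normSq_eq_norm_sq] at h2
  nlinarith [norm_nonneg (χ g x)]

variable [IsProbabilityMeasure μ]

include h in
lemma integrable_chi (g : G) : Integrable (χ g) μ := by
  refine Integrable.of_bound (h.meas g).aestronglyMeasurable 1 ?_
  exact Filter.Eventually.of_forall fun x => (norm_chi h g x).le

omit [IsProbabilityMeasure μ] in
lemma meas_ev (P : AddMonoidAlgebra ℝ G) : Measurable (ev h P) := by
  have : ev h P = fun x => ∑ g ∈ P.coeff.support, (P.coeff g : ℂ) * χ g x := by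
    funext x; exact ev_eq_sum h P x
  rw [this]
  exact Finset.measurable_sum _ fun g _ => (h.meas g).const_mul _

omit [IsProbabilityMeasure μ] in
lemma ev_bound (P : AddMonoidAlgebra ℝ G) (x : X) :
    ‖ev h P x‖ ≤ ∑ g ∈ P.coeff.support, |P.coeff g| := by
  rw [ev_eq_sum]
  refine (norm_sum_le _ _).trans (Finset.sum_le_sum fun g _ => ?_)
  simp [norm_chi h g x]

lemma integrable_ev (P : AddMonoidAlgebra ℝ G) : Integrable (ev h P) μ := by
  refine Integrable.of_bound (meas_ev h P).aestronglyMeasurable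
    (∑ g ∈ P.coeff.support, |P.coeff g|) ?_
  exact Filter.Eventually.of_forall fun x => ev_bound h P x

include h in
lemma integral_chi (g : G) [Decidable (g = 0)] : ∫ x, χ g x ∂μ = if g = 0 then 1 else 0 := by
  split_ifs with hg
  · subst hg
    simp [h.zero]
  · exact h.int g hg

lemma integral_ev (P : AddMonoidAlgebra ℝ G) : ∫ x, ev h P x ∂μ = P.coeff 0 := by
  classical
  have : ∀ x, ev h P x = ∑ g ∈ P.coeff.support, (P.coeff g : ℂ) * χ g x := ev_eq_sum h P
  simp_rw [this]
  rw [integral_finsetSum]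
  · simp_rw [integral_const_mul, integral_chi h]
    simp only [mul_ite, mul_one, mul_zero, Finset.sum_ite_eq', Finsupp.mem_support_iff]
    by_cases h0 : P.coeff 0 = 0
    · simp [h0]
    · simp [h0]
  · intro g _
    exact (integrable_chi h g).const_mul _

end

/-! ### nonnegative coefficients -/

/-- all coefficients are nonnegative -/
def NN (P : AddMonoidAlgebra ℝ G) : Prop := ∀ g, 0 ≤ P.coeff g

/-- coefficientwise domination -/
def Dom (P Q : AddMonoidAlgebra ℝ G) : Prop := ∀ g, P.coeff g ≤ Q.coeff g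

lemma NN.add {P Q : AddMonoidAlgebra ℝ G} (hP : NN P) (hQ : NN Q) : NN (P + Q) := fun g => by
  simpa using add_nonneg (hP g) (hQ g)

lemma NN.mul {P Q : AddMonoidAlgebra ℝ G} (hP : NN P) (hQ : NN Q) : NN (P * Q) := fun g => by
  classical
  rw [AddMonoidAlgebra.coeff_mul]
  refine Finset.sum_nonneg fun a _ => Finset.sum_nonneg fun b _ => ?_
  dsimp only
  split_ifs
  · exact mul_nonneg (hP a) (hQ b)
  · exact le_rfl

lemma NN.one : NN (1 : AddMonoidAlgebra ℝ G) := fun g => by
  classical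
  rw [AddMonoidAlgebra.one_def, AddMonoidAlgebra.coeff_single, Finsupp.single_apply]
  split_ifs <;> norm_num

lemma NN.pow {P : AddMonoidAlgebra ℝ G} (hP : NN P) (k : ℕ) : NN (P ^ k) := by
  induction k with
  | zero => simpa using NN.one
  | succ k ih => rw [pow_succ]; exact ih.mul hP

lemma dom_iff {P Q : AddMonoidAlgebra ℝ G} : Dom P Q ↔ NN (Q - P) := by
  refine forall_congr' fun g => ?_
  simp

lemma Dom.pow {P Q : AddMonoidAlgebra ℝ G} (hP : NN P) (hPQ : Dom P Q) (k : ℕ) :
    Dom (P ^ k) (Q ^ k) := by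
  have hQ : NN Q := fun g => (hP g).trans (hPQ g)
  induction k with
  | zero => intro g; simp
  | succ k ih =>
    rw [dom_iff] at ih hPQ ⊢
    have : Q ^ (k + 1) - P ^ (k + 1) = Q ^ k * (Q - P) + (Q ^ k - P ^ k) * P := by ring
    rw [this]
    exact ((hQ.pow k).mul hPQ).add (ih.mul hP)

end Pool.Agent.Helper64.Frolov
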