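import Mathlib
import Pool.Agent.Helper64.Frolov.A

open MeasureTheory

namespace Pool.Agent.Helper64.Frolov

set_option linter.unusedSectionVars false

variable {X : Type*} [MeasurableSpace X] {G : Type*} [AddCommGroup G]
variable {L : Type*} [DecidableEq L]

section defs
variable (χ : G → X → ℂ) (Z : Finset G) (w : G → ℝ) (l : G → L)

/-- component of the function with label `lam` and property `p` -/
noncomputable def comp (p : G → Prop) [DecidablePred p] (lam : L) (x : X) : ℂ :=
  ∑ m ∈ Z.filter (fun m => l m = lam ∧ p m), (w m : ℂ) * χ m x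

/-- square function (squared) -/
noncomputable def SQ (p : G → Prop) [DecidablePred p] (x : X) : ℝ :=
  ∑ lam ∈ Z.image l, ‖comp χ Z w l p lam x‖ ^ 2

/-- the index set of pairs -/
noncomputable def pairs : Finset (G × G) := (Z ×ˢ Z).filter (fun r => l r.1 = l r.2)

/-- the pair sum -/
noncomputable def pairSum (p q : G → Prop) [DecidablePred p] [DecidablePred q] (x : X) : ℂ :=
  ∑ r ∈ pairs Z l, if (p r.1 ∧ q r.2) then ((w r.1 * w r.2 : ℝ) : ℂ) * χ (r.1 - r.2) x else 0

end defs

section
variable {μ : Measure X} {χ : G → X → ℂ} (h : CharSys μ χ) (Z : Finset G) (w : G → ℝ) (l : G → L)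

include h in
lemma chi_sub (a b : G) (x : X) : χ (a - b) x = χ a x * (starRingEnd ℂ) (χ b x) := by
  rw [sub_eq_add_neg, h.add, h.neg]

include h in
lemma pairSum_eq (p q : G → Prop) [DecidablePred p] [DecidablePred q] (x : X) :
    pairSum χ Z w l p q x =
      ∑ lam ∈ Z.image l, comp χ Z w l p lam x * (starRingEnd ℂ) (comp χ Z w l q lam x) := by
  classical
  unfold pairSum comp pairs
  simp_rw [map_sum, Finset.sum_mul_sum]
  rw [Finset.sum_filter, Finset.sum_product]
  have h1 : ∀ lam ∈ Z.image l,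
      (∑ i ∈ Z.filter (fun m => l m = lam ∧ p m), ∑ j ∈ Z.filter (fun m => l m = lam ∧ q m),
        ((w i : ℂ) * χ i x) * (starRingEnd ℂ) ((w j : ℂ) * χ j x)) =
      ∑ i ∈ Z, ∑ j ∈ Z, if l i = lam then (if l i = l j ∧ p i ∧ q j then
        ((w i * w j : ℝ) : ℂ) * χ (i - j) x else 0) else 0 := by
    intro lam _
    rw [Finset.sum_filter]
    refine Finset.sum_congr rfl fun i _ => ?_
    rw [Finset.sum_filter]
    by_cases hi : l i = lam ∧ p i
    · rw [if_pos hi]
      refine Finset.sum_congr rfl fun j _ => ?_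
      by_cases hj : l j = lam ∧ q j
      · rw [if_pos hj, if_pos hi.1, if_pos ⟨hi.1.trans hj.1.symm, hi.2, hj.2⟩, chi_sub h]
        push_cast
        simp
        ring
      · rw [if_neg hj, if_pos hi.1, if_neg]
        rintro ⟨h1, h2, h3⟩
        exact hj ⟨h1.symm.trans hi.1, h3⟩
    · rw [if_neg hi]
      symm
      refine Finset.sum_eq_zero fun j _ => ?_
      by_cases hi1 : l i = lam
      · rw [if_pos hi1, if_neg]
        rintro ⟨h1, h2, h3⟩
        exact hi ⟨hi1, h2⟩
      · rw [if_neg hi1]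
  rw [Finset.sum_congr rfl h1, Finset.sum_comm (s := Z.image l) (t := Z)]
  refine Finset.sum_congr rfl fun i hi => ?_
  rw [Finset.sum_comm (s := Z.image l) (t := Z)]
  refine Finset.sum_congr rfl fun j hj => ?_
  rw [Finset.sum_ite_eq]
  rw [if_pos (Finset.mem_image_of_mem l hi)]
  by_cases h1 : l i = l j
  · by_cases h2 : p i ∧ q j
    · rw [if_pos h1, if_pos h2, if_pos ⟨h1, h2⟩]
    · rw [if_pos h1, if_neg h2, if_neg (fun h3 => h2 h3.2)]
  · rw [if_neg h1, if_neg (fun h3 => h1 h3.1)]

lemma SQ_nonneg (p : G → Prop) [DecidablePred p] (x : X) : 0 ≤ SQ χ Z w l p x :=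
  Finset.sum_nonneg fun _ _ => by positivity

include h in
lemma norm_pairSum_le (p q : G → Prop) [DecidablePred p] [DecidablePred q] (x : X) :
    ‖pairSum χ Z w l p q x‖ ≤ √(SQ χ Z w l p x) * √(SQ χ Z w l q x) := by
  rw [pairSum_eq h]
  refine (norm_sum_le _ _).trans ?_
  simp_rw [norm_mul, RCLike.norm_conj]
  exact Real.sum_mul_le_sqrt_mul_sqrt _ _ _

include h in
lemma pairSum_self (p : G → Prop) [DecidablePred p] (x : X) :
    pairSum χ Z w l p p x = (SQ χ Z w l p x : ℂ) := by
  rw [pairSum_eq h, SQ]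
  push_cast
  refine Finset.sum_congr rfl fun lam _ => ?_
  rw [Complex.mul_conj, Complex.normSq_eq_norm_sq]
  push_cast
  rfl

include h in
lemma SQ_le (hw : ∀ g, 0 ≤ w g) (p : G → Prop) [DecidablePred p] (x : X) :
    SQ χ Z w l p x ≤ (∑ m ∈ Z, w m) ^ 2 := by
  have h1 : ∀ lam ∈ Z.image l, ‖comp χ Z w l p lam x‖ ≤ ∑ m ∈ Z.filter (fun m => l m = lam), w m := by
    intro lam _
    unfold comp
    refine (norm_sum_le _ _).trans ?_
    have : ∀ m ∈ Z.filter (fun m => l m = lam ∧ p m), ‖(w m : ℂ) * χ m x‖ = w m := by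
      intro m _
      rw [norm_mul, norm_chi h, mul_one]
      simp [abs_of_nonneg (hw m)]
    rw [Finset.sum_congr rfl this]
    refine Finset.sum_le_sum_of_subset_of_nonneg ?_ (fun _ _ _ => hw _)
    intro m
    simp only [Finset.mem_filter]
    tauto
  have h2 : ∑ lam ∈ Z.image l, ‖comp χ Z w l p lam x‖ ≤ ∑ m ∈ Z, w m := by
    refine (Finset.sum_le_sum h1).trans ?_
    rw [Finset.sum_fiberwise_of_maps_to (fun m hm => Finset.mem_image_of_mem l hm)]
  have h3 : SQ χ Z w l p x ≤ (∑ lam ∈ Z.image l, ‖comp χ Z w l p lam x‖) ^ 2 := by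
    unfold SQ
    exact Finset.sum_sq_le_sq_sum_of_nonneg (fun _ _ => norm_nonneg _)
  refine h3.trans ?_
  exact pow_le_pow_left₀ (Finset.sum_nonneg fun _ _ => norm_nonneg _) h2 2

include h in
lemma meas_comp (p : G → Prop) [DecidablePred p] (lam : L) : Measurable (comp χ Z w l p lam) := by
  unfold comp
  exact Finset.measurable_sum _ fun g _ => (h.meas g).const_mul _

include h in
lemma meas_SQ (p : G → Prop) [DecidablePred p] : Measurable (SQ χ Z w l p) := by
  unfold SQ
  exact Finset.measurable_sum _ fun g _ => ((meas_comp h Z w l p g).norm).pow_const 2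

end

end Pool.Agent.Helper64.Frolov
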