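import Mathlib
import Pool.Agent.Helper64.Frolov.B

open MeasureTheory

namespace Pool.Agent.Helper64.Frolov

set_option linter.unusedSectionVars false

variable {X : Type*} [MeasurableSpace X] {G : Type*} [AddCommGroup G]
variable {L : Type*} [DecidableEq L]

section
variable {μ : Measure X} [IsProbabilityMeasure μ] {χ : G → X → ℂ} (h : CharSys μ χ)
  (Z : Finset G) (w : G → ℝ) (l : G → L)

include h in
lemma chi_sum {ι : Type*} (s : Finset ι) (g : ι → G) (x : X) :
    χ (∑ i ∈ s, g i) x = ∏ i ∈ s, χ (g i) x := by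
  classical
  induction s using Finset.induction_on with
  | empty => simp [h.zero]
  | insert a s ha ih => rw [Finset.sum_insert ha, Finset.prod_insert ha, h.add, ih]

include h in
lemma integral_prod_pairSum [DecidableEq G] (k : ℕ) (c : Fin k → Bool → G → Prop)
    [∀ i s, DecidablePred (c i s)] :
    ∫ x, ∏ i, pairSum χ Z w l (c i true) (c i false) x ∂μ =
      ((∑ f ∈ Fintype.piFinset (fun _ : Fin k => pairs Z l),
        if (∑ i, ((f i).1 - (f i).2) = 0 ∧ ∀ i, c i true (f i).1 ∧ c i false (f i).2) then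
          ∏ i, (w (f i).1 * w (f i).2) else 0 : ℝ) : ℂ) := by
  have h1 : ∀ x, ∏ i, pairSum χ Z w l (c i true) (c i false) x =
      ∑ f ∈ Fintype.piFinset (fun _ : Fin k => pairs Z l),
        (if (∀ i, c i true (f i).1 ∧ c i false (f i).2) then
          ((∏ i, (w (f i).1 * w (f i).2) : ℝ) : ℂ) * χ (∑ i, ((f i).1 - (f i).2)) x else 0) := by
    intro x
    unfold pairSum
    rw [Finset.prod_univ_sum]
    refine Finset.sum_congr rfl fun f _ => ?_
    split_ifs with hc
    · rw [chi_sum h]
      push_cast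
      rw [← Finset.prod_mul_distrib]
      refine Finset.prod_congr rfl fun i _ => ?_
      rw [if_pos (hc i)]
    · push Not at hc
      obtain ⟨i, hi⟩ := hc
      refine Finset.prod_eq_zero (Finset.mem_univ i) ?_
      rw [if_neg]
      rintro ⟨h1, h2⟩
      exact hi h1 h2
  simp_rw [h1]
  rw [integral_finsetSum]
  · push_cast
    refine Finset.sum_congr rfl fun f _ => ?_
    by_cases hc : ∀ i, c i true (f i).1 ∧ c i false (f i).2
    · simp only [if_pos hc]
      rw [integral_const_mul, integral_chi h]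
      by_cases h0 : ∑ i, ((f i).1 - (f i).2) = 0
      · rw [if_pos h0, if_pos ⟨h0, hc⟩]
        simp
      · rw [if_neg h0, if_neg (fun h2 => h0 h2.1)]
        simp
    · simp only [if_neg hc]
      rw [if_neg (fun h2 => hc h2.2)]
      simp
  · intro f _
    by_cases hc : ∀ i, c i true (f i).1 ∧ c i false (f i).2
    · simp only [if_pos hc]
      exact (integrable_chi h _).const_mul _
    · simp only [if_neg hc]
      exact integrable_zero _ _ _

/-- total weight of zero sum configurations satisfying the constraint `c` -/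
noncomputable def NW [DecidableEq G] (k : ℕ) (c : Fin k → Bool → G → Prop)
    [∀ i s, DecidablePred (c i s)] : ℝ :=
  ∑ f ∈ Fintype.piFinset (fun _ : Fin k => pairs Z l),
        if (∑ i, ((f i).1 - (f i).2) = 0 ∧ ∀ i, c i true (f i).1 ∧ c i false (f i).2) then
          ∏ i, (w (f i).1 * w (f i).2) else 0

include h in
lemma integrable_of_bdd_meas {f : X → ℝ} (hf : Measurable f) (C : ℝ) (hC : ∀ x, |f x| ≤ C) :
    Integrable f μ :=
  Integrable.of_bound hf.aestronglyMeasurable C (Filter.Eventually.of_forall hC)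

include h in
lemma NW_le [DecidableEq G] (hw : ∀ g, 0 ≤ w g) (k : ℕ) (c : Fin k → Bool → G → Prop)
    [∀ i s, DecidablePred (c i s)] :
    NW Z w l k c ≤ ∫ x, ∏ q : Fin k × Bool, √(SQ χ Z w l (c q.1 q.2) x) ∂μ := by
  have h1 := integral_prod_pairSum h Z w l k c
  have h2 : ((NW Z w l k c : ℝ) : ℂ) = ∫ x, ∏ i, pairSum χ Z w l (c i true) (c i false) x ∂μ := by
    rw [h1]; rfl
  have h3 : NW Z w l k c ≤ ‖((NW Z w l k c : ℝ) : ℂ)‖ := by
    rw [Complex.norm_real]; exact le_abs_self _
  refine h3.trans ?_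
  rw [h2]
  refine (norm_integral_le_integral_norm _).trans ?_
  refine integral_mono_of_nonneg (Filter.Eventually.of_forall fun x => norm_nonneg _) ?_
    (Filter.Eventually.of_forall fun x => ?_)
  · refine integrable_of_bdd_meas h ?_ (∏ q : Fin k × Bool, √((∑ m ∈ Z, w m) ^ 2)) ?_
    · exact Finset.measurable_prod _ fun q _ => (meas_SQ h Z w l _).sqrt
    · intro x
      rw [abs_of_nonneg (Finset.prod_nonneg fun _ _ => Real.sqrt_nonneg _)]
      exact Finset.prod_le_prod (fun _ _ => Real.sqrt_nonneg _)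
        (fun q _ => Real.sqrt_le_sqrt (SQ_le h Z w l hw _ x))
  · dsimp only
    rw [norm_prod, Fintype.prod_prod_type]
    refine Finset.prod_le_prod (fun _ _ => norm_nonneg _) fun i _ => ?_
    rw [Fintype.prod_bool]
    exact norm_pairSum_le h Z w l _ _ x

/-- the block-restricted square function -/
lemma sum_SQ_block (b : G → ℕ) (B : Finset ℕ) (hB : ∀ m ∈ Z, b m ∈ B) (x : X) :
    ∑ β ∈ B, SQ χ Z w l (fun m => b m = β) x =
      SQ χ Z w (fun m => (l m, b m)) (fun _ => True) x := by
  classical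
  unfold SQ
  rw [Finset.sum_comm]
  rw [← Finset.sum_product']
  symm
  have hsub : Z.image (fun m => (l m, b m)) ⊆ Z.image l ×ˢ B := by
    intro p hp
    rw [Finset.mem_image] at hp
    obtain ⟨m, hm, rfl⟩ := hp
    exact Finset.mem_product.2 ⟨Finset.mem_image_of_mem l hm, hB m hm⟩
  rw [← Finset.sum_subset hsub]
  · refine Finset.sum_congr rfl fun p _ => ?_
    congr 2
    unfold comp
    refine Finset.sum_congr ?_ fun _ _ => rfl
    ext m
    simp only [Finset.mem_filter, Prod.ext_iff, and_true]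
  · intro p _ hp
    have : comp χ Z w l (fun m => b m = p.2) p.1 x = 0 := by
      unfold comp
      rw [Finset.filter_eq_empty_iff.2]
      · simp
      · intro m hm hlb
        exact hp (Finset.mem_image.2 ⟨m, hm, Prod.ext hlb.1 hlb.2⟩)
    rw [this]
    simp

/-- the near property -/
def Near (b : G → ℕ) (c k : ℕ) : Prop :=
  ∀ f : Fin k → G × G, (∀ i, (f i).1 ∈ Z ∧ (f i).2 ∈ Z) → ∑ i, ((f i).1 - (f i).2) = 0 →
    ∃ P Q : Fin k × Bool, P ≠ Q ∧
      b (if P.2 then (f P.1).1 else (f P.1).2) ≤ b (if Q.2 then (f Q.1).1 else (f Q.1).2) + c ∧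
      b (if Q.2 then (f Q.1).1 else (f Q.1).2) ≤ b (if P.2 then (f P.1).1 else (f P.1).2) + c

/-- constraint -/
def cons {k : ℕ} (b : G → ℕ) (P Q : Fin k × Bool) (β γ : ℕ) : Fin k → Bool → G → Prop :=
  fun i s m => (P = (i, s) → b m = β) ∧ (Q = (i, s) → b m = γ)

noncomputable instance {k : ℕ} (b : G → ℕ) (P Q : Fin k × Bool) (β γ : ℕ) (i : Fin k) (s : Bool) :
    DecidablePred (cons b P Q β γ i s) := fun _ => Classical.dec _

end

end Pool.Agent.Helper64.Frolov
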