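import Mathlib
import Pool.Agent.Helper64.Frolov.C

open MeasureTheory

namespace Pool.Agent.Helper64.Frolov

set_option linter.unusedSectionVars false

variable {X : Type*} [MeasurableSpace X] {G : Type*} [AddCommGroup G]
variable {L : Type*} [DecidableEq L]

section
variable {μ : Measure X} [IsProbabilityMeasure μ] {χ : G → X → ℂ} (h : CharSys μ χ)
  (Z : Finset G) (w : G → ℝ) (l : G → L)

lemma SQ_congr {p q : G → Prop} [DecidablePred p] [DecidablePred q] (hpq : ∀ m, p m ↔ q m) (x : X) :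
    SQ χ Z w l p x = SQ χ Z w l q x := by
  unfold SQ
  refine Finset.sum_congr rfl fun lam _ => ?_
  congr 2
  unfold comp
  refine Finset.sum_congr ?_ fun _ _ => rfl
  ext m
  simp only [Finset.mem_filter, hpq]

include h in
lemma integral_SQ_pow_eq_NW [DecidableEq G] (k : ℕ) :
    ∫ x, (SQ χ Z w l (fun _ => True) x) ^ k ∂μ = NW Z w l k (fun _ _ _ => True) := by
  have h1 := integral_prod_pairSum h Z w l k (fun _ _ _ => True)
  have h2 : ∀ x, ∏ i : Fin k, pairSum χ Z w l (fun _ => True) (fun _ => True) x =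
      (((SQ χ Z w l (fun _ => True) x) ^ k : ℝ) : ℂ) := by
    intro x
    rw [Finset.prod_const, pairSum_self h]
    simp
  simp_rw [h2] at h1
  rw [integral_complex_ofReal] at h1
  exact Complex.ofReal_injective h1

lemma NW_nonneg_term (hw : ∀ g, 0 ≤ w g) {k : ℕ} (f : Fin k → G × G) :
    0 ≤ ∏ i, (w (f i).1 * w (f i).2) :=
  Finset.prod_nonneg fun _ _ => mul_nonneg (hw _) (hw _)

/-- near pairs of block indices -/
def nearPairs (B : Finset ℕ) (c : ℕ) : Finset (ℕ × ℕ) :=
  (B ×ˢ B).filter (fun p => p.1 ≤ p.2 + c ∧ p.2 ≤ p.1 + c)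

lemma NW_step1 [DecidableEq G] (hw : ∀ g, 0 ≤ w g) (b : G → ℕ) (B : Finset ℕ)
    (hB : ∀ m ∈ Z, b m ∈ B) (c k : ℕ) (hnear : Near Z b c k) :
    NW Z w l k (fun _ _ _ => True) ≤
      ∑ PQ ∈ (Finset.univ : Finset ((Fin k × Bool) × (Fin k × Bool))).filter (fun t => t.1 ≠ t.2),
        ∑ βγ ∈ nearPairs B c, NW Z w l k (cons b PQ.1 PQ.2 βγ.1 βγ.2) := by
  unfold NW
  have hswap : ∀ PQ : (Fin k × Bool) × (Fin k × Bool),
      (∑ βγ ∈ nearPairs B c, ∑ f ∈ Fintype.piFinset (fun _ : Fin k => pairs Z l),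
        if (∑ i, ((f i).1 - (f i).2) = 0 ∧ ∀ i, cons b PQ.1 PQ.2 βγ.1 βγ.2 i true (f i).1 ∧
          cons b PQ.1 PQ.2 βγ.1 βγ.2 i false (f i).2) then
          ∏ i, (w (f i).1 * w (f i).2) else 0) =
      ∑ f ∈ Fintype.piFinset (fun _ : Fin k => pairs Z l), ∑ βγ ∈ nearPairs B c,
        if (∑ i, ((f i).1 - (f i).2) = 0 ∧ ∀ i, cons b PQ.1 PQ.2 βγ.1 βγ.2 i true (f i).1 ∧
          cons b PQ.1 PQ.2 βγ.1 βγ.2 i false (f i).2) then
          ∏ i, (w (f i).1 * w (f i).2) else 0 := fun PQ => Finset.sum_comm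
  simp_rw [hswap]
  rw [Finset.sum_comm]
  refine Finset.sum_le_sum fun f hf => ?_
  have hmem : ∀ i, (f i).1 ∈ Z ∧ (f i).2 ∈ Z := by
    intro i
    have := Fintype.mem_piFinset.1 hf i
    simp only [pairs, Finset.mem_filter, Finset.mem_product] at this
    exact this.1
  split_ifs with hc
  · obtain ⟨P, Q, hPQ, h1, h2⟩ := hnear f hmem hc.1
    set β := b (if P.2 then (f P.1).1 else (f P.1).2) with hβ
    set γ := b (if Q.2 then (f Q.1).1 else (f Q.1).2) with hγ
    have hβB : β ∈ B := by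
      rw [hβ]; split_ifs
      · exact hB _ (hmem _).1
      · exact hB _ (hmem _).2
    have hγB : γ ∈ B := by
      rw [hγ]; split_ifs
      · exact hB _ (hmem _).1
      · exact hB _ (hmem _).2
    refine le_trans ?_ (Finset.single_le_sum (f := fun t : (Fin k × Bool) × (Fin k × Bool) =>
        ∑ βγ ∈ nearPairs B c,
        if (∑ i, ((f i).1 - (f i).2) = 0 ∧ ∀ i, cons b t.1 t.2 βγ.1 βγ.2 i true (f i).1 ∧
          cons b t.1 t.2 βγ.1 βγ.2 i false (f i).2) then
          ∏ i, (w (f i).1 * w (f i).2) else 0) ?_ (a := (P, Q)) ?_)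
    · refine le_trans ?_ (Finset.single_le_sum (f := fun βγ : ℕ × ℕ =>
          if (∑ i, ((f i).1 - (f i).2) = 0 ∧ ∀ i, cons b (P, Q).1 (P, Q).2 βγ.1 βγ.2 i true (f i).1 ∧
          cons b (P, Q).1 (P, Q).2 βγ.1 βγ.2 i false (f i).2) then
          ∏ i, (w (f i).1 * w (f i).2) else 0) ?_ (a := (β, γ)) ?_)
      · dsimp only
        rw [if_pos]
        refine ⟨hc.1, fun i => ⟨⟨?_, ?_⟩, ⟨?_, ?_⟩⟩⟩
        · intro hP; rw [hβ, hP]; simp
        · intro hQ; rw [hγ, hQ]; simp
        · intro hP; rw [hβ, hP]; simp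
        · intro hQ; rw [hγ, hQ]; simp
      · intro βγ _
        dsimp only
        split_ifs
        · exact NW_nonneg_term w hw f
        · exact le_rfl
      · simp only [nearPairs, Finset.mem_filter, Finset.mem_product]
        exact ⟨⟨hβB, hγB⟩, h1, h2⟩
    · intro t _
      refine Finset.sum_nonneg fun βγ _ => ?_
      split_ifs
      · exact NW_nonneg_term w hw f
      · exact le_rfl
    · simp [hPQ]
  · refine Finset.sum_nonneg fun t _ => Finset.sum_nonneg fun βγ _ => ?_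
    split_ifs
    · exact NW_nonneg_term w hw f
    · exact le_rfl

include h in
lemma NW_step2 [DecidableEq G] (hw : ∀ g, 0 ≤ w g) (b : G → ℕ) (k : ℕ)
    (P Q : Fin k × Bool) (hPQ : P ≠ Q) (β γ : ℕ) :
    NW Z w l k (cons b P Q β γ) ≤
      ∫ x, √(SQ χ Z w l (fun m => b m = β) x) * √(SQ χ Z w l (fun m => b m = γ) x) *
        (SQ χ Z w l (fun _ => True) x) ^ (k - 1) ∂μ := by
  refine (NW_le h Z w l hw k _).trans (le_of_eq ?_)
  refine integral_congr_ae (Filter.Eventually.of_forall fun x => ?_)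
  dsimp only
  rw [← Finset.mul_prod_erase Finset.univ _ (Finset.mem_univ P),
    ← Finset.mul_prod_erase (Finset.univ.erase P) _ (Finset.mem_erase.2 ⟨hPQ.symm, Finset.mem_univ Q⟩)]
  have e1 : SQ χ Z w l (cons b P Q β γ P.1 P.2) x = SQ χ Z w l (fun m => b m = β) x := by
    refine SQ_congr Z w l (fun m => ?_) x
    unfold cons
    constructor
    · intro hh; exact hh.1 rfl
    · intro hh; exact ⟨fun _ => hh, fun hQ => absurd hQ.symm hPQ⟩
  have e2 : SQ χ Z w l (cons b P Q β γ Q.1 Q.2) x = SQ χ Z w l (fun m => b m = γ) x := by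
    refine SQ_congr Z w l (fun m => ?_) x
    unfold cons
    constructor
    · intro hh; exact hh.2 rfl
    · intro hh; exact ⟨fun hP => absurd hP hPQ, fun _ => hh⟩
  have e3 : ∀ q ∈ (Finset.univ.erase P).erase Q,
      √(SQ χ Z w l (cons b P Q β γ q.1 q.2) x) = √(SQ χ Z w l (fun _ => True) x) := by
    intro q hq
    rw [Finset.mem_erase, Finset.mem_erase] at hq
    congr 1
    refine SQ_congr Z w l (fun m => ?_) x
    unfold cons
    simp only [iff_true]
    exact ⟨fun hP => absurd hP.symm hq.2.1, fun hQ => absurd hQ.symm hq.1⟩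
  rw [e1, e2, Finset.prod_congr rfl e3, Finset.prod_const, Finset.card_erase_of_mem,
    Finset.card_erase_of_mem (Finset.mem_univ P)]
  · have hcard : (Finset.univ : Finset (Fin k × Bool)).card - 1 - 1 = 2 * (k - 1) := by
      simp [Fintype.card_prod]
      omega
    rw [hcard, pow_mul, Real.sq_sqrt (SQ_nonneg Z w l _ x)]
    ring
  · exact Finset.mem_erase.2 ⟨hPQ.symm, Finset.mem_univ Q⟩

lemma sum_nearPairs_le (B : Finset ℕ) (c : ℕ) (A : ℕ → ℝ) (hA : ∀ β, 0 ≤ A β) :
    ∑ p ∈ nearPairs B c, √(A p.1) * √(A p.2) ≤ (2 * c + 1) * ∑ β ∈ B, A β := by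
  have h1 : ∀ p ∈ nearPairs B c, √(A p.1) * √(A p.2) ≤ A p.1 / 2 + A p.2 / 2 := by
    intro p _
    have := two_mul_le_add_sq (√(A p.1)) (√(A p.2))
    rw [Real.sq_sqrt (hA _), Real.sq_sqrt (hA _)] at this
    linarith
  refine (Finset.sum_le_sum h1).trans ?_
  rw [Finset.sum_add_distrib]
  have h2 : ∑ p ∈ nearPairs B c, A p.1 / 2 ≤ (2 * c + 1) * ∑ β ∈ B, A β / 2 := by
    unfold nearPairs
    rw [Finset.sum_filter, Finset.sum_product, Finset.mul_sum]
    refine Finset.sum_le_sum fun β _ => ?_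
    rw [← Finset.sum_filter]
    dsimp only
    rw [Finset.sum_const, nsmul_eq_mul]
    refine mul_le_mul_of_nonneg_right ?_ (by have := hA β; positivity)
    have : (B.filter (fun a => β ≤ a + c ∧ a ≤ β + c)).card ≤ 2 * c + 1 := by
      refine (Finset.card_le_card (t := Finset.Icc (β - c) (β + c)) ?_).trans ?_
      · intro a ha
        rw [Finset.mem_filter] at ha
        rw [Finset.mem_Icc]
        omega
      · rw [Nat.card_Icc]; omega
    exact_mod_cast this
  have h3 : ∑ p ∈ nearPairs B c, A p.2 / 2 ≤ (2 * c + 1) * ∑ β ∈ B, A β / 2 := by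
    unfold nearPairs
    rw [Finset.sum_filter, Finset.sum_product, Finset.sum_comm, Finset.mul_sum]
    refine Finset.sum_le_sum fun β _ => ?_
    rw [← Finset.sum_filter]
    dsimp only
    rw [Finset.sum_const, nsmul_eq_mul]
    refine mul_le_mul_of_nonneg_right ?_ (by have := hA β; positivity)
    have : (B.filter (fun a => a ≤ β + c ∧ β ≤ a + c)).card ≤ 2 * c + 1 := by
      refine (Finset.card_le_card (t := Finset.Icc (β - c) (β + c)) ?_).trans ?_
      · intro a ha
        rw [Finset.mem_filter] at ha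
        rw [Finset.mem_Icc]
        omega
      · rw [Nat.card_Icc]; omega
    exact_mod_cast this
  have h4 : ∑ β ∈ B, A β / 2 = (∑ β ∈ B, A β) / 2 := (Finset.sum_div _ _ _).symm
  rw [h4] at h2 h3
  linarith

lemma young_aux (C x y : ℝ) (hC : 0 ≤ C) (hx : 0 ≤ x) (hy : 0 ≤ y) (k : ℕ) (hk : 1 ≤ k) :
    C * y * x ^ (k - 1) ≤ x ^ k / 2 + (2 * C) ^ k * y ^ k := by
  obtain ⟨j, rfl⟩ : ∃ j, k = j + 1 := ⟨k - 1, by omega⟩
  simp only [Nat.add_sub_cancel]
  rcases le_total (C * y) (x / 2) with h1 | h1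
  · have : C * y * x ^ j ≤ x / 2 * x ^ j := mul_le_mul_of_nonneg_right h1 (by positivity)
    have h2 : 0 ≤ (2 * C) ^ (j + 1) * y ^ (j + 1) := by positivity
    calc C * y * x ^ j ≤ x / 2 * x ^ j := this
      _ = x ^ (j + 1) / 2 := by ring
      _ ≤ _ := by linarith
  · have hx2 : x ≤ 2 * C * y := by linarith
    have h2 : C * y * x ^ j ≤ C * y * (2 * C * y) ^ j := by
      refine mul_le_mul_of_nonneg_left (pow_le_pow_left₀ hx hx2 j) (by positivity)
    have h3 : C * y * (2 * C * y) ^ j ≤ (2 * C) ^ (j + 1) * y ^ (j + 1) := by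
      rw [← mul_pow, pow_succ (2 * C * y), mul_comm]
      refine mul_le_mul_of_nonneg_left ?_ (by positivity)
      nlinarith [mul_nonneg hC hy]
    have h4 : 0 ≤ x ^ (j + 1) / 2 := by positivity
    linarith

include h in
/-- one step of the positivity Littlewood-Paley inequality -/
theorem lp_step [DecidableEq G] (hw : ∀ g, 0 ≤ w g) (b : G → ℕ) (c k : ℕ) (hk : 1 ≤ k)
    (hnear : Near Z b c k) :
    ∫ x, (SQ χ Z w l (fun _ => True) x) ^ k ∂μ ≤
      2 * (2 * ((2 * k) ^ 2 * (2 * c + 1))) ^ k *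
      ∫ x, (SQ χ Z w (fun m => (l m, b m)) (fun _ => True) x) ^ k ∂μ := by
  classical
  set B : Finset ℕ := Z.image b with hBdef
  have hB : ∀ m ∈ Z, b m ∈ B := fun m hm => Finset.mem_image_of_mem b hm
  set T : X → ℝ := SQ χ Z w l (fun _ => True) with hT
  set T' : X → ℝ := SQ χ Z w (fun m => (l m, b m)) (fun _ => True) with hT'
  set A : ℕ → X → ℝ := fun β => SQ χ Z w l (fun m => b m = β) with hA
  set M : ℝ := (∑ m ∈ Z, w m) ^ 2 with hM
  have hM0 : 0 ≤ M := by positivity
  have hTn : ∀ x, 0 ≤ T x := fun x => SQ_nonneg Z w l _ x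
  have hTn' : ∀ x, 0 ≤ T' x := fun x => SQ_nonneg Z w _ _ x
  have hAn : ∀ β x, 0 ≤ A β x := fun β x => SQ_nonneg Z w l _ x
  have hTM : ∀ x, T x ≤ M := fun x => SQ_le h Z w l hw _ x
  have hTM' : ∀ x, T' x ≤ M := fun x => SQ_le h Z w _ hw _ x
  have hAM : ∀ β x, A β x ≤ M := fun β x => SQ_le h Z w l hw _ x
  have mT : Measurable T := meas_SQ h Z w l _
  have mT' : Measurable T' := meas_SQ h Z w _ _
  have mA : ∀ β, Measurable (A β) := fun β => meas_SQ h Z w l _
  have key1 : ∫ x, (T x) ^ k ∂μ ≤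
      ∑ PQ ∈ (Finset.univ : Finset ((Fin k × Bool) × (Fin k × Bool))).filter (fun t => t.1 ≠ t.2),
        ∑ βγ ∈ nearPairs B c, ∫ x, √(A βγ.1 x) * √(A βγ.2 x) * (T x) ^ (k - 1) ∂μ := by
    rw [hT, integral_SQ_pow_eq_NW h Z w l k]
    refine (NW_step1 Z w l hw b B hB c k hnear).trans ?_
    refine Finset.sum_le_sum fun PQ hPQ => Finset.sum_le_sum fun βγ _ => ?_
    exact NW_step2 h Z w l hw b k PQ.1 PQ.2 (Finset.mem_filter.1 hPQ).2 βγ.1 βγ.2
  have intA : ∀ βγ : ℕ × ℕ, Integrable (fun x => √(A βγ.1 x) * √(A βγ.2 x) * (T x) ^ (k - 1)) μ := by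
    intro βγ
    refine integrable_of_bdd_meas h ?_ (√M * √M * M ^ (k - 1)) ?_
    · exact (((mA _).sqrt).mul ((mA _).sqrt)).mul (mT.pow_const _)
    · intro x
      have : 0 ≤ √(A βγ.1 x) * √(A βγ.2 x) * (T x) ^ (k - 1) := by
        have := hTn x
        positivity
      rw [abs_of_nonneg this]
      have := hTn x
      gcongr
      · exact hAM _ x
      · exact hAM _ x
      · exact hTM x
  have key2 : ∀ PQ : (Fin k × Bool) × (Fin k × Bool),
      ∑ βγ ∈ nearPairs B c, ∫ x, √(A βγ.1 x) * √(A βγ.2 x) * (T x) ^ (k - 1) ∂μ ≤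
      ∫ x, (2 * c + 1) * T' x * (T x) ^ (k - 1) ∂μ := by
    intro _
    rw [← integral_finsetSum _ (fun βγ _ => intA βγ)]
    refine integral_mono (integrable_finsetSum _ fun βγ _ => intA βγ) ?_ ?_
    · refine integrable_of_bdd_meas h ?_ ((2 * c + 1) * M * M ^ (k - 1)) ?_
      · exact ((mT'.const_mul _)).mul (mT.pow_const _)
      · intro x
        have h0 : 0 ≤ (2 * (c : ℝ) + 1) * T' x * (T x) ^ (k - 1) := by
          have := hTn x; have := hTn' x; positivity
        rw [abs_of_nonneg h0]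
        have := hTn x; have := hTn' x
        gcongr
        · exact hTM' x
        · exact hTM x
    · intro x
      dsimp only
      rw [← Finset.sum_mul]
      refine mul_le_mul_of_nonneg_right ?_ (pow_nonneg (hTn x) _)
      refine (sum_nearPairs_le B c (fun β => A β x) (fun β => hAn β x)).trans ?_
      rw [hA, hT']
      dsimp only
      rw [sum_SQ_block Z w l b B hB x]
  have key3 : ∫ x, (T x) ^ k ∂μ ≤
      ((2 * k) ^ 2 : ℝ) * ∫ x, (2 * c + 1) * T' x * (T x) ^ (k - 1) ∂μ := by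
    refine key1.trans ?_
    refine (Finset.sum_le_sum fun PQ _ => key2 PQ).trans ?_
    rw [Finset.sum_const, nsmul_eq_mul]
    refine mul_le_mul_of_nonneg_right ?_ (integral_nonneg fun x => ?_)
    · have : ((Finset.univ : Finset ((Fin k × Bool) × (Fin k × Bool))).filter
          (fun t => t.1 ≠ t.2)).card ≤ (2 * k) ^ 2 := by
        refine (Finset.card_filter_le _ _).trans ?_
        simp [Fintype.card_prod]
        nlinarith
      exact_mod_cast this
    · have := hTn x; have := hTn' x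
      dsimp only [Pi.zero_apply]
      positivity
  have key4 : ((2 * k) ^ 2 : ℝ) * ∫ x, (2 * c + 1) * T' x * (T x) ^ (k - 1) ∂μ ≤
      (∫ x, (T x) ^ k ∂μ) / 2 + (2 * ((2 * k) ^ 2 * (2 * c + 1)) : ℝ) ^ k * ∫ x, (T' x) ^ k ∂μ := by
    have iT : Integrable (fun x => (T x) ^ k) μ := by
      refine integrable_of_bdd_meas h (mT.pow_const _) (M ^ k) ?_
      intro x
      rw [abs_of_nonneg (pow_nonneg (hTn x) _)]
      exact pow_le_pow_left₀ (hTn x) (hTM x) k
    have iT' : Integrable (fun x => (T' x) ^ k) μ := by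
      refine integrable_of_bdd_meas h (mT'.pow_const _) (M ^ k) ?_
      intro x
      rw [abs_of_nonneg (pow_nonneg (hTn' x) _)]
      exact pow_le_pow_left₀ (hTn' x) (hTM' x) k
    rw [← integral_const_mul, ← integral_const_mul, ← integral_div, ← integral_add
      (iT.div_const _) (iT'.const_mul _)]
    refine integral_mono_of_nonneg (Filter.Eventually.of_forall fun x => ?_)
      ((iT.div_const _).add (iT'.const_mul _)) (Filter.Eventually.of_forall fun x => ?_)
    · have := hTn x; have := hTn' x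
      dsimp only [Pi.zero_apply]
      positivity
    · dsimp only
      have := young_aux ((2 * k) ^ 2 * (2 * c + 1)) (T x) (T' x) (by positivity) (hTn x) (hTn' x) k hk
      calc ((2 * k) ^ 2 : ℝ) * ((2 * c + 1) * T' x * (T x) ^ (k - 1))
          = (2 * k) ^ 2 * (2 * c + 1) * T' x * (T x) ^ (k - 1) := by ring
        _ ≤ _ := this
  have := key3.trans key4
  linarith

end

end Pool.Agent.Helper64.Frolov
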