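import Mathlib
import Pool.Agent.Helper64.Frolov.D

open MeasureTheory

namespace Pool.Agent.Helper64.Frolov

set_option linter.unusedSectionVars false

variable {G : Type*} [AddCommGroup G] {d : ℕ}

/-- dyadic block index of a real number -/
noncomputable def bi (y : ℝ) : ℕ := Nat.log 2 ⌊|y|⌋₊

lemma lt_two_pow_bi (y : ℝ) : |y| < 2 ^ (bi y + 1) := by
  have h1 : ⌊|y|⌋₊ < 2 ^ (bi y + 1) := Nat.lt_pow_succ_log_self (by norm_num) _
  have h2 : |y| < ⌊|y|⌋₊ + 1 := Nat.lt_floor_add_one _
  have h3 : ((⌊|y|⌋₊ + 1 : ℕ) : ℝ) ≤ ((2 ^ (bi y + 1) : ℕ) : ℝ) := by exact_mod_cast h1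
  push_cast at h3
  linarith

lemma bi_le_of_lt {y : ℝ} {t : ℕ} (h : |y| < 2 ^ (t + 1)) : bi y ≤ t := by
  unfold bi
  by_cases h0 : ⌊|y|⌋₊ = 0
  · rw [h0]; simp
  · have h1 : ⌊|y|⌋₊ < 2 ^ (t + 1) := by
      rw [Nat.floor_lt (abs_nonneg _)]
      exact_mod_cast h
    have := Nat.log_lt_of_lt_pow h0 h1
    omega

lemma bi_le_of_lt' {y : ℝ} {t : ℕ} (h : |y| < 2 ^ t) : bi y ≤ t :=
  bi_le_of_lt (h.trans_le (pow_le_pow_right₀ (by norm_num) (Nat.le_succ t)))

lemma bi_mono {y y' : ℝ} (h : |y| ≤ |y'|) : bi y ≤ bi y' :=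
  bi_le_of_lt (h.trans_lt (lt_two_pow_bi y'))

lemma bi_neg (y : ℝ) : bi (-y) = bi y := by simp [bi]

lemma bi_near {y y' : ℝ} {c : ℕ} (h : |y| ≤ 2 ^ c * |y'|) : bi y ≤ bi y' + c := by
  refine bi_le_of_lt ?_
  calc |y| ≤ 2 ^ c * |y'| := h
    _ < 2 ^ c * 2 ^ (bi y' + 1) := by
      have := lt_two_pow_bi y'
      have h2 : (0 : ℝ) < 2 ^ c := by positivity
      nlinarith
    _ = 2 ^ (bi y' + c + 1) := by ring

lemma two_pow_bi_le {y : ℝ} : (2 : ℝ) ^ (bi y) ≤ max 1 |y| := by
  unfold bi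
  by_cases h0 : ⌊|y|⌋₊ = 0
  · rw [h0]; simp
  · have h1 := Nat.pow_log_le_self 2 h0
    have h2 : ((2 ^ Nat.log 2 ⌊|y|⌋₊ : ℕ) : ℝ) ≤ (⌊|y|⌋₊ : ℝ) := by exact_mod_cast h1
    have h3 := Nat.floor_le (abs_nonneg y)
    push_cast at h2
    exact le_max_of_le_right (h2.trans h3)

/-- The lattice system. -/
structure Lat (z : G →+ (Fin d → ℝ)) (D : ℝ) : Prop where
  Dpos : 0 < D
  adm : ∀ m, m ≠ 0 → D ≤ ∏ j, |z m j|
  fin : ∀ t : Fin d → ℕ, {m : G | ∀ j, |z m j| < 2 ^ (t j)}.Finite
  card : ∀ t : Fin d → ℕ, ({m : G | ∀ j, |z m j| < 2 ^ (t j)}.ncard : ℝ) ≤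
    2 ^ (∑ j, t j + d) / D + 1

lemma exists_near (k : ℕ) (hk : 1 ≤ k) (x : Fin k × Bool → ℝ) (hx : ∑ q, x q = 0) :
    ∃ P Q : Fin k × Bool, P ≠ Q ∧ |x P| ≤ 2 ^ (2 * k) * |x Q| ∧ |x Q| ≤ |x P| := by
  classical
  have : Nonempty (Fin k × Bool) := ⟨(⟨0, hk⟩, true)⟩
  obtain ⟨P, hP⟩ := Finite.exists_max (fun q => |x q|)
  by_contra hcon
  push Not at hcon
  have h1 : ∀ Q ∈ Finset.univ.erase P, (2 * k : ℝ) * |x Q| < |x P| := by
    intro Q hQ
    have hPQ : P ≠ Q := (Finset.ne_of_mem_erase hQ).symm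
    by_contra hle
    push Not at hle
    have h2 : |x P| ≤ 2 ^ (2 * k) * |x Q| := by
      refine hle.trans (mul_le_mul_of_nonneg_right ?_ (abs_nonneg _))
      have : (2 * k : ℕ) ≤ 2 ^ (2 * k) := (Nat.lt_two_pow_self).le
      exact_mod_cast this
    exact absurd (hP Q) (not_le.2 (hcon P Q hPQ h2))
  have hne : (Finset.univ.erase P : Finset (Fin k × Bool)).Nonempty := by
    refine ⟨(P.1, !P.2), Finset.mem_erase.2 ⟨?_, Finset.mem_univ _⟩⟩
    intro h
    have := congrArg Prod.snd h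
    simp at this
  have h3 : ∑ Q ∈ Finset.univ.erase P, (2 * k : ℝ) * |x Q| <
      ∑ Q ∈ (Finset.univ.erase P : Finset (Fin k × Bool)), |x P| := Finset.sum_lt_sum_of_nonempty hne h1
  rw [Finset.sum_const, nsmul_eq_mul, Finset.card_erase_of_mem (Finset.mem_univ P)] at h3
  have hcard : (Finset.univ : Finset (Fin k × Bool)).card = k * 2 := by simp [Fintype.card_prod]
  rw [hcard] at h3
  have h4 : x P = - ∑ Q ∈ Finset.univ.erase P, x Q := by
    rw [← Finset.add_sum_erase _ _ (Finset.mem_univ P)] at hx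
    linarith
  have h5 : |x P| ≤ ∑ Q ∈ Finset.univ.erase P, |x Q| := by
    rw [h4, abs_neg]
    exact Finset.abs_sum_le_sum_abs _ _
  have h6 : ((k * 2 - 1 : ℕ) : ℝ) = 2 * k - 1 := by
    rw [Nat.cast_sub (by omega)]; push_cast; ring
  rw [h6, ← Finset.mul_sum] at h3
  have hk' : (1 : ℝ) ≤ k := by exact_mod_cast hk
  have h7 : (2 * k : ℝ) * |x P| ≤ 2 * k * ∑ Q ∈ Finset.univ.erase P, |x Q| :=
    mul_le_mul_of_nonneg_left h5 (by positivity)
  have h8 := abs_nonneg (x P)
  nlinarith

lemma near_coord (z : G →+ (Fin d → ℝ)) (Z : Finset G) (j : Fin d) (k : ℕ) (hk : 1 ≤ k) :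
    Near Z (fun m => bi (z m j)) (2 * k) k := by
  intro f _ hsum
  set x : Fin k × Bool → ℝ := fun q => if q.2 then z (f q.1).1 j else - z (f q.1).2 j with hx
  have hx0 : ∑ q, x q = 0 := by
    rw [Fintype.sum_prod_type]
    have : ∀ i, ∑ s, x (i, s) = z ((f i).1 - (f i).2) j := by
      intro i
      rw [Fintype.sum_bool]
      simp [hx]
      ring
    simp_rw [this]
    rw [← Finset.sum_apply, ← map_sum, hsum]
    simp
  obtain ⟨P, Q, hPQ, h1, h2⟩ := exists_near k hk x hx0
  have hb : ∀ q : Fin k × Bool, bi (z (if q.2 then (f q.1).1 else (f q.1).2) j) = bi (x q) := by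
    intro q
    simp only [hx]
    split_ifs
    · rfl
    · rw [bi_neg]
  refine ⟨P, Q, hPQ, ?_, ?_⟩
  · dsimp only
    rw [hb P, hb Q]
    exact bi_near h1
  · dsimp only
    rw [hb P, hb Q]
    exact (bi_mono h2).trans (Nat.le_add_right _ _)

section
variable {X : Type*} [MeasurableSpace X] {μ : Measure X} [IsProbabilityMeasure μ] {χ : G → X → ℂ}
  (h : CharSys μ χ)

include h in
lemma SQ_label_congr {L L' : Type*} [DecidableEq L] [DecidableEq L'] (Z : Finset G) (w : G → ℝ)
    (l : G → L) (l' : G → L') (hl : ∀ m m', l m = l m' ↔ l' m = l' m') (x : X) :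
    SQ χ Z w l (fun _ => True) x = SQ χ Z w l' (fun _ => True) x := by
  have h1 := pairSum_self h Z w l (fun _ => True) x
  have h2 := pairSum_self h Z w l' (fun _ => True) x
  have h3 : pairs Z l = pairs Z l' := by
    unfold pairs
    ext r
    simp only [Finset.mem_filter, hl]
  have h4 : pairSum χ Z w l (fun _ => True) (fun _ => True) x =
      pairSum χ Z w l' (fun _ => True) (fun _ => True) x := by
    unfold pairSum
    rw [h3]
  rw [h1, h2] at h4
  exact_mod_cast h4

/-- the constant in the LP inequality -/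
noncomputable def lpC (k : ℕ) : ℝ := 2 * (2 * ((2 * k) ^ 2 * (2 * (2 * k : ℕ) + 1))) ^ k

lemma lpC_nonneg (k : ℕ) : 0 ≤ lpC k := by unfold lpC; positivity

include h in
/-- the multiparameter positivity Littlewood-Paley inequality -/
theorem lp_chain (z : G →+ (Fin d → ℝ)) (Z : Finset G) (w : G → ℝ) (hw : ∀ g, 0 ≤ w g)
    (k : ℕ) (hk : 1 ≤ k) :
    ∫ x, ‖∑ m ∈ Z, (w m : ℂ) * χ m x‖ ^ (2 * k) ∂μ ≤
      lpC k ^ d * ∫ x, (SQ χ Z w (fun m => fun j : Fin d => bi (z m j)) (fun _ => True) x) ^ k ∂μ := by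
  classical
  set lab : ℕ → G → (Fin d → ℕ) := fun n m i => if i.val < n then bi (z m i) else 0 with hlab
  have key : ∀ n, n ≤ d → ∫ x, ‖∑ m ∈ Z, (w m : ℂ) * χ m x‖ ^ (2 * k) ∂μ ≤
      lpC k ^ n * ∫ x, (SQ χ Z w (lab n) (fun _ => True) x) ^ k ∂μ := by
    intro n
    induction n with
    | zero =>
      intro _
      rw [pow_zero, one_mul]
      refine le_of_eq (integral_congr_ae (Filter.Eventually.of_forall fun x => ?_))
      dsimp only
      rw [pow_mul]
      congr 1
      rcases Z.eq_empty_or_nonempty with hZ | hZ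
      · subst hZ; simp [SQ]
      · have himg : Z.image (lab 0) = {fun _ => 0} := by
          ext t
          simp only [Finset.mem_image, Finset.mem_singleton, hlab]
          constructor
          · rintro ⟨m, _, rfl⟩; funext i; simp
          · rintro rfl
            obtain ⟨m, hm⟩ := hZ
            exact ⟨m, hm, by funext i; simp⟩
        unfold SQ
        rw [himg, Finset.sum_singleton]
        congr 2
        unfold comp
        refine Finset.sum_congr ?_ fun _ _ => rfl
        symm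
        rw [Finset.filter_eq_self]
        intro m _
        exact ⟨by funext i; simp [hlab], trivial⟩
    | succ n ih =>
      intro hn
      refine (ih (by omega)).trans ?_
      rw [pow_succ, mul_assoc]
      refine mul_le_mul_of_nonneg_left ?_ (pow_nonneg (lpC_nonneg k) n)
      have hstep := lp_step h Z w (lab n) hw (fun m => bi (z m ⟨n, by omega⟩)) (2 * k) k hk
        (near_coord z Z ⟨n, by omega⟩ k hk)
      refine hstep.trans (le_of_eq ?_)
      have hint : ∀ x, SQ χ Z w (fun m => (lab n m, bi (z m ⟨n, by omega⟩))) (fun _ => True) x =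
          SQ χ Z w (lab (n + 1)) (fun _ => True) x := by
        intro x
        refine SQ_label_congr h Z w _ _ (fun m m' => ?_) x
        simp only [hlab, Prod.mk.injEq, funext_iff]
        constructor
        · rintro ⟨h1, h2⟩ i
          by_cases hi : i.val < n
          · have := h1 i
            simp only [hi, if_true] at this
            simp [Nat.lt_succ_of_lt hi, this]
          · by_cases hi2 : i.val = n
            · have : i = ⟨n, by omega⟩ := Fin.ext hi2
              rw [this]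
              simp [h2]
            · have : ¬ i.val < n + 1 := by omega
              simp [this]
        · intro h1
          refine ⟨fun i => ?_, ?_⟩
          · by_cases hi : i.val < n
            · have := h1 i
              simp only [Nat.lt_succ_of_lt hi, if_true] at this
              simp [hi, this]
            · simp [hi]
          · have := h1 ⟨n, by omega⟩
            simpa using this
      simp_rw [hint]
      rfl
  refine (key d le_rfl).trans (le_of_eq ?_)
  congr 1
  refine integral_congr_ae (Filter.Eventually.of_forall fun x => ?_)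
  dsimp only
  congr 1
  refine SQ_label_congr h Z w _ _ (fun m m' => ?_) x
  simp only [hlab, funext_iff, Fin.is_lt, if_true]

end

end Pool.Agent.Helper64.Frolov
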