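import Mathlib
import Pool.Agent.Helper64.Frolov.E

open MeasureTheory

namespace Pool.Agent.Helper64.Frolov

set_option linter.unusedSectionVars false

open Finset.Nat (antidiagonalTuple)

/-! ### counting tuples -/

lemma card_antidiag_le (d N : ℕ) (hd : 1 ≤ d) :
    (antidiagonalTuple d N).card ≤ (N + 1) ^ (d - 1) := by
  obtain ⟨e, rfl⟩ : ∃ e, d = e + 1 := ⟨d - 1, by omega⟩
  simp only [Nat.add_sub_cancel]
  have h1 : (Fintype.piFinset (fun _ : Fin e => Finset.range (N + 1))).card = (N + 1) ^ e := by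
    simp
  rw [← h1]
  refine Finset.card_le_card_of_injOn (fun t => Fin.tail t) ?_ ?_
  · intro t ht
    have ht' : ∑ i, t i = N := Finset.Nat.mem_antidiagonalTuple.1 ht
    rw [Finset.mem_coe, Fintype.mem_piFinset]
    intro i
    rw [Finset.mem_range]
    have : Fin.tail t i ≤ ∑ i, t i := by
      unfold Fin.tail
      exact Finset.single_le_sum (f := t) (fun _ _ => Nat.zero_le _) (Finset.mem_univ _)
    dsimp only
    omega
  · intro t ht t' ht' htt
    have ht1 : ∑ i, t i = N := Finset.Nat.mem_antidiagonalTuple.1 ht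
    have ht2 : ∑ i, t' i = N := Finset.Nat.mem_antidiagonalTuple.1 ht'
    rw [Fin.sum_univ_succ] at ht1 ht2
    dsimp only at htt
    have h3 : ∀ i, t (Fin.succ i) = t' (Fin.succ i) := fun i => congrFun htt i
    have h4 : t 0 = t' 0 := by
      simp_rw [h3] at ht1
      omega
    funext i
    refine Fin.cases h4 h3 i

lemma card_antidiag_ge_le (d N : ℕ) (σ : Fin d → ℕ) :
    ((antidiagonalTuple d N).filter (fun t => ∀ j, σ j ≤ t j)).card ≤ (N + 1 - ∑ j, σ j) ^ d := by
  rcases Finset.eq_empty_or_nonempty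
    ((antidiagonalTuple d N).filter (fun t => ∀ j, σ j ≤ t j)) with h0 | ⟨t0, ht0⟩
  · rw [h0]; simp
  have h1 : (Fintype.piFinset (fun _ : Fin d => Finset.range (N + 1 - ∑ j, σ j))).card =
      (N + 1 - ∑ j, σ j) ^ d := by
    simp
  rw [← h1]
  refine Finset.card_le_card_of_injOn (fun t j => t j - σ j) ?_ ?_
  · intro t ht
    rw [Finset.mem_coe, Finset.mem_filter] at ht
    have ht' : ∑ i, t i = N := Finset.Nat.mem_antidiagonalTuple.1 ht.1
    rw [Finset.mem_coe, Fintype.mem_piFinset]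
    intro i
    rw [Finset.mem_range]
    have h2 : ∑ j, (t j - σ j) + ∑ j, σ j = N := by
      rw [← Finset.sum_add_distrib, ← ht']
      exact Finset.sum_congr rfl fun j _ => Nat.sub_add_cancel (ht.2 j)
    have h3 : t i - σ i ≤ ∑ j, (t j - σ j) :=
      Finset.single_le_sum (f := fun j => t j - σ j) (fun _ _ => Nat.zero_le _) (Finset.mem_univ i)
    dsimp only
    omega
  · intro t ht t' ht' htt
    rw [Finset.mem_coe, Finset.mem_filter] at ht ht'
    funext j
    have h2 : t j - σ j = t' j - σ j := congrFun htt j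
    have h3 := ht.2 j
    have h4 := ht'.2 j
    omega

section
variable {G : Type*} [AddCommGroup G] {d : ℕ} {z : G →+ (Fin d → ℝ)} {D : ℝ} (hL : Lat z D)

/-- the box -/
noncomputable def Box (t : Fin d → ℕ) : Finset G := (hL.fin t).toFinset

lemma mem_Box {t : Fin d → ℕ} {m : G} : m ∈ Box hL t ↔ ∀ j, |z m j| < 2 ^ (t j) := by
  simp [Box]

lemma card_Box (t : Fin d → ℕ) : ((Box hL t).card : ℝ) ≤ 2 ^ (∑ j, t j + d) / D + 1 := by
  have := hL.card t
  unfold Box
  rwa [Set.ncard_eq_toFinset_card _ (hL.fin t)] at this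

include hL in
lemma D_le_of_ne_zero {t : Fin d → ℕ} {m : G} (hm : m ≠ 0) (h : ∀ j, |z m j| ≤ 2 ^ (t j)) :
    D ≤ 2 ^ (∑ j, t j) := by
  refine (hL.adm m hm).trans ?_
  rw [← Finset.prod_pow_eq_pow_sum]
  exact Finset.prod_le_prod (fun _ _ => abs_nonneg _) (fun j _ => h j)

lemma card_Box_erase [DecidableEq G] (t : Fin d → ℕ) :
    (((Box hL t).erase 0).card : ℝ) ≤ 2 ^ (d + 1) * (2 ^ (∑ j, t j) / D) := by
  have hD := hL.Dpos
  rcases ((Box hL t).erase 0).eq_empty_or_nonempty with h0 | ⟨m, hm⟩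
  · rw [h0]
    simp only [Finset.card_empty, Nat.cast_zero]
    positivity
  · rw [Finset.mem_erase, mem_Box] at hm
    have h1 : D ≤ 2 ^ (∑ j, t j) := D_le_of_ne_zero hL hm.1 (fun j => (hm.2 j).le)
    have h2 : 1 ≤ 2 ^ (∑ j, t j) / D := by rw [le_div_iff₀ hD]; linarith
    have h3 : (((Box hL t).erase 0).card : ℝ) ≤ (Box hL t).card := by
      exact_mod_cast Finset.card_erase_le
    have h4 := card_Box hL t
    have h5 : (2 : ℝ) ^ (∑ j, t j + d) / D = 2 ^ d * (2 ^ (∑ j, t j) / D) := by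
      rw [pow_add]; ring
    have h6 : (1 : ℝ) ≤ 2 ^ d := one_le_pow₀ (by norm_num)
    rw [h5] at h4
    rw [pow_succ]
    nlinarith

/-- dyadic block of a lattice point -/
noncomputable def sg (z : G →+ (Fin d → ℝ)) (m : G) : Fin d → ℕ := fun j => bi (z m j)

/-- number of tuples -/
noncomputable def wN [DecidableEq G] (N : ℕ) (m : G) : ℝ :=
  (((antidiagonalTuple d N).filter (fun t => m ∈ Box hL t)).card : ℝ)

lemma wN_nonneg [DecidableEq G] (N : ℕ) (m : G) : 0 ≤ wN hL N m := Nat.cast_nonneg _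

lemma wN_zero_le [DecidableEq G] (hd : 1 ≤ d) (N : ℕ) : wN hL N 0 ≤ (N + 1) ^ (d - 1) := by
  unfold wN
  have h1 := (Finset.card_filter_le (antidiagonalTuple d N) (fun t => (0 : G) ∈ Box hL t)).trans
    (card_antidiag_le d N hd)
  exact_mod_cast h1

lemma wN_le [DecidableEq G] (N : ℕ) (m : G) :
    wN hL N m ≤ ((N + 1 - ∑ j, sg z m j : ℕ) : ℝ) ^ d := by
  unfold wN
  have h1 : ((antidiagonalTuple d N).filter (fun t => m ∈ Box hL t)).card ≤
      ((antidiagonalTuple d N).filter (fun t => ∀ j, sg z m j ≤ t j)).card := by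
    refine Finset.card_le_card ?_
    intro t ht
    rw [Finset.mem_filter] at ht ⊢
    refine ⟨ht.1, fun j => bi_le_of_lt' ?_⟩
    exact (mem_Box hL).1 ht.2 j
  have h2 := h1.trans (card_antidiag_ge_le d N (sg z m))
  exact_mod_cast h2

/-- the box polynomial -/
noncomputable def EB (t : Fin d → ℕ) : AddMonoidAlgebra ℝ G :=
  ∑ m ∈ Box hL t, AddMonoidAlgebra.single m 1

/-- the level polynomial -/
noncomputable def EN (N : ℕ) : AddMonoidAlgebra ℝ G := ∑ t ∈ antidiagonalTuple d N, EB hL t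

lemma coeff_EB [DecidableEq G] (t : Fin d → ℕ) (m : G) :
    (EB hL t).coeff m = if m ∈ Box hL t then 1 else 0 := by
  unfold EB
  rw [AddMonoidAlgebra.coeff_sum, Finsupp.finsetSum_apply]
  simp only [AddMonoidAlgebra.coeff_single, Finsupp.single_apply]
  rw [Finset.sum_ite_eq']

lemma coeff_EN [DecidableEq G] (N : ℕ) (m : G) : (EN hL N).coeff m = wN hL N m := by
  unfold EN wN
  rw [AddMonoidAlgebra.coeff_sum, Finsupp.finsetSum_apply]
  simp_rw [coeff_EB hL]
  rw [Finset.card_filter]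
  push_cast
  rfl

/-- the nonzero frequencies at level `N` -/
noncomputable def ZN [DecidableEq G] (N : ℕ) : Finset G :=
  ((antidiagonalTuple d N).biUnion (fun t => Box hL t)).erase 0

lemma wN_eq_zero [DecidableEq G] (N : ℕ) {m : G} (hm0 : m ≠ 0) (hm : m ∉ ZN hL N) :
    wN hL N m = 0 := by
  unfold wN
  rw [Finset.filter_eq_empty_iff.2]
  · simp
  · intro t ht hmt
    exact hm (Finset.mem_erase.2 ⟨hm0, Finset.mem_biUnion.2 ⟨t, ht, hmt⟩⟩)

end

end Pool.Agent.Helper64.Frolov
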