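import Mathlib
import Pool.Agent.Helper64.Frolov.F

open MeasureTheory

namespace Pool.Agent.Helper64.Frolov

set_option linter.unusedSectionVars false

open Finset.Nat (antidiagonalTuple)

section
variable {G : Type*} [AddCommGroup G]

/-- weighted sum of monomials -/
noncomputable def Pc (S : Finset G) (c : G → ℝ) : AddMonoidAlgebra ℝ G :=
  ∑ m ∈ S, AddMonoidAlgebra.single m (c m)

/-- weighted sum of inverse monomials -/
noncomputable def Pcs (S : Finset G) (c : G → ℝ) : AddMonoidAlgebra ℝ G :=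
  ∑ m ∈ S, AddMonoidAlgebra.single (-m) (c m)

lemma coeff_Pc_mul_Pcs [DecidableEq G] (S : Finset G) (c : G → ℝ) (μ : G) :
    (Pc S c * Pcs S c).coeff μ = ∑ m ∈ S, ∑ m' ∈ S, if m' = m - μ then c m * c m' else 0 := by
  unfold Pc Pcs
  rw [Finset.sum_mul_sum, AddMonoidAlgebra.coeff_sum, Finsupp.finsetSum_apply]
  refine Finset.sum_congr rfl fun m _ => ?_
  rw [AddMonoidAlgebra.coeff_sum, Finsupp.finsetSum_apply]
  refine Finset.sum_congr rfl fun m' _ => ?_
  rw [AddMonoidAlgebra.single_mul_single, AddMonoidAlgebra.coeff_single, Finsupp.single_apply]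
  by_cases h1 : m' = m - μ
  · rw [if_pos h1, if_pos]
    rw [h1]; abel
  · rw [if_neg h1, if_neg]
    intro h2
    apply h1
    rw [← h2]; abel

lemma NN_single {m : G} {a : ℝ} (ha : 0 ≤ a) : NN (AddMonoidAlgebra.single m a) := by
  classical
  intro g
  rw [AddMonoidAlgebra.coeff_single, Finsupp.single_apply]
  split_ifs
  · exact ha
  · exact le_rfl

lemma NN_sum {ι : Type*} {s : Finset ι} {P : ι → AddMonoidAlgebra ℝ G} (h : ∀ i ∈ s, NN (P i)) :
    NN (∑ i ∈ s, P i) := by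
  intro g
  rw [AddMonoidAlgebra.coeff_sum, Finsupp.finsetSum_apply]
  exact Finset.sum_nonneg fun i hi => h i hi g

lemma NN_Pc {S : Finset G} {c : G → ℝ} (hc : ∀ m ∈ S, 0 ≤ c m) : NN (Pc S c) :=
  NN_sum fun m hm => NN_single (hc m hm)

lemma NN_Pcs {S : Finset G} {c : G → ℝ} (hc : ∀ m ∈ S, 0 ≤ c m) : NN (Pcs S c) :=
  NN_sum fun m hm => NN_single (hc m hm)

lemma Dom_sum {ι : Type*} {s : Finset ι} {P Q : ι → AddMonoidAlgebra ℝ G}
    (h : ∀ i ∈ s, Dom (P i) (Q i)) : Dom (∑ i ∈ s, P i) (∑ i ∈ s, Q i) := by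
  intro g
  rw [AddMonoidAlgebra.coeff_sum, Finsupp.finsetSum_apply, AddMonoidAlgebra.coeff_sum,
    Finsupp.finsetSum_apply]
  exact Finset.sum_le_sum fun i hi => h i hi g

lemma Dom.trans {P Q R : AddMonoidAlgebra ℝ G} (h1 : Dom P Q) (h2 : Dom Q R) : Dom P R :=
  fun g => (h1 g).trans (h2 g)

section
variable {X : Type*} [MeasurableSpace X] {μ : Measure X} {χ : G → X → ℂ} (h : CharSys μ χ)

lemma ev_Pc (S : Finset G) (c : G → ℝ) (x : X) : ev h (Pc S c) x = ∑ m ∈ S, (c m : ℂ) * χ m x := by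
  unfold Pc
  rw [ev_sum]
  exact Finset.sum_congr rfl fun m _ => ev_single h m (c m) x

lemma ev_Pcs (S : Finset G) (c : G → ℝ) (x : X) :
    ev h (Pcs S c) x = (starRingEnd ℂ) (∑ m ∈ S, (c m : ℂ) * χ m x) := by
  unfold Pcs
  rw [ev_sum, map_sum]
  refine Finset.sum_congr rfl fun m _ => ?_
  rw [ev_single, h.neg]
  simp

lemma ev_Pc_mul_Pcs (S : Finset G) (c : G → ℝ) (x : X) :
    ev h (Pc S c * Pcs S c) x = ((‖∑ m ∈ S, (c m : ℂ) * χ m x‖ ^ 2 : ℝ) : ℂ) := by
  rw [ev_mul, ev_Pc, ev_Pcs, Complex.mul_conj, Complex.normSq_eq_norm_sq]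

end
end

section
variable {G : Type*} [AddCommGroup G] {d : ℕ} {z : G →+ (Fin d → ℝ)} {D : ℝ} (hL : Lat z D)

lemma NN_EB (t : Fin d → ℕ) : NN (EB hL t) := NN_sum fun _ _ => NN_single zero_le_one

lemma NN_EN (N : ℕ) : NN (EN hL N) := NN_sum fun _ _ => NN_EB hL _

/-- basic domination of a block -/
lemma dom_block [DecidableEq G] (S : Finset G) (c : G → ℝ) (u : ℝ) (t : Fin d → ℕ)
    (hS : S ⊆ (Box hL t).erase 0) (hc : ∀ m ∈ S, 0 ≤ c m ∧ c m ≤ u) :
    Dom (Pc S c * Pcs S c)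
      ((u ^ 2 * (2 ^ (d + 1) * (2 ^ (∑ j, t j) / D))) • EB hL (fun j => t j + 1)) := by
  have hD := hL.Dpos
  intro μ
  rw [coeff_Pc_mul_Pcs, AddMonoidAlgebra.coeff_smul_apply, coeff_EB, smul_eq_mul]
  by_cases hμ : μ ∈ Box hL (fun j => t j + 1)
  · rw [if_pos hμ, mul_one]
    have h1 : ∀ m ∈ S, (∑ m' ∈ S, if m' = m - μ then c m * c m' else 0) ≤ u ^ 2 := by
      intro m hm
      rw [Finset.sum_ite_eq']
      split_ifs with h2
      · have a1 := hc m hm
        have a2 := hc _ h2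
        nlinarith [a1.1, a1.2, a2.1, a2.2]
      · positivity
    refine (Finset.sum_le_sum h1).trans ?_
    rw [Finset.sum_const, nsmul_eq_mul, mul_comm]
    refine mul_le_mul_of_nonneg_left ?_ (by positivity)
    refine le_trans ?_ (card_Box_erase hL t)
    exact_mod_cast Finset.card_le_card hS
  · rw [if_neg hμ, mul_zero]
    refine le_of_eq (Finset.sum_eq_zero fun m hm => Finset.sum_eq_zero fun m' hm' => ?_)
    rw [if_neg]
    intro h2
    apply hμ
    rw [mem_Box]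
    intro j
    have h3 : μ = m - m' := by rw [h2]; abel
    rw [h3, map_sub, Pi.sub_apply, pow_succ]
    have h4 := (mem_Box hL).1 (Finset.mem_of_mem_erase (hS hm)) j
    have h5 := (mem_Box hL).1 (Finset.mem_of_mem_erase (hS hm')) j
    have h6 := abs_sub (z m j) (z m' j)
    calc |z m j - z m' j| ≤ |z m j| + |z m' j| := h6
      _ < 2 ^ t j + 2 ^ t j := add_lt_add h4 h5
      _ = 2 ^ t j * 2 := by ring

lemma dom_levels [DecidableEq G] (𝒮 : Finset (Fin d → ℕ)) (a : ℕ → ℝ) (ha : ∀ n, 0 ≤ a n) (κ : ℕ)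
    (I : Finset ℕ) (hI : ∀ σ ∈ 𝒮, ∑ j, σ j ∈ I) :
    Dom (∑ σ ∈ 𝒮, a (∑ j, σ j) • EB hL (fun j => σ j + κ))
      (∑ n ∈ I, a n • EN hL (n + κ * d)) := by
  intro μ
  rw [AddMonoidAlgebra.coeff_sum, Finsupp.finsetSum_apply, AddMonoidAlgebra.coeff_sum,
    Finsupp.finsetSum_apply]
  rw [← Finset.sum_fiberwise_of_maps_to hI]
  refine Finset.sum_le_sum fun n _ => ?_
  rw [AddMonoidAlgebra.coeff_smul_apply, coeff_EN, smul_eq_mul]
  have h1 : ∀ σ ∈ 𝒮.filter (fun σ => ∑ j, σ j = n),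
      (a (∑ j, σ j) • EB hL (fun j => σ j + κ)).coeff μ =
        a n * (if μ ∈ Box hL (fun j => σ j + κ) then 1 else 0) := by
    intro σ hσ
    rw [AddMonoidAlgebra.coeff_smul_apply, coeff_EB, smul_eq_mul, (Finset.mem_filter.1 hσ).2]
  rw [Finset.sum_congr rfl h1, ← Finset.mul_sum]
  refine mul_le_mul_of_nonneg_left ?_ (ha n)
  rw [← Finset.sum_filter, Finset.sum_const, nsmul_eq_mul, mul_one]
  unfold wN
  norm_cast
  refine Finset.card_le_card_of_injOn (fun σ j => σ j + κ) ?_ ?_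
  · intro σ hσ
    rw [Finset.mem_coe, Finset.mem_filter, Finset.mem_filter] at hσ
    rw [Finset.mem_coe, Finset.mem_filter]
    refine ⟨?_, hσ.2⟩
    rw [Finset.Nat.mem_antidiagonalTuple, Finset.sum_add_distrib, hσ.1.2]
    simp [mul_comm]
  · intro σ _ σ' _ h2
    funext j
    have := congrFun h2 j
    dsimp only at this
    omega

end

end Pool.Agent.Helper64.Frolov
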