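import Mathlib
import Pool.Agent.Helper64.Frolov.M

open MeasureTheory

namespace Pool.Agent.Helper64.Frolov

set_option linter.unusedSectionVars false

open Finset.Nat (antidiagonalTuple)

lemma exists_geom_const (e : ℕ) : ∃ S : ℝ, 1 ≤ S ∧ ∀ N : ℕ,
    ∑ n ∈ Finset.range (N + 1), ((N + 1 - n : ℕ) : ℝ) ^ e * 2 ^ n ≤ S * 2 ^ N := by
  have hs : Summable (fun u : ℕ => ((u : ℝ)) ^ e * (1 / 2 : ℝ) ^ u) :=
    summable_pow_mul_geometric_of_norm_lt_one e (by norm_num)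
  have hs2 : Summable (fun u : ℕ => ((u + 1 : ℕ) : ℝ) ^ e * (1 / 2 : ℝ) ^ u) := by
    have h1 := (summable_nat_add_iff 1).2 hs
    have h2 := h1.mul_right 2
    refine h2.congr fun u => ?_
    rw [pow_succ]; ring
  refine ⟨max 1 (∑' u : ℕ, ((u + 1 : ℕ) : ℝ) ^ e * (1 / 2 : ℝ) ^ u), le_max_left _ _, fun N => ?_⟩
  refine le_trans ?_ (mul_le_mul_of_nonneg_right (le_max_right _ _) (by positivity))
  rw [← Finset.sum_range_reflect]
  have h1 : ∀ u ∈ Finset.range (N + 1),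
      ((N + 1 - (N + 1 - 1 - u) : ℕ) : ℝ) ^ e * 2 ^ (N + 1 - 1 - u) =
      (((u + 1 : ℕ) : ℝ) ^ e * (1 / 2 : ℝ) ^ u) * 2 ^ N := by
    intro u hu
    rw [Finset.mem_range] at hu
    have h2 : N + 1 - (N + 1 - 1 - u) = u + 1 := by omega
    rw [h2]
    have h3 : (2 : ℝ) ^ N = 2 ^ (N + 1 - 1 - u) * 2 ^ u := by
      rw [← pow_add]; congr 1; omega
    rw [h3, one_div, inv_pow]
    field_simp
  rw [Finset.sum_congr rfl h1, ← Finset.sum_mul]
  refine mul_le_mul_of_nonneg_right ?_ (by positivity)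
  exact hs2.sum_le_tsum _ (fun _ _ => by positivity)

section
variable {G : Type*} [AddCommGroup G] {d : ℕ} {z : G →+ (Fin d → ℝ)} {D : ℝ} (hL : Lat z D)
variable {X : Type*} [MeasurableSpace X] {μ : Measure X} [IsProbabilityMeasure μ] {χ : G → X → ℂ}
  (h : CharSys μ χ)

lemma sum_sg_le_of_mem_ZN [DecidableEq G] {N : ℕ} {m : G} (hm : m ∈ ZN hL N) :
    ∑ j, sg z m j ≤ N := by
  unfold ZN at hm
  rw [Finset.mem_erase, Finset.mem_biUnion] at hm
  obtain ⟨_, t, ht, hmt⟩ := hm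
  rw [← Finset.Nat.mem_antidiagonalTuple.1 ht]
  exact Finset.sum_le_sum fun j _ => bi_le_of_lt' ((mem_Box hL).1 hmt j)

/-- coefficients of the dominating polynomial -/
noncomputable def aN (d N : ℕ) (D : ℝ) (n : ℕ) : ℝ :=
  (((N + 1 - n : ℕ) : ℝ) ^ d) ^ 2 * (2 ^ (d + 1) * (2 ^ (n + d) / D))

lemma aN_nonneg (d N : ℕ) {D : ℝ} (hD : 0 < D) (n : ℕ) : 0 ≤ aN d N D n := by
  unfold aN; positivity

/-- the square function polynomial -/
noncomputable def TN [DecidableEq G] (N : ℕ) : AddMonoidAlgebra ℝ G :=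
  ∑ σ ∈ (ZN hL N).image (sg z),
    Pc ((ZN hL N).filter (fun m => sg z m = σ)) (wN hL N) *
      Pcs ((ZN hL N).filter (fun m => sg z m = σ)) (wN hL N)

lemma NN_TN [DecidableEq G] (N : ℕ) : NN (TN hL N) :=
  NN_sum fun _ _ => (NN_Pc fun _ _ => wN_nonneg hL N _).mul (NN_Pcs fun _ _ => wN_nonneg hL N _)

lemma ev_TN [DecidableEq G] (N : ℕ) (x : X) :
    ev h (TN hL N) x = (SQ χ (ZN hL N) (wN hL N) (sg z) (fun _ => True) x : ℂ) := by
  unfold TN SQ
  rw [ev_sum]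
  push_cast
  refine Finset.sum_congr rfl fun σ _ => ?_
  rw [ev_Pc_mul_Pcs]
  unfold comp
  push_cast
  simp only [and_true]

lemma dom_TN [DecidableEq G] (N : ℕ) :
    Dom (TN hL N) (∑ n ∈ Finset.range (N + 1), aN d N D n • EN hL (n + 2 * d)) := by
  have hD := hL.Dpos
  refine Dom.trans ?_ (dom_levels hL ((ZN hL N).image (sg z)) (aN d N D)
    (aN_nonneg d N hD) 2 (Finset.range (N + 1)) ?_)
  · unfold TN
    refine Dom_sum fun σ _ => ?_
    have h1 := dom_block hL ((ZN hL N).filter (fun m => sg z m = σ)) (wN hL N)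
      (((N + 1 - ∑ j, σ j : ℕ) : ℝ) ^ d) (fun j => σ j + 1) ?_ ?_
    · convert h1 using 3
      unfold aN
      rw [Finset.sum_add_distrib]
      simp
    · intro m hm
      rw [Finset.mem_filter] at hm
      rw [Finset.mem_erase, mem_Box]
      refine ⟨Finset.ne_of_mem_erase hm.1, fun j => ?_⟩
      rw [← hm.2]
      exact lt_two_pow_bi _
    · intro m hm
      rw [Finset.mem_filter] at hm
      refine ⟨wN_nonneg hL N m, ?_⟩
      have := wN_le hL N m
      rwa [hm.2] at this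
  · intro σ hσ
    rw [Finset.mem_image] at hσ
    obtain ⟨m, hm, rfl⟩ := hσ
    rw [Finset.mem_range]
    exact Nat.lt_succ_of_le (sum_sg_le_of_mem_ZN hL hm)

lemma sum_aN_le (d N : ℕ) {D : ℝ} (hD : 0 < D) {S : ℝ}
    (hS : ∀ N : ℕ, ∑ n ∈ Finset.range (N + 1), ((N + 1 - n : ℕ) : ℝ) ^ (2 * d) * 2 ^ n ≤ S * 2 ^ N) :
    ∑ n ∈ Finset.range (N + 1), aN d N D n ≤ 2 ^ (2 * d + 1) * S * (2 ^ N / D) := by
  have h1 : ∀ n, aN d N D n = (2 ^ (2 * d + 1) / D) * (((N + 1 - n : ℕ) : ℝ) ^ (2 * d) * 2 ^ n) := by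
    intro n
    unfold aN
    rw [pow_add 2 n d, mul_comm 2 d, pow_mul]
    ring
  simp_rw [h1]
  rw [← Finset.mul_sum]
  calc 2 ^ (2 * d + 1) / D * ∑ n ∈ Finset.range (N + 1), ((N + 1 - n : ℕ) : ℝ) ^ (2 * d) * 2 ^ n
      ≤ 2 ^ (2 * d + 1) / D * (S * 2 ^ N) := mul_le_mul_of_nonneg_left (hS N) (by positivity)
    _ = _ := by ring

lemma sum_aN_pos (N : ℕ) {D : ℝ} (hD : 0 < D) :
    0 < ∑ n ∈ Finset.range (N + 1), aN d N D n := by
  refine Finset.sum_pos (fun n hn => ?_) ⟨0, by simp⟩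
  unfold aN
  rw [Finset.mem_range] at hn
  have : (0 : ℝ) < ((N + 1 - n : ℕ) : ℝ) := by
    exact_mod_cast (by omega : 0 < N + 1 - n)
  positivity

/-- general domination to integral inequality -/
lemma coeff_pow_le [DecidableEq G] {T : AddMonoidAlgebra ℝ G} (hT : NN T) (I : Finset ℕ)
    (a : ℕ → ℝ) (ha : ∀ n, 0 ≤ a n) (c : ℕ → ℕ) (hdom : Dom T (∑ n ∈ I, a n • EN hL (c n)))
    (k : ℕ) (W M : ℝ) (hW : ∑ n ∈ I, a n ≤ W) (hM : 0 ≤ M)
    (hyp : ∀ n ∈ I, ∫ x, ‖ev h (EN hL (c n)) x‖ ^ k ∂μ ≤ M ^ k) :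
    (T ^ k).coeff 0 ≤ (W * M) ^ k := by
  have ha' : 0 ≤ ∑ n ∈ I, a n := Finset.sum_nonneg fun n _ => ha n
  have hW0 : 0 ≤ W := ha'.trans hW
  set Q := ∑ n ∈ I, a n • EN hL (c n) with hQ
  have h1 : (T ^ k).coeff 0 ≤ (Q ^ k).coeff 0 := Dom.pow hT hdom k 0
  refine h1.trans ?_
  have h2 : ((Q ^ k).coeff 0 : ℂ) = ∫ x, ev h Q x ^ k ∂μ := by
    rw [← integral_ev h (Q ^ k)]
    simp_rw [ev_pow]
  have h3 : (Q ^ k).coeff 0 ≤ ∫ x, ‖ev h Q x‖ ^ k ∂μ := by
    have h4 : (Q ^ k).coeff 0 ≤ ‖((Q ^ k).coeff 0 : ℂ)‖ := by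
      rw [Complex.norm_real]; exact le_abs_self _
    refine h4.trans ?_
    rw [h2]
    refine (norm_integral_le_integral_norm _).trans (le_of_eq ?_)
    simp_rw [norm_pow]
  refine h3.trans ?_
  -- pointwise bound
  have intE : ∀ n, Integrable (fun x => ‖ev h (EN hL (c n)) x‖ ^ k) μ := by
    intro n
    refine integrable_of_bdd_meas h (((meas_ev h _).norm).pow_const k)
      ((∑ g ∈ (EN hL (c n)).coeff.support, |(EN hL (c n)).coeff g|) ^ k) ?_
    intro x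
    rw [abs_of_nonneg (by positivity)]
    exact pow_le_pow_left₀ (norm_nonneg _) (ev_bound h _ x) k
  rcases eq_or_lt_of_le ha' with h0 | hpos
  · -- all weights vanish
    have hz : ∀ n ∈ I, a n = 0 := (Finset.sum_eq_zero_iff_of_nonneg fun n _ => ha n).1 h0.symm
    have hQ0 : Q = 0 := by
      rw [hQ]; exact Finset.sum_eq_zero fun n hn => by rw [hz n hn, zero_smul]
    rw [hQ0]
    have : ∀ x, ev h (0 : AddMonoidAlgebra ℝ G) x = 0 := fun x => by simp [ev]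
    simp_rw [this, norm_zero]
    rcases Nat.eq_zero_or_pos k with hk | hk
    · subst hk; simp
    · rw [zero_pow hk.ne']
      simp only [integral_zero]
      positivity
  · set A := ∑ n ∈ I, a n with hA
    have hpt : ∀ x, ‖ev h Q x‖ ^ k ≤ A ^ k * ∑ n ∈ I, (a n / A) * ‖ev h (EN hL (c n)) x‖ ^ k := by
      intro x
      have h5 : ‖ev h Q x‖ ≤ A * ∑ n ∈ I, (a n / A) * ‖ev h (EN hL (c n)) x‖ := by
        rw [Finset.mul_sum, hQ, ev_sum]
        refine (norm_sum_le _ _).trans (Finset.sum_le_sum fun n _ => ?_)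
        rw [ev_smul, norm_mul, Complex.norm_real, Real.norm_of_nonneg (ha n)]
        field_simp
        exact le_rfl
      calc ‖ev h Q x‖ ^ k ≤ (A * ∑ n ∈ I, (a n / A) * ‖ev h (EN hL (c n)) x‖) ^ k :=
            pow_le_pow_left₀ (norm_nonneg _) h5 k
        _ = A ^ k * (∑ n ∈ I, (a n / A) * ‖ev h (EN hL (c n)) x‖) ^ k := mul_pow _ _ _
        _ ≤ _ := by
          refine mul_le_mul_of_nonneg_left ?_ (by positivity)
          refine Real.pow_arith_mean_le_arith_mean_pow I _ _ (fun n _ => div_nonneg (ha n) ha') ?_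
            (fun _ _ => norm_nonneg _) k
          rw [← Finset.sum_div]
          exact div_self hpos.ne'
    have h6 : ∫ x, ‖ev h Q x‖ ^ k ∂μ ≤ A ^ k * ∑ n ∈ I, (a n / A) * M ^ k := by
      calc ∫ x, ‖ev h Q x‖ ^ k ∂μ
          ≤ ∫ x, A ^ k * ∑ n ∈ I, (a n / A) * ‖ev h (EN hL (c n)) x‖ ^ k ∂μ := by
            refine integral_mono_of_nonneg (Filter.Eventually.of_forall fun x => by
              dsimp only [Pi.zero_apply]; positivity) ?_ (Filter.Eventually.of_forall hpt)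
            exact (integrable_finsetSum _ fun n _ => (intE n).const_mul _).const_mul _
        _ = A ^ k * ∑ n ∈ I, (a n / A) * ∫ x, ‖ev h (EN hL (c n)) x‖ ^ k ∂μ := by
            rw [integral_const_mul, integral_finsetSum _ fun n _ => (intE n).const_mul _]
            simp_rw [integral_const_mul]
        _ ≤ _ := by
            refine mul_le_mul_of_nonneg_left ?_ (by positivity)
            refine Finset.sum_le_sum fun n hn => ?_
            exact mul_le_mul_of_nonneg_left (hyp n hn) (div_nonneg (ha n) ha')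
    refine h6.trans ?_
    rw [← Finset.sum_mul, ← Finset.sum_div, div_self hpos.ne', one_mul, ← mul_pow]
    refine pow_le_pow_left₀ (by positivity) ?_ k
    exact mul_le_mul_of_nonneg_right hW hM

include h in
lemma integral_SQ_pow [DecidableEq G] (N k : ℕ) :
    ∫ x, (SQ χ (ZN hL N) (wN hL N) (sg z) (fun _ => True) x) ^ k ∂μ = ((TN hL N) ^ k).coeff 0 := by
  have h1 := integral_ev h ((TN hL N) ^ k)
  simp_rw [ev_pow, ev_TN hL h] at h1
  have h2 : ∀ x, ((SQ χ (ZN hL N) (wN hL N) (sg z) (fun _ => True) x : ℝ) : ℂ) ^ k =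
      (((SQ χ (ZN hL N) (wN hL N) (sg z) (fun _ => True) x) ^ k : ℝ) : ℂ) := by
    intro x; push_cast; rfl
  simp_rw [h2] at h1
  rw [integral_complex_ofReal] at h1
  exact_mod_cast h1

lemma ev_EN_eq [DecidableEq G] (N : ℕ) (x : X) :
    ev h (EN hL N) x = (wN hL N 0 : ℂ) + ∑ m ∈ ZN hL N, (wN hL N m : ℂ) * χ m x := by
  rw [ev_eq_sum]
  simp_rw [coeff_EN hL]
  have hsub : (EN hL N).coeff.support ⊆ insert 0 (ZN hL N) := by
    intro m hm
    rw [Finsupp.mem_support_iff, coeff_EN] at hm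
    rw [Finset.mem_insert]
    by_contra hcon
    push Not at hcon
    exact hm (wN_eq_zero hL N hcon.1 hcon.2)
  rw [Finset.sum_subset hsub]
  · rw [Finset.sum_insert (by simp [ZN]), h.zero, mul_one]
  · intro m _ hm
    rw [Finsupp.notMem_support_iff, coeff_EN] at hm
    rw [hm]; simp

include h in
lemma R_of_Q [DecidableEq G] (hd : 1 ≤ d) (N k : ℕ) (hk : 1 ≤ k) :
    ∫ x, ‖ev h (EN hL N) x‖ ^ (2 * k) ∂μ ≤
      2 ^ (2 * k) * ((((N : ℝ) + 1) ^ (d - 1)) ^ (2 * k) + lpC k ^ d *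
        ∫ x, (SQ χ (ZN hL N) (wN hL N) (sg z) (fun _ => True) x) ^ k ∂μ) := by
  have h1 := lp_chain h z (ZN hL N) (wN hL N) (wN_nonneg hL N) k hk
  have hbF : ∀ x, ‖∑ m ∈ ZN hL N, (wN hL N m : ℂ) * χ m x‖ ≤ ∑ m ∈ ZN hL N, wN hL N m := by
    intro x
    refine (norm_sum_le _ _).trans (Finset.sum_le_sum fun m _ => ?_)
    rw [norm_mul, norm_chi h, mul_one, Complex.norm_real, Real.norm_of_nonneg (wN_nonneg hL N m)]
  have mF : Measurable (fun x => ∑ m ∈ ZN hL N, (wN hL N m : ℂ) * χ m x) :=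
    Finset.measurable_sum _ fun g _ => (h.meas g).const_mul _
  have intF : Integrable (fun x => ‖∑ m ∈ ZN hL N, (wN hL N m : ℂ) * χ m x‖ ^ (2 * k)) μ := by
    refine integrable_of_bdd_meas h (mF.norm.pow_const _) ((∑ m ∈ ZN hL N, wN hL N m) ^ (2 * k)) ?_
    intro x
    rw [abs_of_nonneg (by positivity)]
    exact pow_le_pow_left₀ (norm_nonneg _) (hbF x) _
  have hpt : ∀ x, ‖ev h (EN hL N) x‖ ^ (2 * k) ≤ 2 ^ (2 * k) * ((((N : ℝ) + 1) ^ (d - 1)) ^ (2 * k) +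
      ‖∑ m ∈ ZN hL N, (wN hL N m : ℂ) * χ m x‖ ^ (2 * k)) := by
    intro x
    have h2 : ‖ev h (EN hL N) x‖ ≤ ((N : ℝ) + 1) ^ (d - 1) +
        ‖∑ m ∈ ZN hL N, (wN hL N m : ℂ) * χ m x‖ := by
      rw [ev_EN_eq]
      refine (norm_add_le _ _).trans (add_le_add ?_ le_rfl)
      rw [Complex.norm_real, Real.norm_of_nonneg (wN_nonneg hL N 0)]
      exact wN_zero_le hL hd N
    refine (pow_le_pow_left₀ (norm_nonneg _) h2 _).trans ?_
    refine (add_pow_le (by positivity) (norm_nonneg _) _).trans ?_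
    refine mul_le_mul_of_nonneg_right ?_ (by positivity)
    exact pow_le_pow_right₀ (by norm_num) (Nat.sub_le _ _)
  calc ∫ x, ‖ev h (EN hL N) x‖ ^ (2 * k) ∂μ
      ≤ ∫ x, 2 ^ (2 * k) * ((((N : ℝ) + 1) ^ (d - 1)) ^ (2 * k) +
        ‖∑ m ∈ ZN hL N, (wN hL N m : ℂ) * χ m x‖ ^ (2 * k)) ∂μ := by
        refine integral_mono_of_nonneg (Filter.Eventually.of_forall fun x => by
          dsimp only [Pi.zero_apply]; positivity) ?_ (Filter.Eventually.of_forall hpt)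
        exact ((integrable_const _).add intF).const_mul _
    _ = 2 ^ (2 * k) * ((((N : ℝ) + 1) ^ (d - 1)) ^ (2 * k) +
        ∫ x, ‖∑ m ∈ ZN hL N, (wN hL N m : ℂ) * χ m x‖ ^ (2 * k) ∂μ) := by
        rw [integral_const_mul, integral_add (integrable_const _) intF]
        simp
    _ ≤ _ := by
        refine mul_le_mul_of_nonneg_left ?_ (by positivity)
        refine add_le_add le_rfl ?_
        exact h1

end

end Pool.Agent.Helper64.Frolov
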