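import Mathlib
import Pool.Agent.Helper64.Frolov.N

open MeasureTheory

namespace Pool.Agent.Helper64.Frolov

set_option linter.unusedSectionVars false

open Finset.Nat (antidiagonalTuple)

section
variable {G : Type*} [AddCommGroup G] {d : ℕ}
variable {X : Type*} [MeasurableSpace X] {μ : Measure X} [IsProbabilityMeasure μ] {χ : G → X → ℂ}
  (h : CharSys μ χ)

/-- the size of level `N` -/
noncomputable def Bd (d N : ℕ) (D : ℝ) : ℝ := ((N : ℝ) + 1) ^ (d - 1) + 2 ^ N / D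

lemma Bd_nonneg (d N : ℕ) {D : ℝ} (hD : 0 < D) : 0 ≤ Bd d N D := by unfold Bd; positivity

/-- growth constant -/
noncomputable def Kd (d s : ℕ) : ℝ := ((s : ℝ) + 1) ^ (d - 1) + 2 ^ s

lemma Bd_shift (d N n s : ℕ) {D : ℝ} (hD : 0 < D) (hn : n ≤ N) :
    Bd d (n + s) D ≤ Kd d s * Bd d N D := by
  unfold Bd Kd
  have h1 : (((n + s : ℕ) : ℝ) + 1) ≤ ((s : ℝ) + 1) * ((N : ℝ) + 1) := by
    have : (n : ℝ) ≤ N := by exact_mod_cast hn
    push_cast
    nlinarith [Nat.cast_nonneg (α := ℝ) s, Nat.cast_nonneg (α := ℝ) N]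
  have h2 : (((n + s : ℕ) : ℝ) + 1) ^ (d - 1) ≤ ((s : ℝ) + 1) ^ (d - 1) * ((N : ℝ) + 1) ^ (d - 1) := by
    rw [← mul_pow]
    exact pow_le_pow_left₀ (by positivity) h1 _
  have h3 : (2 : ℝ) ^ (n + s) / D ≤ 2 ^ s * (2 ^ N / D) := by
    rw [pow_add, mul_comm, mul_div_assoc]
    refine mul_le_mul_of_nonneg_left ?_ (by positivity)
    exact div_le_div_of_nonneg_right (pow_le_pow_right₀ (by norm_num) hn) hD.le
  have h4 : 0 ≤ ((s : ℝ) + 1) ^ (d - 1) * (2 ^ N / D) := by positivity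
  have h5 : 0 ≤ (2 : ℝ) ^ s * ((N : ℝ) + 1) ^ (d - 1) := by positivity
  calc (((n + s : ℕ) : ℝ) + 1) ^ (d - 1) + 2 ^ (n + s) / D
      ≤ ((s : ℝ) + 1) ^ (d - 1) * ((N : ℝ) + 1) ^ (d - 1) + 2 ^ s * (2 ^ N / D) := add_le_add h2 h3
    _ ≤ _ := by nlinarith

include h in
/-- the moment lemma -/
theorem moment (hd : 1 ≤ d) (i : ℕ) : ∃ C : ℝ, 1 ≤ C ∧ ∀ (z : G →+ (Fin d → ℝ)) (D : ℝ)
    (hL : Lat z D) (N : ℕ),
    ∫ x, ‖ev h (EN hL N) x‖ ^ (2 ^ (i + 1)) ∂μ ≤ (C * Bd d N D) ^ (2 ^ (i + 1)) := by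
  classical
  obtain ⟨S, hS1, hS⟩ := exists_geom_const (2 * d)
  set cW : ℝ := 2 ^ (2 * d + 1) * S with hcW
  have hcW1 : 1 ≤ cW := by
    have : (1 : ℝ) ≤ 2 ^ (2 * d + 1) := one_le_pow₀ (by norm_num)
    nlinarith
  have hK : 1 ≤ Kd d (2 * d) := by
    unfold Kd
    have : (1 : ℝ) ≤ 2 ^ (2 * d) := one_le_pow₀ (by norm_num)
    have : (0 : ℝ) ≤ (((2 * d : ℕ) : ℝ) + 1) ^ (d - 1) := by positivity
    linarith
  induction i with
  | zero =>
    refine ⟨2 * (1 + lpC 1 ^ d * (cW * Kd d (2 * d))), ?_, ?_⟩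
    · have : 0 ≤ lpC 1 ^ d * (cW * Kd d (2 * d)) := by
        have := lpC_nonneg 1
        positivity
      linarith
    intro z D hL N
    have hD := hL.Dpos
    have hB := Bd_nonneg d N hD
    have h1 := R_of_Q hL h hd N 1 le_rfl
    have h2 : ∫ x, (SQ χ (ZN hL N) (wN hL N) (sg z) (fun _ => True) x) ^ 1 ∂μ ≤
        (cW * (2 ^ N / D)) * (Kd d (2 * d) * Bd d N D) := by
      rw [integral_SQ_pow hL h, pow_one]
      refine (dom_TN hL N 0).trans ?_
      rw [AddMonoidAlgebra.coeff_sum, Finsupp.finsetSum_apply]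
      have h3 : ∀ n ∈ Finset.range (N + 1), (aN d N D n • EN hL (n + 2 * d)).coeff 0 ≤
          aN d N D n * (Kd d (2 * d) * Bd d N D) := by
        intro n hn
        rw [Finset.mem_range] at hn
        rw [AddMonoidAlgebra.coeff_smul_apply, coeff_EN, smul_eq_mul]
        refine mul_le_mul_of_nonneg_left ?_ (aN_nonneg d N hD n)
        refine (wN_zero_le hL hd _).trans ?_
        refine le_trans ?_ (Bd_shift d N n (2 * d) hD (by omega))
        unfold Bd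
        push_cast
        have : (0 : ℝ) ≤ 2 ^ (n + 2 * d) / D := by positivity
        linarith
      refine (Finset.sum_le_sum h3).trans ?_
      rw [← Finset.sum_mul]
      refine mul_le_mul_of_nonneg_right (sum_aN_le d N hD hS) (by positivity)
    have h4 : (2 : ℝ) ^ N / D ≤ Bd d N D := by
      unfold Bd
      have : (0 : ℝ) ≤ ((N : ℝ) + 1) ^ (d - 1) := by positivity
      linarith
    have h5 : ((N : ℝ) + 1) ^ (d - 1) ≤ Bd d N D := by
      unfold Bd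
      have : (0 : ℝ) ≤ 2 ^ N / D := by positivity
      linarith
    have hlp : 0 ≤ lpC 1 ^ d := pow_nonneg (lpC_nonneg 1) d
    have h6 : ∫ x, (SQ χ (ZN hL N) (wN hL N) (sg z) (fun _ => True) x) ^ 1 ∂μ ≤
        cW * Kd d (2 * d) * Bd d N D ^ 2 := by
      refine h2.trans ?_
      calc (cW * (2 ^ N / D)) * (Kd d (2 * d) * Bd d N D)
          ≤ (cW * Bd d N D) * (Kd d (2 * d) * Bd d N D) := by gcongr
        _ = _ := by ring
    have h7 : (((N : ℝ) + 1) ^ (d - 1)) ^ (2 * 1) ≤ Bd d N D ^ 2 := by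
      rw [mul_one]
      exact pow_le_pow_left₀ (by positivity) h5 2
    simp only [zero_add, pow_one, mul_one] at h1 h7 ⊢
    set E : ℝ := lpC 1 ^ d * (cW * Kd d (2 * d)) with hE
    have hE0 : 0 ≤ E := by positivity
    calc ∫ x, ‖ev h (EN hL N) x‖ ^ 2 ∂μ
        ≤ 2 ^ 2 * ((((N : ℝ) + 1) ^ (d - 1)) ^ 2 + lpC 1 ^ d *
          ∫ x, (SQ χ (ZN hL N) (wN hL N) (sg z) (fun _ => True) x) ∂μ) := h1
      _ ≤ 2 ^ 2 * (Bd d N D ^ 2 + lpC 1 ^ d * (cW * Kd d (2 * d) * Bd d N D ^ 2)) := by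
        simp only [pow_one] at h6
        gcongr
      _ = 2 ^ 2 * ((1 + E) * Bd d N D ^ 2) := by rw [hE]; ring
      _ ≤ (2 * (1 + E) * Bd d N D) ^ 2 := by
        have : (1 + E) ≤ (1 + E) ^ 2 := by nlinarith
        have h8 : 0 ≤ Bd d N D ^ 2 := by positivity
        calc 2 ^ 2 * ((1 + E) * Bd d N D ^ 2) ≤ 2 ^ 2 * ((1 + E) ^ 2 * Bd d N D ^ 2) := by gcongr
          _ = _ := by ring
  | succ i ih =>
    obtain ⟨C, hC1, hC⟩ := ih
    set k : ℕ := 2 ^ (i + 1) with hk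
    have hk1 : 1 ≤ k := Nat.one_le_two_pow
    have hkk : 2 ^ (i + 1 + 1) = 2 * k := by rw [hk]; ring
    have hlp : 0 ≤ lpC k ^ d := pow_nonneg (lpC_nonneg k) d
    set E : ℝ := lpC k ^ d * (cW * (C * Kd d (2 * d))) ^ k with hE
    have hE0 : 0 ≤ E := by positivity
    refine ⟨2 * (1 + E), by linarith, ?_⟩
    intro z D hL N
    have hD := hL.Dpos
    have hB := Bd_nonneg d N hD
    rw [hkk]
    have h1 := R_of_Q hL h hd N k hk1
    have h2 : ∫ x, (SQ χ (ZN hL N) (wN hL N) (sg z) (fun _ => True) x) ^ k ∂μ ≤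
        ((cW * (2 ^ N / D)) * (C * (Kd d (2 * d) * Bd d N D))) ^ k := by
      rw [integral_SQ_pow hL h]
      refine coeff_pow_le hL h (NN_TN hL N) (Finset.range (N + 1)) (aN d N D) (aN_nonneg d N hD)
        (fun n => n + 2 * d) (dom_TN hL N) k _ _ (sum_aN_le d N hD hS) (by positivity) ?_
      intro n hn
      rw [Finset.mem_range] at hn
      refine (hC z D hL (n + 2 * d)).trans ?_
      have := Bd_nonneg d (n + 2 * d) hD
      refine pow_le_pow_left₀ (by positivity) ?_ k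
      refine mul_le_mul_of_nonneg_left ?_ (by positivity)
      exact Bd_shift d N n (2 * d) hD (by omega)
    have h4 : (2 : ℝ) ^ N / D ≤ Bd d N D := by
      unfold Bd
      have : (0 : ℝ) ≤ ((N : ℝ) + 1) ^ (d - 1) := by positivity
      linarith
    have h5 : ((N : ℝ) + 1) ^ (d - 1) ≤ Bd d N D := by
      unfold Bd
      have : (0 : ℝ) ≤ 2 ^ N / D := by positivity
      linarith
    have h6 : ∫ x, (SQ χ (ZN hL N) (wN hL N) (sg z) (fun _ => True) x) ^ k ∂μ ≤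
        (cW * (C * Kd d (2 * d))) ^ k * Bd d N D ^ (2 * k) := by
      refine h2.trans ?_
      rw [pow_mul, ← mul_pow]
      refine pow_le_pow_left₀ (by positivity) ?_ k
      calc cW * (2 ^ N / D) * (C * (Kd d (2 * d) * Bd d N D))
          ≤ cW * Bd d N D * (C * (Kd d (2 * d) * Bd d N D)) := by gcongr
        _ = _ := by ring
    have h7 : (((N : ℝ) + 1) ^ (d - 1)) ^ (2 * k) ≤ Bd d N D ^ (2 * k) :=
      pow_le_pow_left₀ (by positivity) h5 _
    calc ∫ x, ‖ev h (EN hL N) x‖ ^ (2 * k) ∂μ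
        ≤ 2 ^ (2 * k) * ((((N : ℝ) + 1) ^ (d - 1)) ^ (2 * k) + lpC k ^ d *
          ∫ x, (SQ χ (ZN hL N) (wN hL N) (sg z) (fun _ => True) x) ^ k ∂μ) := h1
      _ ≤ 2 ^ (2 * k) * (Bd d N D ^ (2 * k) + lpC k ^ d *
          ((cW * (C * Kd d (2 * d))) ^ k * Bd d N D ^ (2 * k))) := by gcongr
      _ = 2 ^ (2 * k) * ((1 + E) * Bd d N D ^ (2 * k)) := by rw [hE]; ring
      _ ≤ (2 * (1 + E) * Bd d N D) ^ (2 * k) := by
        have h9 : (1 + E) ≤ (1 + E) ^ (2 * k) := le_self_pow₀ (by linarith) (by omega)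
        have h8 : 0 ≤ Bd d N D ^ (2 * k) := by positivity
        rw [mul_pow, mul_pow]
        calc 2 ^ (2 * k) * ((1 + E) * Bd d N D ^ (2 * k))
            ≤ 2 ^ (2 * k) * ((1 + E) ^ (2 * k) * Bd d N D ^ (2 * k)) := by gcongr
          _ = _ := by ring

end

end Pool.Agent.Helper64.Frolov
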