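import Mathlib

/-!
# Frolov cubature on mixed smoothness classes: definitions
-/

open MeasureTheory
open scoped ENNReal Matrix ContDiff

namespace Pool.Agent.Helper64.Frolov

/-- The exponential `e(t) = exp(2 * pi * i * t)`. -/
noncomputable def ee (t : ℝ) : ℂ := Complex.exp (2 * Real.pi * t * Complex.I)

/-- `(φ s)`, `s = 0, 1, 2, ...`, is a smooth dyadic resolution of unity on the real line:
every `φ s` is smooth, `φ 0` vanishes outside a bounded interval, `φ s` is supported where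
`|ξ|` is comparable to `2 ^ s` for `s ≥ 1`, the `k`-th derivative of `φ s` is at most
`C_k * 2 ^ (-s k)`, and the functions sum up to `1`. -/
structure IsDyadicResolution (φ : ℕ → ℝ → ℝ) : Prop where
  smooth : ∀ s, ContDiff ℝ ∞ (φ s)
  support : ∃ K : ℝ, (∀ ξ, K < |ξ| → φ 0 ξ = 0) ∧
    ∀ s, 1 ≤ s → ∀ ξ, (K * |ξ| < 2 ^ s ∨ K * 2 ^ s < |ξ|) → φ s ξ = 0
  deriv_bound : ∀ k : ℕ, ∃ C : ℝ, ∀ s ξ, |iteratedDeriv k (φ s) ξ| ≤ C / 2 ^ (s * k)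
  sum_eq_one : ∀ ξ, HasSum (fun s => φ s ξ) 1

/-- The Fourier transform on `ℝ^d`. -/
noncomputable def fourierT {d : ℕ} (f : (Fin d → ℝ) → ℂ) (ξ : Fin d → ℝ) : ℂ :=
  ∫ x : Fin d → ℝ, f x * ee (-(∑ j, x j * ξ j))

/-- The Littlewood-Paley piece with index `s` in `ℕ^d`: the inverse Fourier transform of
`φ_s * F f`, where `φ_s` is the tensor product of the functions `φ (s j)`. -/
noncomputable def lpPiece {d : ℕ} (φ : ℕ → ℝ → ℝ) (s : Fin d → ℕ) (f : (Fin d → ℝ) → ℂ)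
    (x : Fin d → ℝ) : ℂ :=
  ∫ ξ : Fin d → ℝ, ((∏ j, φ (s j) (ξ j) : ℝ) : ℂ) * fourierT f ξ * ee (∑ j, ξ j * x j)

/-- The norm of the Sobolev space of dominating mixed smoothness `r`: the `L_p` norm of the
square function with weights `2 ^ (r * |s|_1)`. -/
noncomputable def mixedNorm {d : ℕ} (φ : ℕ → ℝ → ℝ) (p r : ℝ) (f : (Fin d → ℝ) → ℂ) : ℝ≥0∞ :=
  (∫⁻ x : Fin d → ℝ, (∑' s : Fin d → ℕ,
    (ENNReal.ofReal (2 ^ (r * ∑ j, (s j : ℝ))) * ‖lpPiece φ s f x‖ₑ) ^ 2) ^ (p / 2)) ^ (1 / p)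

/-- The unit ball of the subspace of functions supported in the cube `[0,1]^d`. -/
def unitBall (d : ℕ) (φ : ℕ → ℝ → ℝ) (p r : ℝ) : Set ((Fin d → ℝ) → ℂ) :=
  {f | Continuous f ∧ (∀ x, f x ≠ 0 → ∀ j, 0 ≤ x j ∧ x j ≤ 1) ∧ mixedNorm φ p r f ≤ 1}

/-- Frolov's cubature rule with matrix `A` and dilation parameter `a`. -/
noncomputable def frolovRule {d : ℕ} (A : Matrix (Fin d) (Fin d) ℝ) (a : ℝ)
    (f : (Fin d → ℝ) → ℂ) : ℂ :=
  ((a ^ d * |A.det| : ℝ) : ℂ)⁻¹ *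
    ∑' m : Fin d → ℤ, f (fun j => ((A⁻¹)ᵀ *ᵥ (fun i => (m i : ℝ))) j / a)

/-- The worst-case error of Frolov's rule on the unit ball. -/
noncomputable def frolovError {d : ℕ} (A : Matrix (Fin d) (Fin d) ℝ) (a : ℝ) (φ : ℕ → ℝ → ℝ)
    (p r : ℝ) : ℝ≥0∞ :=
  ⨆ f ∈ unitBall d φ p r, ‖frolovRule A a f - ∫ x : Fin d → ℝ, f x‖ₑ

/-- The conditions on the matrix `A`: it is invertible, the lattice `A ℤ^d` is admissible, and
every axis-parallel box `P` contains at most `|P| + 1` lattice points. -/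
structure IsFrolovMatrix {d : ℕ} (A : Matrix (Fin d) (Fin d) ℝ) : Prop where
  det_ne_zero : A.det ≠ 0
  admissible : ∀ m : Fin d → ℤ, m ≠ 0 → 1 ≤ |∏ j, (A *ᵥ (fun i => (m i : ℝ))) j|
  box_count : ∀ lo hi : Fin d → ℝ, (∀ j, lo j ≤ hi j) →
    ({m : Fin d → ℤ | ∀ j, lo j ≤ (A *ᵥ (fun i => (m i : ℝ))) j ∧
      (A *ᵥ (fun i => (m i : ℝ))) j ≤ hi j}.ncard : ℝ) ≤ ∏ j, (hi j - lo j) + 1

end Pool.Agent.Helper64.Frolov
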