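import Mathlib
import Pool.Agent.Helper64.Frolov.Defs

open MeasureTheory Real
open scoped SchwartzMap FourierTransform ContDiff

namespace Pool.Agent.Helper64.Frolov

lemma ee_add (s t : ℝ) : ee (s + t) = ee s * ee t := by
  unfold ee
  rw [← Complex.exp_add]
  congr 1
  push_cast
  ring

lemma ee_zero : ee 0 = 1 := by simp [ee]

lemma norm_ee (t : ℝ) : ‖ee t‖ = 1 := by
  unfold ee
  have : (2 * (Real.pi : ℂ) * (t : ℂ) * Complex.I) = ((2 * Real.pi * t : ℝ) : ℂ) * Complex.I := by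
    push_cast; ring
  rw [this, Complex.norm_exp_ofReal_mul_I]

lemma ee_int (n : ℤ) : ee n = 1 := by
  unfold ee
  rw [Complex.exp_eq_one_iff]
  exact ⟨n, by push_cast; ring⟩

lemma continuous_ee : Continuous ee := by
  unfold ee
  fun_prop

lemma ee_neg (t : ℝ) : ee (-t) = (starRingEnd ℂ) (ee t) := by
  unfold ee
  rw [← Complex.exp_conj]
  congr 1
  simp
  left
  exact (map_ofNat (starRingEnd ℂ) 2).symm

/-- the bump -/
noncomputable def bump0 : ContDiffBump (1 / 2 : ℝ) :=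
  { rIn := 1 / 4, rOut := 1 / 2, rIn_pos := by norm_num, rIn_lt_rOut := by norm_num }

/-- the bump function -/
noncomputable def psi (x : ℝ) : ℝ := bump0 x

lemma psi_contDiff : ContDiff ℝ ∞ psi := bump0.contDiff

lemma psi_nonneg (x : ℝ) : 0 ≤ psi x := bump0.nonneg

lemma psi_le_one (x : ℝ) : psi x ≤ 1 := bump0.le_one

lemma psi_eq_one {x : ℝ} (h : |x - 1 / 2| ≤ 1 / 4) : psi x = 1 := by
  refine bump0.one_of_mem_closedBall ?_
  rw [Metric.mem_closedBall, Real.dist_eq]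
  exact h

lemma psi_eq_zero {x : ℝ} (h : ¬ (0 ≤ x ∧ x ≤ 1)) : psi x = 0 := by
  refine bump0.zero_of_le_dist ?_
  rw [Real.dist_eq]
  have : bump0.rOut = 1 / 2 := rfl
  rw [this]
  rcases lt_or_ge x 0 with h1 | h1
  · rw [abs_of_neg (by linarith)]; linarith
  · have h2 : 1 < x := by
      by_contra h3
      exact h ⟨h1, by linarith⟩
    rw [abs_of_pos (by linarith)]; linarith

lemma psi_compact : HasCompactSupport psi := bump0.hasCompactSupport

lemma psi_continuous : Continuous psi := psi_contDiff.continuous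

/-- Schwartz version -/
noncomputable def Psi : 𝓢(ℝ, ℂ) :=
  HasCompactSupport.toSchwartzMap (f := fun x => (psi x : ℂ))
    (psi_compact.comp_left (g := fun y : ℝ => (y : ℂ)) (by simp))
    (Complex.ofRealCLM.contDiff.comp psi_contDiff)

lemma Psi_apply (x : ℝ) : Psi x = (psi x : ℂ) := rfl

/-- Fourier transform of the bump -/
noncomputable def gam : 𝓢(ℝ, ℂ) := 𝓕 Psi

lemma gam_eq (η : ℝ) : gam η = ∫ x, (psi x : ℂ) * ee (-(η * x)) := by
  have h1 : gam η = 𝓕 (Psi : ℝ → ℂ) η := by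
    unfold gam
    rw [SchwartzMap.fourier_coe]
  rw [h1, Real.fourier_real_eq_integral_exp_smul]
  refine integral_congr_ae (Filter.Eventually.of_forall fun x => ?_)
  dsimp only
  rw [Psi_apply, smul_eq_mul, mul_comm]
  congr 1
  unfold ee
  congr 1
  push_cast
  ring

lemma psi_eq_integral (x : ℝ) : (psi x : ℂ) = ∫ η, gam η * ee (η * x) := by
  have h1 : 𝓕⁻ (𝓕 (Psi : ℝ → ℂ)) x = Psi x := by
    have h2 : 𝓕⁻ (𝓕 (Psi : ℝ → ℂ)) = (Psi : ℝ → ℂ) := by
      refine Continuous.fourierInv_fourier_eq Psi.continuous Psi.integrable ?_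
      have := (𝓕 Psi : 𝓢(ℝ, ℂ)).integrable (μ := volume)
      rwa [SchwartzMap.fourier_coe] at this
    rw [h2]
  rw [← Psi_apply, ← h1, Real.fourierInv_eq']
  refine integral_congr_ae (Filter.Eventually.of_forall fun η => ?_)
  dsimp only
  have h3 : gam η = 𝓕 (Psi : ℝ → ℂ) η := by
    unfold gam
    rw [SchwartzMap.fourier_coe]
  rw [h3, smul_eq_mul, mul_comm]
  congr 1
  unfold ee
  congr 1
  simp
  ring

/-- one-dimensional estimate -/
theorem oneD (φ : ℕ → ℝ → ℝ) (hsm : ∀ s, ContDiff ℝ ∞ (φ s)) (C0 C1 : ℝ)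
    (h0 : ∀ s ξ, |φ s ξ| ≤ C0) (h1 : ∀ s ξ, |deriv (φ s) ξ| ≤ C1 * (2 ^ s)⁻¹) :
    ∃ C : ℝ, 0 ≤ C ∧ ∀ (s : ℕ) (ζ x : ℝ),
      ‖(∫ ξ, (φ s ξ : ℂ) * gam (ξ - ζ) * ee (ξ * x)) - (φ s ζ : ℂ) * ((psi x : ℂ) * ee (ζ * x))‖ ≤
        C * (2 ^ s)⁻¹ * (1 + |x|)⁻¹ := by
  have hC1 : 0 ≤ C1 := by
    have := (abs_nonneg _).trans (h1 0 0)
    simpa using this
  have hC0 : 0 ≤ C0 := (abs_nonneg _).trans (h0 0 0)
  set dgam : 𝓢(ℝ, ℂ) := SchwartzMap.derivCLM ℝ ℂ gam with hdgam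
  have hdg : ∀ η, dgam η = deriv gam η := fun η => by
    rw [hdgam, SchwartzMap.derivCLM_apply]
  have i1 : Integrable (fun η : ℝ => |η| * ‖gam η‖) := by
    have := gam.integrable_pow_mul volume 1
    simpa using this
  have i2 : Integrable (fun η : ℝ => ‖gam η‖) := gam.integrable.norm
  have i3 : Integrable (fun η : ℝ => |η| * ‖dgam η‖) := by
    have := dgam.integrable_pow_mul volume 1
    simpa using this
  set I1 := ∫ η, |η| * ‖gam η‖ with hI1
  set I2 := ∫ η, ‖gam η‖ with hI2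
  set I3 := ∫ η, |η| * ‖dgam η‖ with hI3
  have hI1' : 0 ≤ I1 := integral_nonneg fun η => by dsimp only [Pi.zero_apply]; positivity
  have hI2' : 0 ≤ I2 := integral_nonneg fun η => by dsimp only [Pi.zero_apply]; positivity
  have hI3' : 0 ≤ I3 := integral_nonneg fun η => by dsimp only [Pi.zero_apply]; positivity
  refine ⟨C1 * (I1 + (I2 + I3)), by positivity, ?_⟩
  intro s ζ x
  -- the function
  set h : ℝ → ℂ := fun ξ => ((φ s ξ - φ s ζ : ℝ) : ℂ) * gam (ξ - ζ) with hh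
  have hcont : Continuous (φ s) := (hsm s).continuous
  have hdiffφ : Differentiable ℝ (φ s) := (hsm s).differentiable (by simp)
  have hlip : ∀ ξ, |φ s ξ - φ s ζ| ≤ C1 * (2 ^ s)⁻¹ * |ξ - ζ| := by
    intro ξ
    have := Convex.norm_image_sub_le_of_norm_deriv_le (f := φ s) (s := Set.univ)
      (x := ζ) (y := ξ) (C := C1 * (2 ^ s)⁻¹) (fun y _ => hdiffφ y)
      (fun y _ => h1 s y) convex_univ (Set.mem_univ _) (Set.mem_univ _)
    simpa [Real.norm_eq_abs] using this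
  have hgc : Continuous (fun ξ => gam (ξ - ζ)) := gam.continuous.comp (continuous_id.sub continuous_const)
  have i1' : Integrable (fun ξ : ℝ => |ξ - ζ| * ‖gam (ξ - ζ)‖) := i1.comp_sub_right ζ
  have i2' : Integrable (fun ξ : ℝ => ‖gam (ξ - ζ)‖) := i2.comp_sub_right ζ
  have i3' : Integrable (fun ξ : ℝ => |ξ - ζ| * ‖dgam (ξ - ζ)‖) := i3.comp_sub_right ζ
  have e1 : ∫ ξ : ℝ, |ξ - ζ| * ‖gam (ξ - ζ)‖ = I1 := by
    rw [hI1]; exact integral_sub_right_eq_self (fun η => |η| * ‖gam η‖) ζ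
  have e2 : ∫ ξ : ℝ, ‖gam (ξ - ζ)‖ = I2 := by
    rw [hI2]; exact integral_sub_right_eq_self (fun η => ‖gam η‖) ζ
  have e3 : ∫ ξ : ℝ, |ξ - ζ| * ‖dgam (ξ - ζ)‖ = I3 := by
    rw [hI3]; exact integral_sub_right_eq_self (fun η => |η| * ‖dgam η‖) ζ
  have hhc : Continuous h := by
    rw [hh]
    exact (Complex.continuous_ofReal.comp (hcont.sub continuous_const)).mul hgc
  have hbound : ∀ ξ, ‖h ξ‖ ≤ C1 * (2 ^ s)⁻¹ * (|ξ - ζ| * ‖gam (ξ - ζ)‖) := by
    intro ξ
    simp only [hh]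
    rw [norm_mul, Complex.norm_real, Real.norm_eq_abs, ← mul_assoc]
    exact mul_le_mul_of_nonneg_right (hlip ξ) (norm_nonneg _)
  have hint : Integrable h :=
    (i1'.const_mul (C1 * (2 ^ s)⁻¹)).mono' hhc.aestronglyMeasurable (Filter.Eventually.of_forall hbound)
  have hderiv : ∀ ξ, HasDerivAt h (((deriv (φ s) ξ : ℝ) : ℂ) * gam (ξ - ζ) +
      ((φ s ξ - φ s ζ : ℝ) : ℂ) * dgam (ξ - ζ)) ξ := by
    intro ξ
    have a1 : HasDerivAt (fun ξ => ((φ s ξ - φ s ζ : ℝ) : ℂ)) ((deriv (φ s) ξ : ℝ) : ℂ) ξ := by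
      exact ((hdiffφ ξ).hasDerivAt.sub_const _).ofReal_comp
    have a2 : HasDerivAt (fun ξ => gam (ξ - ζ)) (dgam (ξ - ζ)) ξ := by
      rw [hdg]
      have : HasDerivAt gam (deriv gam (ξ - ζ)) (ξ - ζ) := (gam.differentiable _).hasDerivAt
      exact this.comp_sub_const ξ ζ
    exact a1.mul a2
  have hdh : ∀ ξ, deriv h ξ = ((deriv (φ s) ξ : ℝ) : ℂ) * gam (ξ - ζ) +
      ((φ s ξ - φ s ζ : ℝ) : ℂ) * dgam (ξ - ζ) := fun ξ => (hderiv ξ).deriv
  have hbound' : ∀ ξ, ‖deriv h ξ‖ ≤ C1 * (2 ^ s)⁻¹ * (‖gam (ξ - ζ)‖ + |ξ - ζ| * ‖dgam (ξ - ζ)‖) := by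
    intro ξ
    rw [hdh]
    refine (norm_add_le _ _).trans ?_
    rw [norm_mul, norm_mul, Complex.norm_real, Complex.norm_real, Real.norm_eq_abs, Real.norm_eq_abs,
      mul_add, ← mul_assoc (C1 * (2 ^ s)⁻¹) |ξ - ζ|]
    exact add_le_add (mul_le_mul_of_nonneg_right (h1 s ξ) (norm_nonneg _))
      (mul_le_mul_of_nonneg_right (hlip ξ) (norm_nonneg _))
  have hdcont : Continuous (deriv h) := by
    have : deriv h = fun ξ => ((deriv (φ s) ξ : ℝ) : ℂ) * gam (ξ - ζ) +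
      ((φ s ξ - φ s ζ : ℝ) : ℂ) * dgam (ξ - ζ) := funext hdh
    rw [this]
    have c1 : Continuous (deriv (φ s)) := (hsm s).continuous_deriv (by simp)
    have c2 : Continuous (fun ξ => dgam (ξ - ζ)) :=
      dgam.continuous.comp (continuous_id.sub continuous_const)
    exact ((Complex.continuous_ofReal.comp c1).mul hgc).add
      ((Complex.continuous_ofReal.comp (hcont.sub continuous_const)).mul c2)
  have hint' : Integrable (deriv h) :=
    ((i2'.add i3').const_mul (C1 * (2 ^ s)⁻¹)).mono' hdcont.aestronglyMeasurable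
      (Filter.Eventually.of_forall hbound')
  have key1 : ∫ ξ, ‖h ξ‖ ≤ C1 * (2 ^ s)⁻¹ * I1 := by
    calc ∫ ξ, ‖h ξ‖ ≤ ∫ ξ, C1 * (2 ^ s)⁻¹ * (|ξ - ζ| * ‖gam (ξ - ζ)‖) :=
          integral_mono hint.norm (i1'.const_mul _) hbound
      _ = _ := by rw [integral_const_mul, e1]
  have key2 : ∫ ξ, ‖deriv h ξ‖ ≤ C1 * (2 ^ s)⁻¹ * (I2 + I3) := by
    calc ∫ ξ, ‖deriv h ξ‖
        ≤ ∫ ξ, C1 * (2 ^ s)⁻¹ * (‖gam (ξ - ζ)‖ + |ξ - ζ| * ‖dgam (ξ - ζ)‖) :=
          integral_mono hint'.norm ((i2'.add i3').const_mul _) hbound'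
      _ = _ := by rw [integral_const_mul, integral_add i2' i3', e2, e3]
  have hF : ∀ (g : ℝ → ℂ), (∫ ξ, g ξ * ee (ξ * x)) = 𝓕 g (-x) := by
    intro g
    rw [Real.fourier_real_eq_integral_exp_smul]
    refine integral_congr_ae (Filter.Eventually.of_forall fun ξ => ?_)
    dsimp only
    rw [smul_eq_mul, mul_comm]
    congr 1
    unfold ee
    congr 1
    push_cast
    ring
  have hFd := Real.fourier_deriv hint (fun ξ => (hderiv ξ).differentiableAt) hint'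
  have hn1 : ‖∫ ξ, h ξ * ee (ξ * x)‖ ≤ ∫ ξ, ‖h ξ‖ := by
    refine (norm_integral_le_integral_norm _).trans (le_of_eq ?_)
    simp_rw [norm_mul, norm_ee, mul_one]
  have hn2 : |x| * ‖∫ ξ, h ξ * ee (ξ * x)‖ ≤ ∫ ξ, ‖deriv h ξ‖ := by
    have b1 : ‖∫ ξ, deriv h ξ * ee (ξ * x)‖ ≤ ∫ ξ, ‖deriv h ξ‖ := by
      refine (norm_integral_le_integral_norm _).trans (le_of_eq ?_)
      simp_rw [norm_mul, norm_ee, mul_one]
    rw [hF, hFd] at b1
    rw [hF]
    refine le_trans ?_ b1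
    dsimp only
    rw [norm_smul]
    refine mul_le_mul_of_nonneg_right ?_ (norm_nonneg _)
    simp only [norm_mul, Complex.norm_I, Complex.norm_real]
    simp only [Complex.norm_ofNat, Real.norm_eq_abs, abs_neg, mul_one]
    rw [abs_of_pos Real.pi_pos]
    nlinarith [abs_nonneg x, Real.pi_gt_three]
  -- identify
  have hid : (∫ ξ, (φ s ξ : ℂ) * gam (ξ - ζ) * ee (ξ * x)) - (φ s ζ : ℂ) * ((psi x : ℂ) * ee (ζ * x)) =
      ∫ ξ, h ξ * ee (ξ * x) := by
    have c1 : (psi x : ℂ) * ee (ζ * x) = ∫ ξ, gam (ξ - ζ) * ee (ξ * x) := by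
      rw [psi_eq_integral, ← integral_mul_const]
      rw [← integral_sub_right_eq_self (fun η => gam η * ee (η * x) * ee (ζ * x)) ζ]
      refine integral_congr_ae (Filter.Eventually.of_forall fun ξ => ?_)
      dsimp only
      rw [mul_assoc, ← ee_add]
      congr 2
      ring
    have ig : Integrable (fun ξ => gam (ξ - ζ) * ee (ξ * x)) := by
      refine i2'.mono' (hgc.mul (continuous_ee.comp (continuous_id.mul continuous_const))).aestronglyMeasurable ?_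
      refine Filter.Eventually.of_forall fun ξ => ?_
      rw [norm_mul, norm_ee, mul_one]
    have ip : Integrable (fun ξ => (φ s ξ : ℂ) * gam (ξ - ζ) * ee (ξ * x)) := by
      refine (i2'.const_mul C0).mono' (((Complex.continuous_ofReal.comp hcont).mul hgc).mul
        (continuous_ee.comp (continuous_id.mul continuous_const))).aestronglyMeasurable ?_
      refine Filter.Eventually.of_forall fun ξ => ?_
      rw [norm_mul, norm_ee, mul_one, norm_mul, Complex.norm_real]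
      exact mul_le_mul_of_nonneg_right (h0 s ξ) (norm_nonneg _)
    rw [c1, ← integral_const_mul, ← integral_sub ip (ig.const_mul _)]
    refine integral_congr_ae (Filter.Eventually.of_forall fun ξ => ?_)
    simp only [hh]
    push_cast
    ring
  rw [hid]
  have hx : (0 : ℝ) < 1 + |x| := by positivity
  rw [mul_assoc, ← div_eq_mul_inv, ← mul_div_assoc, le_div_iff₀ hx]
  calc ‖∫ ξ, h ξ * ee (ξ * x)‖ * (1 + |x|)
      = ‖∫ ξ, h ξ * ee (ξ * x)‖ + |x| * ‖∫ ξ, h ξ * ee (ξ * x)‖ := by ring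
    _ ≤ C1 * (2 ^ s)⁻¹ * I1 + C1 * (2 ^ s)⁻¹ * (I2 + I3) :=
        add_le_add (hn1.trans key1) (hn2.trans key2)
    _ = _ := by ring

end Pool.Agent.Helper64.Frolov
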