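import Mathlib
import Pool.Agent.Helper64.Frolov.P

open MeasureTheory Real
open scoped SchwartzMap FourierTransform ContDiff

namespace Pool.Agent.Helper64.Frolov

variable {d : ℕ} {G : Type*} (Z : Finset G) (w : G → ℝ) (z : G → Fin d → ℝ)

/-- the trigonometric sum -/
noncomputable def trigF (x : Fin d → ℝ) : ℂ := ∑ m ∈ Z, (w m : ℂ) * ee (∑ j, z m j * x j)

/-- the test function -/
noncomputable def testF (x : Fin d → ℝ) : ℂ := ((∏ j, psi (x j) : ℝ) : ℂ) * trigF Z w z x

lemma ee_sum {ι : Type*} (s : Finset ι) (g : ι → ℝ) : ee (∑ i ∈ s, g i) = ∏ i ∈ s, ee (g i) := by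
  classical
  induction s using Finset.induction_on with
  | empty => simp [ee_zero]
  | insert a s ha ih => rw [Finset.sum_insert ha, Finset.prod_insert ha, ee_add, ih]

lemma continuous_testF : Continuous (testF Z w z) := by
  unfold testF trigF
  refine Continuous.mul ?_ ?_
  · refine Complex.continuous_ofReal.comp ?_
    exact continuous_finsetProd _ fun j _ => psi_continuous.comp (continuous_apply j)
  · refine continuous_finsetSum _ fun m _ => continuous_const.mul (continuous_ee.comp ?_)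
    exact continuous_finsetSum _ fun j _ => continuous_const.mul (continuous_apply j)

lemma integrable_psi_ee (η : ℝ) : Integrable (fun x => (psi x : ℂ) * ee (-(η * x))) := by
  have h1 : Integrable (fun x => (psi x : ℂ)) := Psi.integrable
  refine h1.norm.mono' ?_ ?_
  · exact ((Complex.continuous_ofReal.comp psi_continuous).mul
      (continuous_ee.comp (continuous_const.mul continuous_id).neg)).aestronglyMeasurable
  · refine Filter.Eventually.of_forall fun x => ?_
    rw [norm_mul, norm_ee, mul_one]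

lemma fourierT_testF (ξ : Fin d → ℝ) :
    fourierT (testF Z w z) ξ = ∑ m ∈ Z, (w m : ℂ) * ∏ j, gam (ξ j - z m j) := by
  unfold fourierT
  have h1 : ∀ x : Fin d → ℝ, testF Z w z x * ee (-(∑ j, x j * ξ j)) =
      ∑ m ∈ Z, (w m : ℂ) * ∏ j, ((psi (x j) : ℂ) * ee (-((ξ j - z m j) * x j))) := by
    intro x
    unfold testF trigF
    rw [Finset.mul_sum, Finset.sum_mul]
    refine Finset.sum_congr rfl fun m _ => ?_
    rw [Finset.prod_mul_distrib, ← ee_sum, ← Finset.sum_neg_distrib, Complex.ofReal_prod]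
    have h2 : ee (∑ i, z m i * x i) * ee (∑ i, -(x i * ξ i)) =
        ee (∑ i, -((ξ i - z m i) * x i)) := by
      rw [← ee_add, ← Finset.sum_add_distrib]
      congr 1
      refine Finset.sum_congr rfl fun j _ => ?_
      ring
    rw [← h2]
    ring
  simp_rw [h1]
  rw [integral_finsetSum]
  · refine Finset.sum_congr rfl fun m _ => ?_
    rw [integral_const_mul]
    congr 1
    rw [integral_fintype_prod_volume_eq_prod (fun (j : Fin d) (t : ℝ) => (psi t : ℂ) * ee (-((ξ j - z m j) * t)))]
    refine Finset.prod_congr rfl fun j _ => ?_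
    rw [gam_eq]
  · intro m _
    refine Integrable.const_mul ?_ _
    exact Integrable.fintype_prod (f := fun (j : Fin d) (t : ℝ) => (psi t : ℂ) * ee (-((ξ j - z m j) * t)))
      (fun j => integrable_psi_ee _)

/-- one-dimensional piece -/
noncomputable def g1 (φ : ℕ → ℝ → ℝ) (s : ℕ) (ζ x : ℝ) : ℂ :=
  ∫ ξ, (φ s ξ : ℂ) * gam (ξ - ζ) * ee (ξ * x)

lemma integrable_g1 (φ : ℕ → ℝ → ℝ) (hsm : ∀ s, Continuous (φ s)) (C0 : ℝ)
    (h0 : ∀ s ξ, |φ s ξ| ≤ C0) (s : ℕ) (ζ x : ℝ) :
    Integrable (fun ξ => (φ s ξ : ℂ) * gam (ξ - ζ) * ee (ξ * x)) := by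
  have i2' : Integrable (fun ξ : ℝ => ‖gam (ξ - ζ)‖) := (gam.integrable (μ := volume)).norm.comp_sub_right ζ
  refine (i2'.const_mul C0).mono' (((Complex.continuous_ofReal.comp (hsm s)).mul
    (gam.continuous.comp (continuous_id.sub continuous_const))).mul
    (continuous_ee.comp (continuous_id.mul continuous_const))).aestronglyMeasurable ?_
  refine Filter.Eventually.of_forall fun ξ => ?_
  rw [norm_mul, norm_ee, mul_one, norm_mul, Complex.norm_real]
  exact mul_le_mul_of_nonneg_right (h0 s ξ) (norm_nonneg _)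

lemma lpPiece_testF (φ : ℕ → ℝ → ℝ) (hsm : ∀ s, Continuous (φ s)) (C0 : ℝ)
    (h0 : ∀ s ξ, |φ s ξ| ≤ C0) (s : Fin d → ℕ) (x : Fin d → ℝ) :
    lpPiece φ s (testF Z w z) x = ∑ m ∈ Z, (w m : ℂ) * ∏ j, g1 φ (s j) (z m j) (x j) := by
  unfold lpPiece
  have h1 : ∀ ξ : Fin d → ℝ, ((∏ j, φ (s j) (ξ j) : ℝ) : ℂ) * fourierT (testF Z w z) ξ *
      ee (∑ j, ξ j * x j) =
      ∑ m ∈ Z, (w m : ℂ) * ∏ j, ((φ (s j) (ξ j) : ℂ) * gam (ξ j - z m j) * ee (ξ j * x j)) := by
    intro ξ
    rw [fourierT_testF, Finset.mul_sum, Finset.sum_mul]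
    refine Finset.sum_congr rfl fun m _ => ?_
    rw [Finset.prod_mul_distrib, Finset.prod_mul_distrib, ← ee_sum, Complex.ofReal_prod]
    ring
  simp_rw [h1]
  rw [integral_finsetSum]
  · refine Finset.sum_congr rfl fun m _ => ?_
    rw [integral_const_mul]
    congr 1
    rw [integral_fintype_prod_volume_eq_prod
      (fun (j : Fin d) (t : ℝ) => (φ (s j) t : ℂ) * gam (t - z m j) * ee (t * x j))]
    rfl
  · intro m _
    refine Integrable.const_mul ?_ _
    exact Integrable.fintype_prod
      (f := fun (j : Fin d) (t : ℝ) => (φ (s j) t : ℂ) * gam (t - z m j) * ee (t * x j))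
      (fun j => integrable_g1 φ hsm C0 h0 _ _ _)

/-- telescoping bound -/
lemma norm_prod_sub_prod_le (a b : Fin d → ℂ) (α β : Fin d → ℝ) (ha : ∀ j, ‖b j‖ ≤ α j)
    (hab : ∀ j, ‖a j - b j‖ ≤ β j) :
    ‖∏ j, a j - ∏ j, b j‖ ≤ ∑ j, β j * ∏ i ∈ Finset.univ.erase j, (α i + β i) := by
  classical
  have hα : ∀ j, 0 ≤ α j := fun j => (norm_nonneg _).trans (ha j)
  have hβ : ∀ j, 0 ≤ β j := fun j => (norm_nonneg _).trans (hab j)
  have key : ∀ s : Finset (Fin d), ‖∏ j ∈ s, a j - ∏ j ∈ s, b j‖ ≤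
      ∑ j ∈ s, β j * ∏ i ∈ s.erase j, (α i + β i) := by
    intro s
    induction s using Finset.induction_on with
    | empty => simp
    | insert k s hk ih =>
      rw [Finset.prod_insert hk, Finset.prod_insert hk]
      have e1 : a k * ∏ j ∈ s, a j - b k * ∏ j ∈ s, b j =
          (a k - b k) * ∏ j ∈ s, a j + b k * (∏ j ∈ s, a j - ∏ j ∈ s, b j) := by ring
      rw [e1]
      have hna : ∀ j, ‖a j‖ ≤ α j + β j := by
        intro j
        have : a j = b j + (a j - b j) := by ring
        rw [this]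
        exact (norm_add_le _ _).trans (add_le_add (ha j) (hab j))
      have h2 : ‖∏ j ∈ s, a j‖ ≤ ∏ j ∈ s, (α j + β j) := by
        rw [norm_prod]
        exact Finset.prod_le_prod (fun _ _ => norm_nonneg _) fun j _ => hna j
      refine (norm_add_le _ _).trans ?_
      rw [norm_mul, norm_mul, Finset.sum_insert hk, Finset.erase_insert hk]
      refine add_le_add (mul_le_mul (hab k) h2 (norm_nonneg _) (hβ k)) ?_
      refine (mul_le_mul (ha k) ih (norm_nonneg _) (hα k)).trans ?_
      rw [Finset.mul_sum]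
      refine Finset.sum_le_sum fun j hj => ?_
      have hjk : k ∉ s.erase j := fun h => hk (Finset.mem_of_mem_erase h)
      have e2 : (insert k s).erase j = insert k (s.erase j) := by
        rw [Finset.erase_insert_of_ne]
        rintro rfl
        exact hk hj
      rw [e2, Finset.prod_insert hjk]
      have h3 : 0 ≤ ∏ i ∈ s.erase j, (α i + β i) :=
        Finset.prod_nonneg fun i _ => add_nonneg (hα i) (hβ i)
      have h4 := mul_nonneg (hβ j) h3
      have h5 := mul_nonneg (hβ k) h4
      calc α k * (β j * ∏ i ∈ s.erase j, (α i + β i))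
          ≤ α k * (β j * ∏ i ∈ s.erase j, (α i + β i)) + β k * (β j * ∏ i ∈ s.erase j, (α i + β i)) := by
            linarith
        _ = _ := by ring
  exact key Finset.univ

end Pool.Agent.Helper64.Frolov
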