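import Mathlib
import Pool.Agent.Helper64.Frolov.Q

open MeasureTheory Real
open scoped ENNReal ContDiff

namespace Pool.Agent.Helper64.Frolov

lemma tsum_prod_le {d : ℕ} (A : Fin d → ℕ → ℝ≥0∞) :
    ∑' τ : Fin d → ℕ, ∏ j, A j (τ j) ≤ ∏ j, ∑' s, A j s := by
  classical
  rw [ENNReal.tsum_eq_iSup_sum]
  refine iSup_le fun T => ?_
  have hsub : T ⊆ Fintype.piFinset (fun j => T.image (fun τ => τ j)) := by
    intro τ hτ
    rw [Fintype.mem_piFinset]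
    exact fun j => Finset.mem_image_of_mem (fun τ : Fin d → ℕ => τ j) hτ
  refine (Finset.sum_le_sum_of_subset hsub).trans ?_
  rw [← Finset.prod_univ_sum (fun j => T.image (fun τ => τ j)) A]
  exact Finset.prod_le_prod' fun j _ => ENNReal.sum_le_tsum _

lemma geom_bound (r : ℝ) (hr : 0 < r) (S : ℕ) :
    ∑ s ∈ Finset.range (S + 1), ((2 : ℝ) ^ r) ^ s ≤ 2 ^ r / (2 ^ r - 1) * ((2 : ℝ) ^ r) ^ S := by
  have h1 : (1 : ℝ) < 2 ^ r := Real.one_lt_rpow (by norm_num) hr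
  rw [geom_sum_eq h1.ne']
  rw [div_mul_eq_mul_div]
  refine div_le_div_of_nonneg_right ?_ (by linarith)
  rw [pow_succ]
  have : 0 ≤ ((2 : ℝ) ^ r) ^ S := by positivity
  nlinarith

/-- sum of the main terms in one variable -/
lemma sum_alpha (φ : ℕ → ℝ → ℝ) (C0 K : ℝ) (hC0 : 0 ≤ C0) (hK : 1 ≤ K)
    (h0 : ∀ s ξ, |φ s ξ| ≤ C0)
    (hsupp : ∀ s, 1 ≤ s → ∀ ξ, K * |ξ| < 2 ^ s → φ s ξ = 0) (r : ℝ) (hr : 0 < r)
    (ζ : ℝ) (hζ : 1 ≤ |ζ|) :
    ∑' s : ℕ, ENNReal.ofReal (((2 : ℝ) ^ r) ^ s * (2 * |φ s ζ|)) ≤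
      ENNReal.ofReal (2 * C0 * (2 ^ r / (2 ^ r - 1)) * K ^ r * |ζ| ^ r) := by
  have h2r : (1 : ℝ) < 2 ^ r := Real.one_lt_rpow (by norm_num) hr
  set y : ℝ := K * |ζ| with hy
  have hy1 : 1 ≤ y := by rw [hy]; nlinarith
  set S : ℕ := Nat.log 2 ⌊y⌋₊ with hS
  have hfl : ⌊y⌋₊ ≠ 0 := by
    have := Nat.floor_pos.2 hy1
    omega
  have hS2 : (2 : ℝ) ^ S ≤ y := by
    have h1 := Nat.pow_log_le_self 2 hfl
    have h2 : ((2 ^ S : ℕ) : ℝ) ≤ (⌊y⌋₊ : ℝ) := by exact_mod_cast h1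
    have h3 := Nat.floor_le (by linarith : (0 : ℝ) ≤ y)
    push_cast at h2
    linarith
  have hzero : ∀ s, s ∉ Finset.range (S + 1) →
      ENNReal.ofReal (((2 : ℝ) ^ r) ^ s * (2 * |φ s ζ|)) = 0 := by
    intro s hs
    rw [Finset.mem_range] at hs
    have hs1 : S + 1 ≤ s := by omega
    have h3 : y < 2 ^ s := by
      have h4 : ⌊y⌋₊ < 2 ^ (S + 1) := Nat.lt_pow_succ_log_self (by norm_num) _
      have h5 : y < ⌊y⌋₊ + 1 := Nat.lt_floor_add_one _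
      have h6 : ((⌊y⌋₊ + 1 : ℕ) : ℝ) ≤ ((2 ^ (S + 1) : ℕ) : ℝ) := by exact_mod_cast h4
      push_cast at h6
      have h7 : (2 : ℝ) ^ (S + 1) ≤ 2 ^ s := pow_le_pow_right₀ (by norm_num) hs1
      linarith
    rw [hsupp s (by omega) ζ h3]
    simp
  rw [tsum_eq_sum hzero, ← ENNReal.ofReal_sum_of_nonneg (fun s _ => by positivity)]
  refine ENNReal.ofReal_le_ofReal ?_
  calc ∑ s ∈ Finset.range (S + 1), ((2 : ℝ) ^ r) ^ s * (2 * |φ s ζ|)
      ≤ ∑ s ∈ Finset.range (S + 1), ((2 : ℝ) ^ r) ^ s * (2 * C0) := by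
        refine Finset.sum_le_sum fun s _ => ?_
        refine mul_le_mul_of_nonneg_left ?_ (by positivity)
        have := h0 s ζ
        linarith
    _ = (2 * C0) * ∑ s ∈ Finset.range (S + 1), ((2 : ℝ) ^ r) ^ s := by
        rw [← Finset.sum_mul, mul_comm]
    _ ≤ (2 * C0) * (2 ^ r / (2 ^ r - 1) * ((2 : ℝ) ^ r) ^ S) :=
        mul_le_mul_of_nonneg_left (geom_bound r hr S) (by positivity)
    _ ≤ (2 * C0) * (2 ^ r / (2 ^ r - 1) * (K ^ r * |ζ| ^ r)) := by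
        have h8 : ((2 : ℝ) ^ r) ^ S ≤ K ^ r * |ζ| ^ r := by
          rw [← Real.mul_rpow (by linarith) (abs_nonneg _), ← Real.rpow_natCast, ← Real.rpow_mul (by norm_num),
            mul_comm r, Real.rpow_mul (by norm_num), Real.rpow_natCast]
          exact Real.rpow_le_rpow (by positivity) hS2 hr.le
        have h9 : 0 ≤ (2 : ℝ) ^ r / (2 ^ r - 1) := div_nonneg (by positivity) (by linarith)
        refine mul_le_mul_of_nonneg_left (mul_le_mul_of_nonneg_left h8 h9) (by positivity)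
    _ = _ := by ring

/-- sum of the error terms in one variable -/
lemma sum_beta (r : ℝ) (hr1 : r < 1) (C : ℝ) (hC : 0 ≤ C) :
    ∑' s : ℕ, ENNReal.ofReal (((2 : ℝ) ^ r) ^ s * (C * ((2 : ℝ) ^ s)⁻¹)) =
      ENNReal.ofReal (C * (1 - 2 ^ r / 2)⁻¹) := by
  have h1 : (2 : ℝ) ^ r / 2 < 1 := by
    rw [div_lt_one (by norm_num)]
    calc (2 : ℝ) ^ r < 2 ^ (1 : ℝ) := Real.rpow_lt_rpow_of_exponent_lt (by norm_num) hr1
      _ = 2 := Real.rpow_one 2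
  have h0 : (0 : ℝ) ≤ 2 ^ r / 2 := by positivity
  have h2 : ∀ s : ℕ, ((2 : ℝ) ^ r) ^ s * (C * ((2 : ℝ) ^ s)⁻¹) = C * (2 ^ r / 2) ^ s := by
    intro s
    rw [div_pow]
    ring
  simp_rw [h2]
  rw [← ENNReal.ofReal_tsum_of_nonneg (fun s => by positivity)
    ((summable_geometric_of_lt_one h0 h1).mul_left C), tsum_mul_left, tsum_geometric_of_lt_one h0 h1]

end Pool.Agent.Helper64.Frolov
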