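import Mathlib
import Pool.Agent.Helper64.Frolov.R

open MeasureTheory Real
open scoped ENNReal ContDiff

namespace Pool.Agent.Helper64.Frolov

section
variable {d : ℕ} (φ : ℕ → ℝ → ℝ) (Cb : ℝ)

/-- error weight of a block -/
noncomputable def Er (τ : Fin d → ℕ) (ζ : Fin d → ℝ) : ℝ :=
  ∑ j, (Cb * ((2 : ℝ) ^ (τ j))⁻¹) *
    ∏ i ∈ Finset.univ.erase j, (2 * |φ (τ i) (ζ i)| + Cb * ((2 : ℝ) ^ (τ i))⁻¹)

lemma Er_nonneg (hCb : 0 ≤ Cb) (τ : Fin d → ℕ) (ζ : Fin d → ℝ) : 0 ≤ Er φ Cb τ ζ := by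
  unfold Er
  refine Finset.sum_nonneg fun j _ => mul_nonneg (by positivity) (Finset.prod_nonneg fun i _ => ?_)
  positivity

lemma prod_rpow_weight (r : ℝ) (τ : Fin d → ℕ) :
    (2 : ℝ) ^ (r * ∑ j, (τ j : ℝ)) = ∏ j, ((2 : ℝ) ^ r) ^ (τ j) := by
  rw [Finset.mul_sum, Real.rpow_sum_of_pos (by norm_num)]
  refine Finset.prod_congr rfl fun j _ => ?_
  rw [Real.rpow_mul (by norm_num), Real.rpow_natCast]

lemma sum_Er (C0 K : ℝ) (hC0 : 0 ≤ C0) (hK : 1 ≤ K) (hCb : 0 ≤ Cb)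
    (h0 : ∀ s ξ, |φ s ξ| ≤ C0)
    (hsupp : ∀ s, 1 ≤ s → ∀ ξ, K * |ξ| < 2 ^ s → φ s ξ = 0) (r : ℝ) (hr : 0 < r) (hr1 : r < 1) :
    ∃ CE : ℝ, 0 ≤ CE ∧ ∀ (ζ : Fin d → ℝ) (P R : ℝ), 1 ≤ R → (∀ j, R ≤ |ζ j|) →
      ∏ j, |ζ j| ≤ P →
      ∑' τ : Fin d → ℕ, ENNReal.ofReal ((2 : ℝ) ^ (r * ∑ j, (τ j : ℝ)) * Er φ Cb τ ζ) ≤
        ENNReal.ofReal (CE * (P ^ r / R ^ r)) := by
  have h2r : (1 : ℝ) < 2 ^ r := Real.one_lt_rpow (by norm_num) hr
  set Y : ℝ := Cb * (1 - 2 ^ r / 2)⁻¹ with hY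
  have hY0 : 0 ≤ Y := by
    have h1 : (2 : ℝ) ^ r / 2 < 1 := by
      rw [div_lt_one (by norm_num)]
      calc (2 : ℝ) ^ r < 2 ^ (1 : ℝ) := Real.rpow_lt_rpow_of_exponent_lt (by norm_num) hr1
        _ = 2 := Real.rpow_one 2
    exact mul_nonneg hCb (inv_nonneg.2 (by linarith))
  set X0 : ℝ := 2 * C0 * (2 ^ r / (2 ^ r - 1)) * K ^ r with hX0
  have hX00 : 0 ≤ X0 := by
    have h9 : 0 ≤ (2 : ℝ) ^ r / (2 ^ r - 1) := div_nonneg (by positivity) (by linarith)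
    have h10 : 0 ≤ K ^ r := Real.rpow_nonneg (by linarith) r
    positivity
  refine ⟨d * (Y * (X0 + Y) ^ (d - 1)), by positivity, ?_⟩
  intro ζ P R hR hζ hP
  have hζ1 : ∀ j, 1 ≤ |ζ j| := fun j => hR.trans (hζ j)
  classical
  set H : Fin d → Fin d → ℕ → ℝ := fun j i s => ((2 : ℝ) ^ r) ^ s *
    (if i = j then Cb * ((2 : ℝ) ^ s)⁻¹ else 2 * |φ s (ζ i)| + Cb * ((2 : ℝ) ^ s)⁻¹) with hH
  have hH0 : ∀ j i s, 0 ≤ H j i s := by
    intro j i s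
    simp only [hH]
    split_ifs <;> positivity
  have e1 : ∀ τ : Fin d → ℕ, (2 : ℝ) ^ (r * ∑ j, (τ j : ℝ)) * Er φ Cb τ ζ =
      ∑ j, ∏ i, H j i (τ i) := by
    intro τ
    rw [prod_rpow_weight, Er, Finset.mul_sum]
    refine Finset.sum_congr rfl fun j _ => ?_
    simp only [hH]
    rw [Finset.prod_mul_distrib]
    congr 1
    rw [← Finset.mul_prod_erase Finset.univ _ (Finset.mem_univ j), if_pos rfl]
    congr 1
    refine Finset.prod_congr rfl fun i hi => ?_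
    rw [if_neg (Finset.ne_of_mem_erase hi)]
  have e2 : ∀ τ : Fin d → ℕ, ENNReal.ofReal ((2 : ℝ) ^ (r * ∑ j, (τ j : ℝ)) * Er φ Cb τ ζ) =
      ∑ j, ∏ i, ENNReal.ofReal (H j i (τ i)) := by
    intro τ
    rw [e1, ENNReal.ofReal_sum_of_nonneg (fun j _ => Finset.prod_nonneg fun i _ => hH0 j i _)]
    refine Finset.sum_congr rfl fun j _ => ?_
    rw [ENNReal.ofReal_prod_of_nonneg (fun i _ => hH0 j i _)]
  simp_rw [e2]
  rw [Summable.tsum_finsetSum (fun _ _ => ENNReal.summable)]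
  have e3 : ∀ j, ∑' τ : Fin d → ℕ, ∏ i, ENNReal.ofReal (H j i (τ i)) ≤
      ENNReal.ofReal (Y * (X0 + Y) ^ (d - 1) * (P ^ r / R ^ r)) := by
    intro j
    refine (tsum_prod_le (fun i s => ENNReal.ofReal (H j i s))).trans ?_
    have f1 : ∑' s, ENNReal.ofReal (H j j s) = ENNReal.ofReal Y := by
      simp only [hH, if_true]
      exact sum_beta r hr1 Cb hCb
    have f2 : ∀ i, i ≠ j → ∑' s, ENNReal.ofReal (H j i s) ≤ ENNReal.ofReal ((X0 + Y) * |ζ i| ^ r) := by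
      intro i hij
      simp only [hH, if_neg hij]
      have g1 : ∀ s : ℕ, ENNReal.ofReal (((2 : ℝ) ^ r) ^ s * (2 * |φ s (ζ i)| + Cb * ((2 : ℝ) ^ s)⁻¹)) =
          ENNReal.ofReal (((2 : ℝ) ^ r) ^ s * (2 * |φ s (ζ i)|)) +
          ENNReal.ofReal (((2 : ℝ) ^ r) ^ s * (Cb * ((2 : ℝ) ^ s)⁻¹)) := by
        intro s
        rw [← ENNReal.ofReal_add (by positivity) (by positivity), mul_add]
      simp_rw [g1]
      rw [ENNReal.tsum_add]
      refine (add_le_add (sum_alpha φ C0 K hC0 hK h0 hsupp r hr (ζ i) (hζ1 i))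
        (sum_beta r hr1 Cb hCb).le).trans ?_
      rw [← ENNReal.ofReal_add (mul_nonneg hX00 (by positivity)) hY0]
      refine ENNReal.ofReal_le_ofReal ?_
      have : 1 ≤ |ζ i| ^ r := Real.one_le_rpow (hζ1 i) hr.le
      nlinarith
    rw [← Finset.mul_prod_erase Finset.univ _ (Finset.mem_univ j), f1]
    have f3 : ∏ i ∈ Finset.univ.erase j, ∑' s, ENNReal.ofReal (H j i s) ≤
        ∏ i ∈ Finset.univ.erase j, ENNReal.ofReal ((X0 + Y) * |ζ i| ^ r) :=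
      Finset.prod_le_prod' fun i hi => f2 i (Finset.ne_of_mem_erase hi)
    refine (mul_le_mul' le_rfl f3).trans ?_
    rw [← ENNReal.ofReal_prod_of_nonneg (fun i _ => by positivity), ← ENNReal.ofReal_mul hY0]
    refine ENNReal.ofReal_le_ofReal ?_
    rw [Finset.prod_mul_distrib, Finset.prod_const, Finset.card_erase_of_mem (Finset.mem_univ j),
      Finset.card_univ, Fintype.card_fin, mul_assoc Y ((X0 + Y) ^ (d - 1)) (P ^ r / R ^ r)]
    refine mul_le_mul_of_nonneg_left ?_ hY0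
    refine mul_le_mul_of_nonneg_left ?_ (by positivity)
    rw [Real.finsetProd_rpow _ _ (fun i _ => abs_nonneg _)]
    have hRpos : 0 < R := by linarith
    rw [← Real.div_rpow ((Finset.prod_nonneg fun i _ => abs_nonneg _).trans hP) hRpos.le]
    refine Real.rpow_le_rpow (Finset.prod_nonneg fun i _ => abs_nonneg _) ?_ hr.le
    rw [le_div_iff₀ hRpos]
    calc (∏ i ∈ Finset.univ.erase j, |ζ i|) * R ≤ (∏ i ∈ Finset.univ.erase j, |ζ i|) * |ζ j| :=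
          mul_le_mul_of_nonneg_left (hζ j) (Finset.prod_nonneg fun i _ => abs_nonneg _)
      _ = ∏ i, |ζ i| := by rw [mul_comm, Finset.mul_prod_erase Finset.univ (fun i => |ζ i|) (Finset.mem_univ j)]
      _ ≤ P := hP
  refine (Finset.sum_le_sum fun j _ => e3 j).trans ?_
  rw [Finset.sum_const, Finset.card_univ, Fintype.card_fin, nsmul_eq_mul, ← ENNReal.ofReal_natCast,
    ← ENNReal.ofReal_mul (by positivity)]
  refine ENNReal.ofReal_le_ofReal (le_of_eq ?_)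
  ring

/-- the weight function -/
noncomputable def Wt (x : Fin d → ℝ) : ℝ := ∏ j, (1 + |x j|)⁻¹

lemma Wt_nonneg (x : Fin d → ℝ) : 0 ≤ Wt x := Finset.prod_nonneg fun j _ => by positivity

/-- the product bump -/
noncomputable def psiP (x : Fin d → ℝ) : ℝ := ∏ j, psi (x j)

/-- main part -/
noncomputable def mainF {G : Type*} (Z : Finset G) (w : G → ℝ) (z : G → Fin d → ℝ) (τ : Fin d → ℕ)
    (x : Fin d → ℝ) : ℂ :=
  ∑ m ∈ Z, ((w m * ∏ j, φ (τ j) (z m j) : ℝ) : ℂ) * ee (∑ j, z m j * x j)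

lemma piece_bound {G : Type*} (Z : Finset G) (w : G → ℝ) (z : G → Fin d → ℝ)
    (hw : ∀ m ∈ Z, 0 ≤ w m) (hsm : ∀ s, Continuous (φ s)) (C0 : ℝ)
    (h0 : ∀ s ξ, |φ s ξ| ≤ C0)
    (h1D : ∀ (s : ℕ) (ζ x : ℝ),
      ‖g1 φ s ζ x - (φ s ζ : ℂ) * ((psi x : ℂ) * ee (ζ * x))‖ ≤ Cb * (2 ^ s)⁻¹ * (1 + |x|)⁻¹)
    (τ : Fin d → ℕ) (x : Fin d → ℝ) :
    ‖lpPiece φ τ (testF Z w z) x - (psiP x : ℂ) * mainF φ Z w z τ x‖ ≤
      (∑ m ∈ Z, w m * Er φ Cb τ (z m)) * Wt x := by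
  rw [lpPiece_testF Z w z φ hsm C0 h0, mainF, Finset.mul_sum, ← Finset.sum_sub_distrib, Finset.sum_mul]
  refine (norm_sum_le _ _).trans (Finset.sum_le_sum fun m hm => ?_)
  have e1 : (psiP x : ℂ) * (((w m * ∏ j, φ (τ j) (z m j) : ℝ) : ℂ) * ee (∑ j, z m j * x j)) =
      (w m : ℂ) * ∏ j, ((φ (τ j) (z m j) : ℂ) * ((psi (x j) : ℂ) * ee (z m j * x j))) := by
    rw [Finset.prod_mul_distrib, Finset.prod_mul_distrib, ← ee_sum, psiP]
    push_cast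
    ring
  rw [e1, ← mul_sub, norm_mul, Complex.norm_real, Real.norm_of_nonneg (hw m hm), mul_assoc]
  refine mul_le_mul_of_nonneg_left ?_ (hw m hm)
  refine (norm_prod_sub_prod_le _ _ (fun j => 2 * |φ (τ j) (z m j)| * (1 + |x j|)⁻¹)
    (fun j => Cb * (2 ^ (τ j))⁻¹ * (1 + |x j|)⁻¹) ?_ ?_).trans (le_of_eq ?_)
  · intro j
    rw [norm_mul, norm_mul, norm_ee, mul_one, Complex.norm_real, Complex.norm_real, Real.norm_eq_abs,
      Real.norm_of_nonneg (psi_nonneg _)]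
    have hpos : (0 : ℝ) < 1 + |x j| := by positivity
    have : psi (x j) ≤ 2 * (1 + |x j|)⁻¹ := by
      rw [← div_eq_mul_inv, le_div_iff₀ hpos]
      by_cases hx : 0 ≤ x j ∧ x j ≤ 1
      · rw [abs_of_nonneg hx.1]
        have := psi_le_one (x j)
        have := psi_nonneg (x j)
        nlinarith [hx.1, hx.2]
      · rw [psi_eq_zero hx]
        simp
    calc |φ (τ j) (z m j)| * psi (x j) ≤ |φ (τ j) (z m j)| * (2 * (1 + |x j|)⁻¹) :=
          mul_le_mul_of_nonneg_left this (abs_nonneg _)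
      _ = _ := by ring
  · intro j
    exact h1D _ _ _
  · unfold Er Wt
    rw [Finset.sum_mul]
    refine Finset.sum_congr rfl fun j _ => ?_
    rw [← Finset.mul_prod_erase Finset.univ (fun j => (1 + |x j|)⁻¹) (Finset.mem_univ j)]
    have : ∀ i, 2 * |φ (τ i) (z m i)| * (1 + |x i|)⁻¹ + Cb * (2 ^ τ i)⁻¹ * (1 + |x i|)⁻¹ =
        (2 * |φ (τ i) (z m i)| + Cb * (2 ^ τ i)⁻¹) * (1 + |x i|)⁻¹ := fun i => by ring
    simp_rw [this]
    rw [Finset.prod_mul_distrib]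
    ring

end

end Pool.Agent.Helper64.Frolov
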