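import Mathlib
import Pool.Agent.Helper64.Frolov.S

open MeasureTheory Real
open scoped ENNReal ContDiff

namespace Pool.Agent.Helper64.Frolov

section
variable {d : ℕ}

/-- the unit cube -/
def cube (d : ℕ) : Set (Fin d → ℝ) := {x | ∀ j, 0 ≤ x j ∧ x j ≤ 1}

lemma measurableSet_cube : MeasurableSet (cube d) := by
  have : cube d = ⋂ j, {x : Fin d → ℝ | 0 ≤ x j ∧ x j ≤ 1} := by
    ext x; simp [cube]
  rw [this]
  refine MeasurableSet.iInter fun j => ?_
  exact (measurableSet_le measurable_const (measurable_pi_apply j)).inter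
    (measurableSet_le (measurable_pi_apply j) measurable_const)

lemma volume_cube : volume (cube d) = 1 := by
  have : cube d = Set.Icc (fun _ => 0) (fun _ => 1) := by
    ext x
    simp only [cube, Set.mem_ofPred_eq, Set.mem_Icc, Pi.le_def]
    constructor
    · intro h; exact ⟨fun j => (h j).1, fun j => (h j).2⟩
    · intro h j; exact ⟨h.1 j, h.2 j⟩
  rw [this, Real.volume_Icc_pi]
  simp

lemma psiP_zero {x : Fin d → ℝ} (hx : x ∉ cube d) : psiP x = 0 := by
  unfold cube at hx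
  simp only [Set.mem_ofPred_eq, not_forall] at hx
  obtain ⟨j, hj⟩ := hx
  exact Finset.prod_eq_zero (Finset.mem_univ j) (psi_eq_zero hj)

lemma psiP_nonneg (x : Fin d → ℝ) : 0 ≤ psiP x := Finset.prod_nonneg fun j _ => psi_nonneg _

lemma psiP_le_one (x : Fin d → ℝ) : psiP x ≤ 1 :=
  Finset.prod_le_one (fun j _ => psi_nonneg _) fun j _ => psi_le_one _

lemma integrable_Wt_rpow (p : ℝ) (hp : 1 < p) : Integrable (fun x : Fin d → ℝ => (Wt x) ^ p) := by
  have h1 : Integrable (fun t : ℝ => (1 + |t|) ^ (-p)) := by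
    have := integrable_one_add_norm (E := ℝ) (μ := volume) (r := p) (by simpa using hp)
    simpa [Real.norm_eq_abs] using this
  have h2 := Integrable.fintype_prod (f := fun (_ : Fin d) (t : ℝ) => (1 + |t|) ^ (-p)) (fun _ => h1)
  refine h2.congr (Filter.Eventually.of_forall fun x => ?_)
  dsimp only
  unfold Wt
  rw [← Real.finsetProd_rpow _ _ (fun i _ => by positivity)]
  refine Finset.prod_congr rfl fun j _ => ?_
  rw [Real.rpow_neg (by positivity), Real.inv_rpow (by positivity)]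

lemma measurable_Wt : Measurable (Wt : (Fin d → ℝ) → ℝ) := by
  unfold Wt
  refine Finset.measurable_prod _ fun j _ => ?_
  exact ((measurable_const.add (measurable_pi_apply j).abs)).inv

lemma continuous_mainF {G : Type*} (φ : ℕ → ℝ → ℝ) (Z : Finset G) (w : G → ℝ) (z : G → Fin d → ℝ)
    (τ : Fin d → ℕ) : Continuous (mainF φ Z w z τ) := by
  unfold mainF
  refine continuous_finsetSum _ fun m _ => continuous_const.mul (continuous_ee.comp ?_)
  exact continuous_finsetSum _ fun j _ => continuous_const.mul (continuous_apply j)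

lemma rpow_le_add_pow (t : ℝ) (ht : 0 ≤ t) (q : ℝ) (k : ℕ) (hq0 : 0 ≤ q) (hq : q ≤ k) :
    t ^ q ≤ 1 + t ^ k := by
  rcases le_total t 1 with h | h
  · have : t ^ q ≤ 1 := Real.rpow_le_one ht h hq0
    have : 0 ≤ t ^ k := by positivity
    linarith
  · have : t ^ q ≤ t ^ (k : ℝ) := Real.rpow_le_rpow_of_exponent_le h hq
    rw [Real.rpow_natCast] at this
    linarith

theorem mixedNorm_testF_le (φ : ℕ → ℝ → ℝ) (hφ : IsDyadicResolution φ) (p r : ℝ) (hp : 2 < p)
    (hr : 0 < r) (hr1 : r < 1) (k : ℕ) (hk : p / 2 ≤ k) :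
    ∃ C : ℝ, 0 ≤ C ∧ ∀ {G : Type} (Z : Finset G) (w : G → ℝ) (z : G → Fin d → ℝ) (P R M : ℝ),
      (∀ m ∈ Z, 0 ≤ w m) → 1 ≤ R → (∀ m ∈ Z, ∀ j, R ≤ |z m j|) → (∀ m ∈ Z, ∏ j, |z m j| ≤ P) →
      ∀ 𝒯 : Finset (Fin d → ℕ), (∀ τ, τ ∉ 𝒯 → ∀ m ∈ Z, ∏ j, φ (τ j) (z m j) = 0) →
      0 < M →
      (∫ x in cube d, (∑ τ ∈ 𝒯, ((2 : ℝ) ^ (r * ∑ j, (τ j : ℝ))) ^ 2 *
        ‖mainF φ Z w z τ x‖ ^ 2) ^ k ≤ M ^ k) →
      mixedNorm φ p r (testF Z w z) ≤
        ENNReal.ofReal (C * (√M + (∑ m ∈ Z, w m) * (P ^ r / R ^ r))) := by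
  -- constants from the resolution
  obtain ⟨K, hK0, hK1⟩ := hφ.support
  obtain ⟨C0, hC0⟩ := hφ.deriv_bound 0
  obtain ⟨C1, hC1⟩ := hφ.deriv_bound 1
  have hC0' : ∀ s ξ, |φ s ξ| ≤ C0 := by
    intro s ξ
    have := hC0 s ξ
    simpa using this
  have hC1' : ∀ s ξ, |deriv (φ s) ξ| ≤ C1 * (2 ^ s)⁻¹ := by
    intro s ξ
    have := hC1 s ξ
    simpa [div_eq_mul_inv] using this
  have hC00 : 0 ≤ C0 := (abs_nonneg _).trans (hC0' 0 0)
  obtain ⟨Cb, hCb, h1D⟩ := oneD φ hφ.smooth C0 C1 hC0' hC1'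
  set K' : ℝ := max K 1 with hK'
  have hsupp : ∀ s, 1 ≤ s → ∀ ξ, K' * |ξ| < 2 ^ s → φ s ξ = 0 := by
    intro s hs ξ hξ
    refine hK1 s hs ξ (Or.inl ?_)
    refine lt_of_le_of_lt ?_ hξ
    exact mul_le_mul_of_nonneg_right (le_max_left _ _) (abs_nonneg _)
  obtain ⟨CE, hCE, hEr⟩ := sum_Er (d := d) φ Cb C0 K' hC00 (le_max_right _ _) hCb hC0' hsupp r hr hr1
  have hp0 : 0 < p := by linarith
  have hp2 : 1 ≤ p / 2 := by linarith
  set J : ℝ := ∫ x : Fin d → ℝ, (Wt x) ^ p with hJ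
  have hJ0 : 0 ≤ J := integral_nonneg fun x => Real.rpow_nonneg (Wt_nonneg x) p
  set B : ℝ := 2 ^ (p / 2 - 1) * 2 ^ (p / 2) * (2 + J) with hB
  have hB0 : 0 ≤ B := by positivity
  refine ⟨B ^ (1 / p) * (1 + CE), by positivity, ?_⟩
  intro G Z w z P R M hw hR hz hP 𝒯 h𝒯 hM hint
  have hWs : 0 ≤ ∑ m ∈ Z, w m := Finset.sum_nonneg hw
  rcases Z.eq_empty_or_nonempty with hZe | ⟨m0, hm0⟩
  · -- trivial case
    subst hZe
    have h0 : ∀ s x, lpPiece φ s (testF (∅ : Finset G) w z) x = 0 := by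
      intro s x
      rw [lpPiece_testF (∅ : Finset G) w z φ (fun s => (hφ.smooth s).continuous) C0 hC0']
      simp
    unfold mixedNorm
    simp_rw [h0]
    have : (∫⁻ x : Fin d → ℝ, (∑' s : Fin d → ℕ,
      (ENNReal.ofReal (2 ^ (r * ∑ j, (s j : ℝ))) * ‖(0 : ℂ)‖ₑ) ^ 2) ^ (p / 2)) = 0 := by
      simp [ENNReal.zero_rpow_of_pos (by linarith : 0 < p / 2)]
    rw [this, ENNReal.zero_rpow_of_pos (by positivity)]
    exact zero_le
  have hPpos : 0 ≤ P := (Finset.prod_nonneg fun j _ => abs_nonneg _).trans (hP m0 hm0)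
  have hRr : 0 < R ^ r := Real.rpow_pos_of_pos (by linarith) r
  have hPR : 0 ≤ P ^ r / R ^ r := div_nonneg (Real.rpow_nonneg hPpos r) hRr.le
  set δ : ℝ := (∑ m ∈ Z, w m) * (CE * (P ^ r / R ^ r)) with hδ
  have hδ0 : 0 ≤ δ := by positivity
  set wt : (Fin d → ℕ) → ℝ := fun τ => (2 : ℝ) ^ (r * ∑ j, (τ j : ℝ)) with hwt
  have hwt0 : ∀ τ, 0 ≤ wt τ := fun τ => by simp only [hwt]; positivity
  set Gx : (Fin d → ℝ) → ℝ := fun x => ∑ τ ∈ 𝒯, (wt τ) ^ 2 * ‖mainF φ Z w z τ x‖ ^ 2 with hGx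
  have hGx0 : ∀ x, 0 ≤ Gx x := fun x => Finset.sum_nonneg fun τ _ => by positivity
  have hGc : Continuous Gx := by
    simp only [hGx]
    exact continuous_finsetSum _ fun τ _ => continuous_const.mul ((continuous_mainF φ Z w z τ).norm.pow 2)
  -- error sum
  have herr : ∑' τ : Fin d → ℕ, ENNReal.ofReal (wt τ * ∑ m ∈ Z, w m * Er φ Cb τ (z m)) ≤
      ENNReal.ofReal δ := by
    have e1 : ∀ τ, ENNReal.ofReal (wt τ * ∑ m ∈ Z, w m * Er φ Cb τ (z m)) =
        ∑ m ∈ Z, ENNReal.ofReal (w m) * ENNReal.ofReal (wt τ * Er φ Cb τ (z m)) := by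
      intro τ
      rw [Finset.mul_sum, ENNReal.ofReal_sum_of_nonneg]
      · refine Finset.sum_congr rfl fun m hm => ?_
        rw [← ENNReal.ofReal_mul (hw m hm)]
        congr 1; ring
      · intro m hm
        exact mul_nonneg (hwt0 τ) (mul_nonneg (hw m hm) (Er_nonneg φ Cb hCb τ _))
    simp_rw [e1]
    rw [Summable.tsum_finsetSum (fun _ _ => ENNReal.summable)]
    have e2 : ∀ m ∈ Z, ∑' τ : Fin d → ℕ, ENNReal.ofReal (w m) * ENNReal.ofReal (wt τ * Er φ Cb τ (z m)) ≤
        ENNReal.ofReal (w m * (CE * (P ^ r / R ^ r))) := by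
      intro m hm
      rw [ENNReal.tsum_mul_left, ENNReal.ofReal_mul (hw m hm)]
      exact mul_le_mul' le_rfl (hEr (z m) P R hR (hz m hm) (hP m hm))
    refine (Finset.sum_le_sum e2).trans ?_
    rw [← ENNReal.ofReal_sum_of_nonneg (fun m hm => mul_nonneg (hw m hm) (by positivity)),
      ← Finset.sum_mul]
  -- pointwise bound
  have hpt : ∀ x : Fin d → ℝ, (∑' s : Fin d → ℕ,
      (ENNReal.ofReal (wt s) * ‖lpPiece φ s (testF Z w z) x‖ₑ) ^ 2) ≤
      2 * (cube d).indicator (fun x => ENNReal.ofReal (Gx x)) x +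
        2 * (ENNReal.ofReal δ * ENNReal.ofReal (Wt x)) ^ 2 := by
    intro x
    have e1 : ∀ s : Fin d → ℕ, (ENNReal.ofReal (wt s) * ‖lpPiece φ s (testF Z w z) x‖ₑ) ^ 2 ≤
        2 * ENNReal.ofReal ((wt s) ^ 2 * ‖(psiP x : ℂ) * mainF φ Z w z s x‖ ^ 2) +
        2 * (ENNReal.ofReal (wt s * ∑ m ∈ Z, w m * Er φ Cb s (z m)) * ENNReal.ofReal (Wt x)) ^ 2 := by
      intro s
      have b0 := piece_bound φ Cb Z w z hw (fun s => (hφ.smooth s).continuous) C0 hC0' h1D s x
      set a : ℝ := ‖lpPiece φ s (testF Z w z) x‖ with ha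
      set b : ℝ := ‖(psiP x : ℂ) * mainF φ Z w z s x‖ with hb
      set c : ℝ := (∑ m ∈ Z, w m * Er φ Cb s (z m)) * Wt x with hc
      have hEs : 0 ≤ ∑ m ∈ Z, w m * Er φ Cb s (z m) :=
        Finset.sum_nonneg fun m hm => mul_nonneg (hw m hm) (Er_nonneg φ Cb hCb s _)
      have hc0 : 0 ≤ c := mul_nonneg hEs (Wt_nonneg x)
      have hab : a ≤ b + c := by
        have : lpPiece φ s (testF Z w z) x = (psiP x : ℂ) * mainF φ Z w z s x +
          (lpPiece φ s (testF Z w z) x - (psiP x : ℂ) * mainF φ Z w z s x) := by ring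
        rw [ha, this]
        exact (norm_add_le _ _).trans (add_le_add le_rfl b0)
      have ha0 : 0 ≤ a := norm_nonneg _
      have hb0 : 0 ≤ b := norm_nonneg _
      have h2 : (wt s * a) ^ 2 ≤ 2 * ((wt s) ^ 2 * b ^ 2) + 2 * (wt s * c) ^ 2 := by
        have h3 : a ^ 2 ≤ 2 * b ^ 2 + 2 * c ^ 2 := by nlinarith [sq_nonneg (b - c)]
        have := sq_nonneg (wt s)
        nlinarith
      have e3 : (ENNReal.ofReal (wt s) * ‖lpPiece φ s (testF Z w z) x‖ₑ) ^ 2 =
          ENNReal.ofReal ((wt s * a) ^ 2) := by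
        rw [← ofReal_norm, ← ENNReal.ofReal_mul (hwt0 s), ← ENNReal.ofReal_pow (by
          exact mul_nonneg (hwt0 s) (norm_nonneg _))]
      have e4 : 2 * (ENNReal.ofReal (wt s * ∑ m ∈ Z, w m * Er φ Cb s (z m)) * ENNReal.ofReal (Wt x)) ^ 2 =
          ENNReal.ofReal (2 * (wt s * c) ^ 2) := by
        rw [← ENNReal.ofReal_mul (mul_nonneg (hwt0 s) hEs), ← ENNReal.ofReal_pow (mul_nonneg
          (mul_nonneg (hwt0 s) hEs) (Wt_nonneg x)), ENNReal.ofReal_mul (by norm_num : (0:ℝ) ≤ 2)]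
        simp only [ENNReal.ofReal_ofNat]
        rw [hc]
        congr 3
        ring
      have e5 : 2 * ENNReal.ofReal ((wt s) ^ 2 * b ^ 2) = ENNReal.ofReal (2 * ((wt s) ^ 2 * b ^ 2)) := by
        rw [ENNReal.ofReal_mul (by norm_num : (0:ℝ) ≤ 2)]
        simp only [ENNReal.ofReal_ofNat]
      rw [e3, e4, e5, ← ENNReal.ofReal_add (by positivity) (by positivity)]
      exact ENNReal.ofReal_le_ofReal h2
    refine (ENNReal.tsum_le_tsum e1).trans ?_
    rw [ENNReal.tsum_add, ENNReal.tsum_mul_left, ENNReal.tsum_mul_left]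
    refine add_le_add (mul_le_mul' le_rfl ?_) (mul_le_mul' le_rfl ?_)
    · by_cases hx : x ∈ cube d
      · rw [Set.indicator_of_mem hx]
        have hz0 : ∀ s, s ∉ 𝒯 →
            ENNReal.ofReal ((wt s) ^ 2 * ‖(psiP x : ℂ) * mainF φ Z w z s x‖ ^ 2) = 0 := by
          intro s hs
          have : mainF φ Z w z s x = 0 := by
            unfold mainF
            refine Finset.sum_eq_zero fun m hm => ?_
            rw [h𝒯 s hs m hm]
            simp
          rw [this]; simp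
        rw [tsum_eq_sum hz0, ← ENNReal.ofReal_sum_of_nonneg (fun τ _ => by positivity)]
        refine ENNReal.ofReal_le_ofReal (Finset.sum_le_sum fun τ _ => ?_)
        refine mul_le_mul_of_nonneg_left ?_ (by positivity)
        refine pow_le_pow_left₀ (norm_nonneg _) ?_ 2
        rw [norm_mul, Complex.norm_real, Real.norm_of_nonneg (psiP_nonneg x)]
        exact mul_le_of_le_one_left (norm_nonneg _) (psiP_le_one x)
      · rw [Set.indicator_of_notMem hx]
        simp_rw [psiP_zero hx]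
        simp
    · simp_rw [mul_pow]
      rw [ENNReal.tsum_mul_right]
      refine mul_le_mul' ?_ le_rfl
      refine le_trans ?_ (pow_le_pow_left' herr 2)
      rw [sq, ← ENNReal.tsum_mul_left]
      refine ENNReal.tsum_le_tsum fun τ => ?_
      rw [sq]
      exact mul_le_mul' (ENNReal.le_tsum τ) le_rfl
  -- integrate
  have hmW : Measurable (fun x : Fin d → ℝ => (2 * (ENNReal.ofReal δ * ENNReal.ofReal (Wt x)) ^ 2) ^ (p / 2)) := by
    exact ((((measurable_Wt.ennreal_ofReal).const_mul _).pow_const 2).const_mul _).pow_const _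
  have hI1 : ∫⁻ x : Fin d → ℝ, (2 * (cube d).indicator (fun x => ENNReal.ofReal (Gx x)) x) ^ (p / 2) ≤
      ENNReal.ofReal (2 ^ (p / 2) * (2 * M ^ (p / 2))) := by
    have e1 : ∀ x : Fin d → ℝ, (2 * (cube d).indicator (fun x => ENNReal.ofReal (Gx x)) x) ^ (p / 2) =
        (cube d).indicator (fun x => ENNReal.ofReal (2 ^ (p / 2) * (Gx x) ^ (p / 2))) x := by
      intro x
      by_cases hx : x ∈ cube d
      · rw [Set.indicator_of_mem hx, Set.indicator_of_mem hx,
          ← Real.mul_rpow (by norm_num) (hGx0 x), ← ENNReal.ofReal_rpow_of_nonneg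
          (mul_nonneg (by norm_num) (hGx0 x)) (by linarith), ENNReal.ofReal_mul (by norm_num)]
        simp only [ENNReal.ofReal_ofNat]
      · rw [Set.indicator_of_notMem hx, Set.indicator_of_notMem hx, mul_zero,
          ENNReal.zero_rpow_of_pos (by linarith)]
    simp_rw [e1]
    rw [lintegral_indicator measurableSet_cube]
    have e2 : ∀ x : Fin d → ℝ, ENNReal.ofReal (2 ^ (p / 2) * (Gx x) ^ (p / 2)) ≤
        ENNReal.ofReal (2 ^ (p / 2) * M ^ (p / 2) * (1 + (Gx x) ^ k / M ^ k)) := by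
      intro x
      refine ENNReal.ofReal_le_ofReal ?_
      rw [mul_assoc]
      refine mul_le_mul_of_nonneg_left ?_ (by positivity)
      have h3 := rpow_le_add_pow (Gx x / M) (div_nonneg (hGx0 x) hM.le) (p / 2) k (by linarith) hk
      rw [Real.div_rpow (hGx0 x) hM.le, div_pow, div_le_iff₀ (Real.rpow_pos_of_pos hM _)] at h3
      linarith
    refine (lintegral_mono e2).trans ?_
    have hGk : IntegrableOn (fun x => (Gx x) ^ k) (cube d) := by
      have hcomp : IsCompact (cube d) := by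
        have : cube d = Set.Icc (fun _ => 0) (fun _ => 1) := by
          ext x
          simp only [cube, Set.mem_ofPred_eq, Set.mem_Icc, Pi.le_def]
          constructor
          · intro h; exact ⟨fun j => (h j).1, fun j => (h j).2⟩
          · intro h j; exact ⟨h.1 j, h.2 j⟩
        rw [this]
        exact isCompact_Icc
      exact (hGc.pow k).continuousOn.integrableOn_compact hcomp
    have hone : IntegrableOn (fun _ : Fin d → ℝ => (1 : ℝ)) (cube d) := by
      rw [integrableOn_const_iff]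
      right
      rw [volume_cube]
      exact ENNReal.one_lt_top
    have hInt : IntegrableOn (fun x => 2 ^ (p / 2) * M ^ (p / 2) * (1 + (Gx x) ^ k / M ^ k)) (cube d) :=
      (Integrable.add hone (hGk.div_const _)).const_mul _
    rw [← ofReal_integral_eq_lintegral_ofReal hInt (Filter.Eventually.of_forall fun x => by
      have := hGx0 x
      dsimp only [Pi.zero_apply]
      positivity)]
    refine ENNReal.ofReal_le_ofReal ?_
    rw [integral_const_mul, mul_assoc]
    refine mul_le_mul_of_nonneg_left ?_ (by positivity)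
    rw [mul_comm 2]
    refine mul_le_mul_of_nonneg_left ?_ (by positivity)
    rw [integral_add hone (hGk.div_const _), integral_div]
    have e3 : ∫ _x in cube d, (1 : ℝ) = 1 := by
      rw [setIntegral_const, Measure.real, volume_cube]
      simp
    rw [e3]
    have e4 : (∫ x in cube d, (Gx x) ^ k) / M ^ k ≤ 1 := by
      rw [div_le_one (by positivity)]
      exact hint
    linarith
  have hI2 : ∫⁻ x : Fin d → ℝ, (2 * (ENNReal.ofReal δ * ENNReal.ofReal (Wt x)) ^ 2) ^ (p / 2) =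
      ENNReal.ofReal (2 ^ (p / 2) * (δ ^ p * J)) := by
    have e1 : ∀ x : Fin d → ℝ, (2 * (ENNReal.ofReal δ * ENNReal.ofReal (Wt x)) ^ 2) ^ (p / 2) =
        ENNReal.ofReal (2 ^ (p / 2) * δ ^ p * (Wt x) ^ p) := by
      intro x
      have hW := Wt_nonneg x
      rw [← ENNReal.ofReal_mul hδ0, ← ENNReal.ofReal_pow (by positivity)]
      have : (2 : ℝ≥0∞) = ENNReal.ofReal 2 := by simp
      rw [this, ← ENNReal.ofReal_mul (by norm_num), ENNReal.ofReal_rpow_of_nonneg (by positivity) (by linarith)]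
      congr 1
      rw [Real.mul_rpow (by norm_num) (by positivity), mul_assoc (2 ^ (p / 2)) (δ ^ p) (Wt x ^ p),
        ← Real.mul_rpow hδ0 hW]
      congr 1
      rw [← Real.rpow_natCast, ← Real.rpow_mul (by positivity)]
      congr 1
      push_cast
      ring
    simp_rw [e1]
    rw [← ofReal_integral_eq_lintegral_ofReal ((integrable_Wt_rpow p (by linarith)).const_mul _)
      (Filter.Eventually.of_forall fun x => by
        have := Wt_nonneg x
        dsimp only [Pi.zero_apply]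
        positivity), integral_const_mul]
    congr 1
    ring
  have htot : ∫⁻ x : Fin d → ℝ, (∑' s : Fin d → ℕ,
      (ENNReal.ofReal (wt s) * ‖lpPiece φ s (testF Z w z) x‖ₑ) ^ 2) ^ (p / 2) ≤
      ENNReal.ofReal (B * (√M + δ) ^ p) := by
    have e1 : ∀ x : Fin d → ℝ, (∑' s : Fin d → ℕ,
      (ENNReal.ofReal (wt s) * ‖lpPiece φ s (testF Z w z) x‖ₑ) ^ 2) ^ (p / 2) ≤
      2 ^ (p / 2 - 1) * ((2 * (cube d).indicator (fun x => ENNReal.ofReal (Gx x)) x) ^ (p / 2) +
        (2 * (ENNReal.ofReal δ * ENNReal.ofReal (Wt x)) ^ 2) ^ (p / 2)) := by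
      intro x
      refine (ENNReal.rpow_le_rpow (hpt x) (by linarith)).trans ?_
      exact ENNReal.rpow_add_le_mul_rpow_add_rpow _ _ hp2
    refine (lintegral_mono e1).trans ?_
    rw [lintegral_const_mul' _ _ (ENNReal.rpow_ne_top_of_nonneg (by linarith) (by norm_num)),
      lintegral_add_right _ hmW, hI2]
    refine (mul_le_mul' le_rfl (add_le_add hI1 le_rfl)).trans ?_
    have hMp : 0 ≤ M ^ (p / 2) := Real.rpow_nonneg hM.le _
    have hδp : 0 ≤ δ ^ p := Real.rpow_nonneg hδ0 _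
    rw [← ENNReal.ofReal_add (by positivity) (by positivity)]
    have : (2 : ℝ≥0∞) ^ (p / 2 - 1) = ENNReal.ofReal (2 ^ (p / 2 - 1)) := by
      rw [← ENNReal.ofReal_rpow_of_pos (by norm_num)]
      simp
    rw [this, ← ENNReal.ofReal_mul (by positivity)]
    refine ENNReal.ofReal_le_ofReal ?_
    have h1 : M ^ (p / 2) ≤ (√M + δ) ^ p := by
      rw [Real.rpow_div_two_eq_sqrt _ hM.le]
      exact Real.rpow_le_rpow (Real.sqrt_nonneg _) (by linarith) hp0.le
    have h2 : δ ^ p ≤ (√M + δ) ^ p :=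
      Real.rpow_le_rpow hδ0 (by have := Real.sqrt_nonneg M; linarith) hp0.le
    have h3 : 2 ^ (p / 2) * (2 * M ^ (p / 2)) + 2 ^ (p / 2) * (δ ^ p * J) ≤
        2 ^ (p / 2) * ((2 + J) * (√M + δ) ^ p) := by
      rw [← mul_add]
      refine mul_le_mul_of_nonneg_left ?_ (by positivity)
      nlinarith
    calc 2 ^ (p / 2 - 1) * (2 ^ (p / 2) * (2 * M ^ (p / 2)) + 2 ^ (p / 2) * (δ ^ p * J))
        ≤ 2 ^ (p / 2 - 1) * (2 ^ (p / 2) * ((2 + J) * (√M + δ) ^ p)) :=
          mul_le_mul_of_nonneg_left h3 (by positivity)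
      _ = _ := by rw [hB]; ring
  unfold mixedNorm
  refine (ENNReal.rpow_le_rpow htot (by positivity)).trans ?_
  have hsM := Real.sqrt_nonneg M
  rw [ENNReal.ofReal_rpow_of_nonneg (by positivity) (by positivity)]
  refine ENNReal.ofReal_le_ofReal ?_
  rw [Real.mul_rpow hB0 (by positivity), ← Real.rpow_mul (by positivity), mul_one_div_cancel hp0.ne',
    Real.rpow_one, mul_assoc]
  refine mul_le_mul_of_nonneg_left ?_ (by positivity)
  rw [hδ]
  have h5 : 0 ≤ (∑ m ∈ Z, w m) * (P ^ r / R ^ r) := by positivity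
  nlinarith

end

end Pool.Agent.Helper64.Frolov
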