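import Mathlib
import Pool.Agent.Helper64.Frolov.O
import Pool.Agent.Helper64.Frolov.T

open MeasureTheory Real
open scoped ENNReal ContDiff Matrix

namespace Pool.Agent.Helper64.Frolov

section
variable {d : ℕ}

/-- characters on the cube -/
noncomputable def chi (m : Fin d → ℤ) (u : Fin d → ℝ) : ℂ := ee (∑ j, (m j : ℝ) * u j)

lemma cube_eq_pi : cube d = Set.univ.pi (fun _ => Set.Icc (0 : ℝ) 1) := by
  ext x
  simp only [cube, Set.mem_ofPred_eq, Set.mem_pi, Set.mem_univ, true_implies, Set.mem_Icc]

lemma continuous_chi (m : Fin d → ℤ) : Continuous (chi m) := by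
  unfold chi
  exact continuous_ee.comp (continuous_finsetSum _ fun j _ => continuous_const.mul (continuous_apply j))

lemma integral_ee_int (n : ℤ) (hn : n ≠ 0) : ∫ t in Set.Icc (0 : ℝ) 1, ee ((n : ℝ) * t) = 0 := by
  rw [integral_Icc_eq_integral_Ioc, ← intervalIntegral.integral_of_le (by norm_num)]
  have hc : (2 * (Real.pi : ℂ) * n * Complex.I) ≠ 0 := by
    have : (Real.pi : ℂ) ≠ 0 := by exact_mod_cast Real.pi_ne_zero
    have : (n : ℂ) ≠ 0 := by exact_mod_cast hn
    simp_all
  have h1 : ∀ t : ℝ, ee ((n : ℝ) * t) = Complex.exp ((2 * (Real.pi : ℂ) * n * Complex.I) * t) := by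
    intro t
    unfold ee
    congr 1
    push_cast
    ring
  simp_rw [h1]
  rw [integral_exp_mul_complex hc]
  have h2 : Complex.exp (2 * (Real.pi : ℂ) * n * Complex.I * (1 : ℝ)) = 1 := by
    rw [Complex.exp_eq_one_iff]
    exact ⟨n, by push_cast; ring⟩
  rw [h2]
  simp

lemma charSys : CharSys (volume.restrict (cube d)) (chi (d := d)) where
  meas g := (continuous_chi g).measurable
  zero x := by simp [chi, ee_zero]
  add g h x := by
    unfold chi
    rw [← ee_add, ← Finset.sum_add_distrib]
    congr 1
    refine Finset.sum_congr rfl fun j _ => ?_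
    simp only [Pi.add_apply]
    push_cast
    ring
  neg g x := by
    unfold chi
    rw [← ee_neg, ← Finset.sum_neg_distrib]
    congr 1
    refine Finset.sum_congr rfl fun j _ => ?_
    simp only [Pi.neg_apply]
    push_cast
    ring
  int g hg := by
    unfold chi
    simp_rw [ee_sum]
    rw [cube_eq_pi, volume_pi, Measure.restrict_pi_pi]
    rw [integral_fintype_prod_eq_prod (fun (j : Fin d) (t : ℝ) => ee ((g j : ℝ) * t))]
    have : ∃ j, g j ≠ 0 := by
      by_contra hcon
      push Not at hcon
      exact hg (funext hcon)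
    obtain ⟨j, hj⟩ := this
    exact Finset.prod_eq_zero (Finset.mem_univ j) (integral_ee_int (g j) hj)

instance : IsProbabilityMeasure (volume.restrict (cube d)) := ⟨by
  rw [Measure.restrict_apply MeasurableSet.univ, Set.univ_inter, volume_cube]⟩

/-- covering a big cube by unit cubes -/
lemma lintegral_periodic_le (H : (Fin d → ℝ) → ℝ≥0∞) (hH : Measurable H)
    (hper : ∀ (v : Fin d → ℤ) x, H (fun j => x j + v j) = H x) (R : ℕ) :
    ∫⁻ y in {y : Fin d → ℝ | ∀ j, |y j| ≤ R}, H y ≤
      ((2 * R + 1 : ℕ) : ℝ≥0∞) ^ d * ∫⁻ y in cube d, H y := by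
  classical
  set V : Finset (Fin d → ℤ) := Fintype.piFinset (fun _ => Finset.Icc (-(R : ℤ)) R) with hV
  have hcard : V.card = (2 * R + 1) ^ d := by
    rw [hV, Fintype.card_piFinset]
    simp only [Int.card_Icc, Finset.prod_const, Finset.card_univ, Fintype.card_fin]
    congr 1
    omega
  have hset : MeasurableSet {y : Fin d → ℝ | ∀ j, |y j| ≤ R} := by
    have : {y : Fin d → ℝ | ∀ j, |y j| ≤ R} = ⋂ j, {y : Fin d → ℝ | |y j| ≤ R} := by
      ext x; simp
    rw [this]
    exact MeasurableSet.iInter fun j => measurableSet_le (measurable_pi_apply j).abs measurable_const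
  rw [← lintegral_indicator hset]
  have hpt : ∀ y : Fin d → ℝ, ({y : Fin d → ℝ | ∀ j, |y j| ≤ R}).indicator H y ≤
      ∑ v ∈ V, (cube d).indicator H (fun j => y j - v j) := by
    intro y
    by_cases hy : y ∈ {y : Fin d → ℝ | ∀ j, |y j| ≤ R}
    · rw [Set.indicator_of_mem hy]
      have hv : (fun j => ⌊y j⌋) ∈ V := by
        rw [hV, Fintype.mem_piFinset]
        intro j
        rw [Finset.mem_Icc]
        have h1 := abs_le.1 (hy j)
        constructor
        · rw [Int.le_floor]; push_cast; exact h1.1
        · have : (⌊y j⌋ : ℝ) ≤ y j := Int.floor_le _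
          exact_mod_cast this.trans h1.2
      refine le_trans ?_ (Finset.single_le_sum (f := fun v : Fin d → ℤ =>
        (cube d).indicator H (fun j => y j - v j)) (fun _ _ => zero_le) hv)
      have hmem : (fun j => y j - ((⌊y j⌋ : ℤ) : ℝ)) ∈ cube d := by
        intro j
        have h1 : (⌊y j⌋ : ℝ) ≤ y j := Int.floor_le _
        have h2 : y j < ⌊y j⌋ + 1 := Int.lt_floor_add_one _
        constructor
        · linarith
        · linarith
      rw [Set.indicator_of_mem hmem]
      have h3 := hper (fun j => ⌊y j⌋) (fun j => y j - ((⌊y j⌋ : ℤ) : ℝ))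
      rw [← h3]
      refine le_of_eq ?_
      congr 1
      funext j
      ring
    · rw [Set.indicator_of_notMem hy]
      exact zero_le
  refine (lintegral_mono hpt).trans ?_
  rw [lintegral_finsetSum]
  · have h1 : ∀ v ∈ V, ∫⁻ y : Fin d → ℝ, (cube d).indicator H (fun j => y j - v j) =
        ∫⁻ y in cube d, H y := by
      intro v _
      have := lintegral_sub_right_eq_self (μ := (volume : Measure (Fin d → ℝ)))
        ((cube d).indicator H) (fun j => (v j : ℝ))
      rw [← lintegral_indicator measurableSet_cube, ← this]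
      rfl
    rw [Finset.sum_congr rfl h1, Finset.sum_const, hcard, nsmul_eq_mul]
    push_cast
    exact le_rfl
  · intro v _
    refine (hH.indicator measurableSet_cube).comp ?_
    exact measurable_pi_lambda _ fun j => (measurable_pi_apply j).sub measurable_const

/-- linear change of variables for periodic functions -/
lemma lintegral_comp_matrix_le (M : Matrix (Fin d) (Fin d) ℝ) (hM : M.det ≠ 0)
    (H : (Fin d → ℝ) → ℝ≥0∞) (hH : Measurable H)
    (hper : ∀ (v : Fin d → ℤ) x, H (fun j => x j + v j) = H x) (R : ℕ)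
    (hR : ∀ x ∈ cube d, ∀ j, |(M *ᵥ x) j| ≤ R) :
    ∫⁻ x in cube d, H (M *ᵥ x) ≤
      ENNReal.ofReal (|M.det|⁻¹ * (2 * R + 1) ^ d) * ∫⁻ y in cube d, H y := by
  have hset : MeasurableSet {y : Fin d → ℝ | ∀ j, |y j| ≤ R} := by
    have : {y : Fin d → ℝ | ∀ j, |y j| ≤ R} = ⋂ j, {y : Fin d → ℝ | |y j| ≤ R} := by
      ext x; simp
    rw [this]
    exact MeasurableSet.iInter fun j => measurableSet_le (measurable_pi_apply j).abs measurable_const
  rw [← lintegral_indicator measurableSet_cube]
  have h1 : ∀ x : Fin d → ℝ, (cube d).indicator (fun x => H (M *ᵥ x)) x ≤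
      ({y : Fin d → ℝ | ∀ j, |y j| ≤ R}).indicator H (Matrix.toLin' M x) := by
    intro x
    by_cases hx : x ∈ cube d
    · rw [Set.indicator_of_mem hx, Set.indicator_of_mem]
      · rfl
      · intro j
        exact hR x hx j
    · rw [Set.indicator_of_notMem hx]
      exact zero_le
  refine (lintegral_mono h1).trans ?_
  have hmeasM : Measurable (Matrix.toLin' M) := (LinearMap.continuous_of_finiteDimensional _).measurable
  rw [← lintegral_map (μ := volume) (hH.indicator hset) hmeasM,
    Real.map_matrix_volume_pi_eq_smul_volume_pi hM, lintegral_smul_measure, lintegral_indicator hset]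
  rw [ENNReal.ofReal_mul (by positivity), mul_assoc, smul_eq_mul, abs_inv]
  refine mul_le_mul' le_rfl ?_
  refine (lintegral_periodic_le H hH hper R).trans (le_of_eq ?_)
  congr 1
  rw [ENNReal.ofReal_pow (by positivity)]
  congr 1
  rw [← ENNReal.ofReal_natCast]
  push_cast
  rfl

end

end Pool.Agent.Helper64.Frolov
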