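import Mathlib
import Pool.Agent.Helper64.Frolov.U

open MeasureTheory Real
open scoped ENNReal ContDiff Matrix

namespace Pool.Agent.Helper64.Frolov

section
variable {G : Type*} [AddCommGroup G]

/-- domination of absolute values of coefficients -/
def AbsDom (P Q : AddMonoidAlgebra ℝ G) : Prop := ∀ g, |P.coeff g| ≤ Q.coeff g

lemma absDom_iff {P Q : AddMonoidAlgebra ℝ G} : AbsDom P Q ↔ NN (Q + P) ∧ NN (Q - P) := by
  unfold AbsDom NN
  rw [← forall_and]
  refine forall_congr' fun g => ?_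
  rw [abs_le]
  simp only [AddMonoidAlgebra.coeff_add, AddMonoidAlgebra.coeff_sub, Finsupp.add_apply,
    Finsupp.sub_apply]
  constructor
  · rintro ⟨h1, h2⟩; exact ⟨by linarith, by linarith⟩
  · rintro ⟨h1, h2⟩; exact ⟨by linarith, by linarith⟩

lemma NN_half {P : AddMonoidAlgebra ℝ G} (h : NN ((2 : ℝ) • P)) : NN P := by
  intro g
  have := h g
  rw [AddMonoidAlgebra.coeff_smul_apply, smul_eq_mul] at this
  linarith

lemma AbsDom.mul {P Q P' Q' : AddMonoidAlgebra ℝ G} (h : AbsDom P Q) (h' : AbsDom P' Q') :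
    AbsDom (P * P') (Q * Q') := by
  rw [absDom_iff] at h h' ⊢
  constructor
  · refine NN_half ?_
    have : (2 : ℝ) • (Q * Q' + P * P') = (Q + P) * (Q' + P') + (Q - P) * (Q' - P') := by
      rw [two_smul]; ring
    rw [this]
    exact (h.1.mul h'.1).add (h.2.mul h'.2)
  · refine NN_half ?_
    have : (2 : ℝ) • (Q * Q' - P * P') = (Q + P) * (Q' - P') + (Q - P) * (Q' + P') := by
      rw [two_smul]; ring
    rw [this]
    exact (h.1.mul h'.2).add (h.2.mul h'.1)

lemma AbsDom.pow {P Q : AddMonoidAlgebra ℝ G} (h : AbsDom P Q) (k : ℕ) :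
    AbsDom (P ^ k) (Q ^ k) := by
  induction k with
  | zero =>
    intro g
    rw [pow_zero, pow_zero, abs_of_nonneg (NN.one g)]
  | succ k ih => rw [pow_succ, pow_succ]; exact ih.mul h

lemma AbsDom_sum {ι : Type*} {s : Finset ι} {P Q : ι → AddMonoidAlgebra ℝ G}
    (h : ∀ i ∈ s, AbsDom (P i) (Q i)) : AbsDom (∑ i ∈ s, P i) (∑ i ∈ s, Q i) := by
  intro g
  rw [AddMonoidAlgebra.coeff_sum, Finsupp.finsetSum_apply, AddMonoidAlgebra.coeff_sum,
    Finsupp.finsetSum_apply]
  exact (Finset.abs_sum_le_sum_abs _ _).trans (Finset.sum_le_sum fun i hi => h i hi g)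

lemma AbsDom.smul {P Q : AddMonoidAlgebra ℝ G} {a b : ℝ} (ha : 0 ≤ a) (hab : a ≤ b)
    (h : AbsDom P Q) : AbsDom (a • P) (b • Q) := by
  intro g
  rw [AddMonoidAlgebra.coeff_smul_apply, AddMonoidAlgebra.coeff_smul_apply, smul_eq_mul,
    smul_eq_mul, abs_mul, abs_of_nonneg ha]
  exact mul_le_mul hab (h g) (abs_nonneg _) (ha.trans hab)

lemma AbsDom.trans_dom {P Q R : AddMonoidAlgebra ℝ G} (h : AbsDom P Q) (h' : Dom Q R) :
    AbsDom P R := fun g => (h g).trans (h' g)

end

section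
variable {G : Type*} [AddCommGroup G] {d : ℕ} {z : G →+ (Fin d → ℝ)} {D : ℝ} (hL : Lat z D)

/-- signed domination of a block -/
lemma absdom_block [DecidableEq G] (S : Finset G) (c : G → ℝ) (u : ℝ) (t : Fin d → ℕ)
    (hu : 0 ≤ u) (hS : ∀ m ∈ S, c m ≠ 0 → m ∈ (Box hL t).erase 0) (hc : ∀ m ∈ S, |c m| ≤ u) :
    AbsDom (Pc S c * Pcs S c)
      ((u ^ 2 * (2 ^ (d + 1) * (2 ^ (∑ j, t j) / D))) • EB hL (fun j => t j + 1)) := by
  have hD := hL.Dpos
  intro μ
  rw [coeff_Pc_mul_Pcs, AddMonoidAlgebra.coeff_smul_apply, coeff_EB, smul_eq_mul]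
  refine (Finset.abs_sum_le_sum_abs _ _).trans ?_
  by_cases hμ : μ ∈ Box hL (fun j => t j + 1)
  · rw [if_pos hμ, mul_one]
    have h1 : ∀ m ∈ S, |∑ m' ∈ S, if m' = m - μ then c m * c m' else 0| ≤
        if m ∈ (Box hL t).erase 0 then u ^ 2 else 0 := by
      intro m hm
      rw [Finset.sum_ite_eq']
      by_cases hcm : c m = 0
      · rw [hcm]
        simp only [zero_mul, ite_self, abs_zero]
        split_ifs
        · positivity
        · exact le_rfl
      · rw [if_pos (hS m hm hcm)]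
        split_ifs with h2
        · rw [abs_mul]
          have a1 := hc m hm
          have a2 := hc _ h2
          nlinarith [abs_nonneg (c m), abs_nonneg (c (m - μ))]
        · rw [abs_zero]; positivity
    refine (Finset.sum_le_sum h1).trans ?_
    rw [← Finset.sum_filter, Finset.sum_const, nsmul_eq_mul, mul_comm]
    refine mul_le_mul_of_nonneg_left ?_ (by positivity)
    refine le_trans ?_ (card_Box_erase hL t)
    have : S.filter (fun m => m ∈ (Box hL t).erase 0) ⊆ (Box hL t).erase 0 := by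
      intro m hm
      exact (Finset.mem_filter.1 hm).2
    exact_mod_cast Finset.card_le_card this
  · rw [if_neg hμ, mul_zero]
    refine le_of_eq (Finset.sum_eq_zero fun m hm => ?_)
    rw [abs_eq_zero]
    refine Finset.sum_eq_zero fun m' hm' => ?_
    by_cases h2 : m' = m - μ
    · rw [if_pos h2]
      by_contra h0
      have hcm : c m ≠ 0 := fun h => h0 (by rw [h, zero_mul])
      have hcm' : c m' ≠ 0 := fun h => h0 (by rw [h, mul_zero])
      apply hμ
      rw [mem_Box]
      intro j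
      have h3 : μ = m - m' := by rw [h2]; abel
      rw [h3, map_sub, Pi.sub_apply, pow_succ]
      have h4 := (mem_Box hL).1 (Finset.mem_of_mem_erase (hS m hm hcm)) j
      have h5 := (mem_Box hL).1 (Finset.mem_of_mem_erase (hS m' hm' hcm')) j
      have h6 := abs_sub (z m j) (z m' j)
      calc |z m j - z m' j| ≤ |z m j| + |z m' j| := h6
        _ < 2 ^ t j + 2 ^ t j := add_lt_add h4 h5
        _ = 2 ^ t j * 2 := by ring
    · rw [if_neg h2]

end

section
variable {d : ℕ}

/-- the dual embedding: `z m = a • (A m)` -/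
noncomputable def zA (A : Matrix (Fin d) (Fin d) ℝ) (a : ℝ) : (Fin d → ℤ) →+ (Fin d → ℝ) where
  toFun m := a • (A *ᵥ (fun i => (m i : ℝ)))
  map_zero' := by
    have : (fun i : Fin d => (((0 : Fin d → ℤ) i : ℤ) : ℝ)) = 0 := by funext i; simp
    rw [this, Matrix.mulVec_zero, smul_zero]
  map_add' m m' := by
    have : (fun i : Fin d => (((m + m') i : ℤ) : ℝ)) = (fun i => (m i : ℝ)) + (fun i => (m' i : ℝ)) := by
      funext i; simp
    rw [this, Matrix.mulVec_add, smul_add]

lemma zA_apply (A : Matrix (Fin d) (Fin d) ℝ) (a : ℝ) (m : Fin d → ℤ) (j : Fin d) :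
    zA A a m j = a * (A *ᵥ (fun i => (m i : ℝ))) j := rfl

lemma finite_box (A : Matrix (Fin d) (Fin d) ℝ) (hA : A.det ≠ 0) (B : ℝ) :
    {m : Fin d → ℤ | ∀ j, |(A *ᵥ (fun i => (m i : ℝ))) j| ≤ B}.Finite := by
  set C : ℝ := ∑ i, ∑ j, |A⁻¹ i j| with hC
  have hC0 : 0 ≤ C := Finset.sum_nonneg fun i _ => Finset.sum_nonneg fun j _ => abs_nonneg _
  rcases lt_or_ge B 0 with hB | hB
  · rcases Nat.eq_zero_or_pos d with hd | hd
    · subst hd; exact Set.toFinite _
    · refine Set.Finite.subset Set.finite_empty ?_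
      intro m hm
      have := (abs_nonneg _).trans (hm ⟨0, hd⟩)
      linarith
  have hsub : {m : Fin d → ℤ | ∀ j, |(A *ᵥ (fun i => (m i : ℝ))) j| ≤ B} ⊆
      (Fintype.piFinset (fun _ : Fin d => Finset.Icc (-⌈C * B⌉) ⌈C * B⌉) : Set (Fin d → ℤ)) := by
    intro m hm
    rw [Finset.mem_coe, Fintype.mem_piFinset]
    intro i
    have h1 : (m i : ℝ) = ∑ j, A⁻¹ i j * (A *ᵥ (fun i => (m i : ℝ))) j := by
      have h2 : A⁻¹ *ᵥ (A *ᵥ (fun i => (m i : ℝ))) = fun i => (m i : ℝ) := by
        rw [Matrix.mulVec_mulVec, Matrix.nonsing_inv_mul A (isUnit_iff_ne_zero.2 hA),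
          Matrix.one_mulVec]
      have := congrFun h2 i
      simp only [Matrix.mulVec, dotProduct] at this ⊢
      exact this.symm
    have h3 : |(m i : ℝ)| ≤ C * B := by
      rw [h1]
      refine (Finset.abs_sum_le_sum_abs _ _).trans ?_
      rw [hC, Finset.sum_mul]
      refine le_trans ?_ (Finset.single_le_sum (f := fun i => (∑ j, |A⁻¹ i j|) * B)
        (fun i _ => mul_nonneg (Finset.sum_nonneg fun j _ => abs_nonneg _) hB) (Finset.mem_univ i))
      rw [Finset.sum_mul]
      refine Finset.sum_le_sum fun j _ => ?_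
      rw [abs_mul]
      exact mul_le_mul_of_nonneg_left (hm j) (abs_nonneg _)
    rw [Finset.mem_Icc]
    have h4 := abs_le.1 h3
    have h5 : C * B ≤ ⌈C * B⌉ := Int.le_ceil _
    constructor
    · have : (-(⌈C * B⌉ : ℝ)) ≤ m i := by linarith
      exact_mod_cast this
    · have : (m i : ℝ) ≤ ⌈C * B⌉ := by linarith
      exact_mod_cast this
  exact (Finset.finite_toSet _).subset hsub

lemma lat_zA (A : Matrix (Fin d) (Fin d) ℝ) (hA : IsFrolovMatrix A) (a : ℝ) (ha : 0 < a) :
    Lat (zA A a) (a ^ d) where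
  Dpos := by positivity
  adm m hm := by
    have h1 := hA.admissible m hm
    have h2 : ∏ j, |zA A a m j| = a ^ d * |∏ j, (A *ᵥ (fun i => (m i : ℝ))) j| := by
      simp_rw [zA_apply, abs_mul, Finset.prod_mul_distrib, Finset.abs_prod]
      rw [Finset.prod_const, Finset.card_univ, Fintype.card_fin, abs_of_pos ha]
    rw [h2]
    nlinarith [pow_pos ha d]
  fin t := by
    refine (finite_box A hA.det_ne_zero (∑ j, 2 ^ (t j) / a)).subset ?_
    intro m hm j
    have h1 := hm j
    rw [zA_apply, abs_mul, abs_of_pos ha] at h1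
    have h2 : |(A *ᵥ (fun i => (m i : ℝ))) j| ≤ 2 ^ (t j) / a := by
      rw [le_div_iff₀ ha]; linarith
    refine h2.trans ?_
    exact Finset.single_le_sum (f := fun j => (2 : ℝ) ^ (t j) / a) (fun j _ => by positivity)
      (Finset.mem_univ j)
  card t := by
    have h1 := hA.box_count (fun j => -(2 ^ (t j) / a)) (fun j => 2 ^ (t j) / a) (fun j => by
      have : (0 : ℝ) ≤ 2 ^ (t j) / a := by positivity
      linarith)
    have h2 : ∏ j, ((2 : ℝ) ^ (t j) / a - -(2 ^ (t j) / a)) = 2 ^ (∑ j, t j + d) / a ^ d := by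
      have : ∀ j, ((2 : ℝ) ^ (t j) / a - -(2 ^ (t j) / a)) = 2 ^ (t j) * (2 / a) := fun j => by ring
      simp_rw [this]
      rw [Finset.prod_mul_distrib, Finset.prod_pow_eq_pow_sum, Finset.prod_const, Finset.card_univ,
        Fintype.card_fin, div_pow, pow_add]
      ring
    rw [h2] at h1
    refine le_trans ?_ h1
    rw [Nat.cast_le]
    refine Set.ncard_le_ncard ?_ ?_
    · intro m hm j
      have h3 := hm j
      rw [zA_apply, abs_mul, abs_of_pos ha] at h3
      have h4 : |(A *ᵥ (fun i => (m i : ℝ))) j| ≤ 2 ^ (t j) / a := by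
        rw [le_div_iff₀ ha]; linarith
      exact abs_le.1 h4
    · refine (finite_box A hA.det_ne_zero (∑ j, 2 ^ (t j) / a)).subset ?_
      intro m hm j
      have h2 : |(A *ᵥ (fun i => (m i : ℝ))) j| ≤ 2 ^ (t j) / a := abs_le.2 (hm j)
      refine h2.trans ?_
      exact Finset.single_le_sum (f := fun j => (2 : ℝ) ^ (t j) / a) (fun j _ => by positivity)
        (Finset.mem_univ j)

end

end Pool.Agent.Helper64.Frolov
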