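import Mathlib
import Pool.Agent.Helper64.Frolov.V

open MeasureTheory Real
open scoped ENNReal ContDiff Matrix

namespace Pool.Agent.Helper64.Frolov

section
variable {d : ℕ}

/-- pigeonhole lower bound for the number of lattice points in a box -/
lemma card_Box_ge (A : Matrix (Fin d) (Fin d) ℝ) (hA : IsFrolovMatrix A) (a : ℝ) (ha : 0 < a)
    (t : Fin d → ℕ) :
    2 ^ (∑ j, t j) / (a ^ d * |A.det|) ≤ ((Box (lat_zA A hA a ha) t).card : ℝ) := by
  classical
  set hL := lat_zA A hA a ha with hhL
  set M : Matrix (Fin d) (Fin d) ℝ := a • A with hM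
  have hdet : M.det = a ^ d * A.det := by
    rw [hM, Matrix.det_smul, Fintype.card_fin]
  have hdet0 : M.det ≠ 0 := by
    rw [hdet]; exact mul_ne_zero (pow_ne_zero _ ha.ne') hA.det_ne_zero
  have hMz : ∀ m : Fin d → ℤ, M *ᵥ (fun i => (m i : ℝ)) = zA A a m := by
    intro m
    rw [hM, Matrix.smul_mulVec]
    rfl
  set Q : Set (Fin d → ℝ) := Set.univ.pi (fun j => Set.Ico (0 : ℝ) (2 ^ (t j))) with hQ
  have hQm : MeasurableSet Q := MeasurableSet.univ_pi fun j => measurableSet_Ico
  set S : Set (Fin d → ℝ) := (Matrix.toLin' M) ⁻¹' Q with hS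
  have hmeasM : Measurable (Matrix.toLin' M) := (LinearMap.continuous_of_finiteDimensional _).measurable
  have hSm : MeasurableSet S := hmeasM hQm
  have hvolQ : volume Q = ENNReal.ofReal (2 ^ (∑ j, t j)) := by
    rw [hQ, volume_pi_pi]
    simp_rw [Real.volume_Ico, sub_zero]
    rw [← ENNReal.ofReal_prod_of_nonneg (fun j _ => by positivity), Finset.prod_pow_eq_pow_sum]
  have hvolS : volume S = ENNReal.ofReal (2 ^ (∑ j, t j) / (a ^ d * |A.det|)) := by
    rw [hS, Measure.addHaar_preimage_linearMap volume (by rwa [LinearMap.det_toLin']) Q, hvolQ,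
      LinearMap.det_toLin', ← ENNReal.ofReal_mul (abs_nonneg _)]
    congr 1
    rw [abs_inv, hdet, abs_mul, abs_of_pos (pow_pos ha d)]
    field_simp
  -- pointwise bound
  have hpt : ∀ u : Fin d → ℝ, ∑' v : Fin d → ℤ, S.indicator (fun _ => (1 : ℝ≥0∞)) (fun j => u j + v j) ≤
      ((Box hL t).card : ℝ≥0∞) := by
    intro u
    by_cases hex : ∃ v0 : Fin d → ℤ, (fun j => u j + (v0 j : ℝ)) ∈ S
    · obtain ⟨v0, hv0⟩ := hex
      rw [tsum_eq_sum (s := (Box hL t).image (fun m => m + v0))]
      · refine (Finset.sum_le_sum (g := fun _ => (1 : ℝ≥0∞)) fun v _ => ?_).trans ?_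
        · exact Set.indicator_le_self' (fun _ _ => zero_le) _
        · rw [Finset.sum_const, nsmul_eq_mul, mul_one]
          exact_mod_cast Finset.card_image_le
      · intro v hv
        refine Set.indicator_of_notMem ?_ _
        intro hvS
        apply hv
        rw [Finset.mem_image]
        refine ⟨v - v0, ?_, by abel⟩
        rw [mem_Box]
        intro j
        have e1 : (fun j => ((v - v0 : Fin d → ℤ) j : ℝ)) = (fun j => u j + (v j : ℝ)) - (fun j => u j + (v0 j : ℝ)) := by
          funext i; simp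
        have e2 : zA A a (v - v0) = Matrix.toLin' M (fun j => u j + (v j : ℝ)) -
            Matrix.toLin' M (fun j => u j + (v0 j : ℝ)) := by
          rw [← hMz, e1, ← map_sub, Matrix.toLin'_apply]
        rw [e2, Pi.sub_apply]
        have h1 := hvS j (Set.mem_univ _)
        have h2 := hv0 j (Set.mem_univ _)
        rw [Set.mem_Ico] at h1 h2
        rw [abs_lt]
        constructor <;> linarith [h1.1, h1.2, h2.1, h2.2]
    · push Not at hex
      have : ∀ v : Fin d → ℤ, S.indicator (fun _ => (1 : ℝ≥0∞)) (fun j => u j + v j) = 0 :=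
        fun v => Set.indicator_of_notMem (hex v) _
      simp_rw [this]
      simp
  -- the volume
  have hvol : volume S ≤ ((Box hL t).card : ℝ≥0∞) := by
    have e0 : volume S = ∫⁻ y, S.indicator (fun _ => (1 : ℝ≥0∞)) y := by
      rw [lintegral_indicator hSm]; simp
    have e1 : ∀ y : Fin d → ℝ, S.indicator (fun _ => (1 : ℝ≥0∞)) y ≤
        ∑' v : Fin d → ℤ, (cube d).indicator (fun u => S.indicator (fun _ => (1 : ℝ≥0∞)) (fun j => u j + v j))
          (fun j => y j - v j) := by
      intro y
      refine le_trans ?_ (ENNReal.le_tsum (fun j => ⌊y j⌋))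
      have hmem : (fun j => y j - ((⌊y j⌋ : ℤ) : ℝ)) ∈ cube d := by
        intro j
        have h1 : (⌊y j⌋ : ℝ) ≤ y j := Int.floor_le _
        have h2 : y j < ⌊y j⌋ + 1 := Int.lt_floor_add_one _
        constructor
        · linarith
        · linarith
      rw [Set.indicator_of_mem hmem]
      refine le_of_eq ?_
      congr 1
      funext j
      ring
    rw [e0]
    refine (lintegral_mono e1).trans ?_
    have hmeas1 : ∀ v : Fin d → ℤ, Measurable (fun u : Fin d → ℝ =>
        S.indicator (fun _ => (1 : ℝ≥0∞)) (fun j => u j + v j)) := by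
      intro v
      refine (measurable_const.indicator hSm).comp ?_
      exact measurable_pi_lambda _ fun j => (measurable_pi_apply j).add measurable_const
    rw [lintegral_tsum]
    · have h1 : ∀ v : Fin d → ℤ, ∫⁻ y : Fin d → ℝ, (cube d).indicator (fun u =>
          S.indicator (fun _ => (1 : ℝ≥0∞)) (fun j => u j + v j)) (fun j => y j - v j) =
          ∫⁻ y in cube d, S.indicator (fun _ => (1 : ℝ≥0∞)) (fun j => y j + v j) := by
        intro v
        have := lintegral_sub_right_eq_self (μ := (volume : Measure (Fin d → ℝ)))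
          ((cube d).indicator (fun u => S.indicator (fun _ => (1 : ℝ≥0∞)) (fun j => u j + v j)))
          (fun j => (v j : ℝ))
        rw [← lintegral_indicator measurableSet_cube, ← this]
        rfl
      simp_rw [h1]
      rw [← lintegral_tsum (fun v => (hmeas1 v).aemeasurable)]
      refine (lintegral_mono (g := fun _ => ((Box hL t).card : ℝ≥0∞)) hpt).trans ?_
      rw [lintegral_const, Measure.restrict_apply MeasurableSet.univ, Set.univ_inter, volume_cube, mul_one]
    · intro v
      refine Measurable.aemeasurable ?_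
      refine ((hmeas1 v).indicator measurableSet_cube).comp ?_
      exact measurable_pi_lambda _ fun j => (measurable_pi_apply j).sub measurable_const
  rw [hvolS] at hvol
  have := ENNReal.toReal_mono (ENNReal.natCast_ne_top _) hvol
  rwa [ENNReal.toReal_ofReal (by positivity), ENNReal.toReal_natCast] at this

end

section
variable {G : Type*} [AddCommGroup G] {d : ℕ} {z : G →+ (Fin d → ℝ)} {D : ℝ} (hL : Lat z D)

/-- thick blocks -/
noncomputable def Blk (κ : ℕ) (t : Fin d → ℕ) : Finset G :=
  (Box hL t).filter (fun m => ∀ j, 2 ^ (t j) ≤ 2 ^ κ * |z m j|)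

lemma mem_Blk {κ : ℕ} {t : Fin d → ℕ} {m : G} :
    m ∈ Blk hL κ t ↔ (∀ j, |z m j| < 2 ^ (t j)) ∧ ∀ j, 2 ^ (t j) ≤ 2 ^ κ * |z m j| := by
  unfold Blk
  rw [Finset.mem_filter, mem_Box]

lemma card_Blk_ge [DecidableEq G] (δ : ℝ) (hδ : 0 < δ) (κ n : ℕ) (t : Fin d → ℕ)
    (hlow : 2 ^ (∑ j, t j) / (D * δ) ≤ ((Box hL t).card : ℝ))
    (hκ : (d : ℝ) * 2 ^ (d + 2) * δ ≤ 2 ^ κ) (ht : ∀ j, κ ≤ t j) (hn : 8 * δ * D ≤ 2 ^ n)
    (hnt : n ≤ ∑ j, t j) :
    (2 : ℝ) ^ (∑ j, t j - n) ≤ ((Blk hL κ t).card : ℝ) := by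
  have hD := hL.Dpos
  set N := ∑ j, t j with hN
  -- thin parts
  have hthin : Box hL t ⊆ Blk hL κ t ∪ (insert 0 (Finset.univ.biUnion (fun j =>
      (Box hL (Function.update t j (t j - κ))).erase 0))) := by
    intro m hm
    rw [Finset.mem_union, Finset.mem_insert]
    by_cases h0 : m = 0
    · right; left; exact h0
    by_cases hb : ∀ j, 2 ^ (t j) ≤ 2 ^ κ * |z m j|
    · left
      rw [mem_Blk]
      exact ⟨(mem_Box hL).1 hm, hb⟩
    · right; right
      push Not at hb
      obtain ⟨j, hj⟩ := hb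
      rw [Finset.mem_biUnion]
      refine ⟨j, Finset.mem_univ _, ?_⟩
      rw [Finset.mem_erase, mem_Box]
      refine ⟨h0, fun i => ?_⟩
      by_cases hij : i = j
      · subst hij
        rw [Function.update_self]
        have h1 : (2 : ℝ) ^ (t i) = 2 ^ κ * 2 ^ (t i - κ) := by
          rw [← pow_add]; congr 1; have := ht i; omega
        rw [h1] at hj
        exact lt_of_mul_lt_mul_left hj (by positivity)
      · rw [Function.update_of_ne hij]
        exact (mem_Box hL).1 hm i
  have h1 : ((Box hL t).card : ℝ) ≤ (Blk hL κ t).card + (1 + ∑ j : Fin d,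
      (((Box hL (Function.update t j (t j - κ))).erase 0).card : ℝ)) := by
    have e1 := (Finset.card_le_card hthin).trans (Finset.card_union_le _ _)
    have e2 := Finset.card_insert_le 0 (Finset.univ.biUnion (fun j =>
      (Box hL (Function.update t j (t j - κ))).erase 0))
    have e3 := Finset.card_biUnion_le (s := (Finset.univ : Finset (Fin d))) (t := (fun j =>
      (Box hL (Function.update t j (t j - κ))).erase 0))
    have e4 : (Box hL t).card ≤ (Blk hL κ t).card + (1 + ∑ j : Fin d,
      ((Box hL (Function.update t j (t j - κ))).erase 0).card) := by omega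
    exact_mod_cast e4
  have h2 : ∀ j : Fin d, (((Box hL (Function.update t j (t j - κ))).erase 0).card : ℝ) ≤
      2 ^ (d + 1) * (2 ^ N / (2 ^ κ * D)) := by
    intro j
    refine (card_Box_erase hL _).trans ?_
    have e1 : ∑ i, Function.update t j (t j - κ) i + κ = N := by
      rw [hN, Finset.sum_update_of_mem (Finset.mem_univ j), ← Finset.add_sum_erase _ t (Finset.mem_univ j),
        Finset.sdiff_singleton_eq_erase]
      have := ht j
      omega
    have e2 : (2 : ℝ) ^ N = 2 ^ (∑ i, Function.update t j (t j - κ) i) * 2 ^ κ := by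
      rw [← pow_add, e1]
    rw [e2]
    refine le_of_eq ?_
    field_simp
  have h3 : ∑ j : Fin d, (((Box hL (Function.update t j (t j - κ))).erase 0).card : ℝ) ≤
      d * (2 ^ (d + 1) * (2 ^ N / (2 ^ κ * D))) := by
    refine (Finset.sum_le_sum fun j _ => h2 j).trans ?_
    rw [Finset.sum_const, Finset.card_univ, Fintype.card_fin, nsmul_eq_mul]
  set X : ℝ := 2 ^ N / (D * δ) with hX
  have hX0 : 0 < X := by positivity
  have h4 : (d : ℝ) * (2 ^ (d + 1) * (2 ^ N / (2 ^ κ * D))) ≤ X / 2 := by
    rw [hX, div_div, mul_div_assoc', mul_div_assoc', div_le_div_iff₀ (by positivity) (by positivity)]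
    have e1 : (d : ℝ) * (2 ^ (d + 1) * 2 ^ N) * (D * δ * 2) = (d * 2 ^ (d + 2) * δ) * (2 ^ N * D) := by
      ring
    rw [e1]
    calc (d * 2 ^ (d + 2) * δ) * (2 ^ N * D) ≤ 2 ^ κ * (2 ^ N * D) :=
          mul_le_mul_of_nonneg_right hκ (by positivity)
      _ = 2 ^ N * (2 ^ κ * D) := by ring
  have h5 : (2 : ℝ) ^ (N - n) ≤ X / 8 := by
    rw [hX, div_div, le_div_iff₀ (by positivity)]
    have e1 : (2 : ℝ) ^ N = 2 ^ (N - n) * 2 ^ n := by
      rw [← pow_add]; congr 1; omega
    rw [e1]
    refine mul_le_mul_of_nonneg_left ?_ (by positivity)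
    linarith
  have h6 : (1 : ℝ) ≤ 2 ^ (N - n) := one_le_pow₀ (by norm_num)
  linarith

lemma card_Blk_le [DecidableEq G] (κ : ℕ) (t : Fin d → ℕ) (hd : 0 < d) :
    ((Blk hL κ t).card : ℝ) ≤ 2 ^ (d + 1) * (2 ^ (∑ j, t j) / D) := by
  refine le_trans ?_ (card_Box_erase hL t)
  have : Blk hL κ t ⊆ (Box hL t).erase 0 := by
    intro m hm
    rw [mem_Blk] at hm
    rw [Finset.mem_erase, mem_Box]
    refine ⟨?_, hm.1⟩
    rintro rfl
    have := hm.2 ⟨0, hd⟩
    simp only [map_zero, Pi.zero_apply, abs_zero, mul_zero] at this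
    have h2 : (0 : ℝ) < 2 ^ (t ⟨0, hd⟩) := by positivity
    linarith
  exact_mod_cast Finset.card_le_card this

end

end Pool.Agent.Helper64.Frolov
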