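import Mathlib
import Pool.Agent.Helper64.Frolov.W

open MeasureTheory Real
open scoped ENNReal ContDiff Matrix

namespace Pool.Agent.Helper64.Frolov

open Finset.Nat in
/-- index set -/
def SS (d q n L : ℕ) : Finset (Fin d → ℕ) :=
  (Finset.range (L + 1)).biUnion (fun v => (antidiagonalTuple d (n + v)).filter (fun t => ∀ j, q ≤ t j))

lemma mem_SS {d q n L : ℕ} {t : Fin d → ℕ} :
    t ∈ SS d q n L ↔ n ≤ ∑ j, t j ∧ ∑ j, t j ≤ n + L ∧ ∀ j, q ≤ t j := by
  unfold SS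
  simp only [Finset.mem_biUnion, Finset.mem_range, Finset.mem_filter, Finset.Nat.mem_antidiagonalTuple]
  constructor
  · rintro ⟨v, hv, h1, h2⟩
    refine ⟨by omega, by omega, h2⟩
  · rintro ⟨h1, h2, h3⟩
    exact ⟨∑ j, t j - n, by omega, by omega, h3⟩

open Finset.Nat in
lemma card_level_ge (d q n v : ℕ) (hd : 1 ≤ d) (hq : 2 * d * q ≤ n) :
    (q + 1) ^ (d - 1) ≤ ((antidiagonalTuple d (n + v)).filter (fun t => ∀ j, q ≤ t j)).card := by
  obtain ⟨e, rfl⟩ : ∃ e, d = e + 1 := ⟨d - 1, by omega⟩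
  simp only [Nat.add_sub_cancel]
  have h1 : (Fintype.piFinset (fun _ : Fin e => Finset.Icc q (2 * q))).card = (q + 1) ^ e := by
    rw [Fintype.card_piFinset]
    simp only [Nat.card_Icc, Finset.prod_const, Finset.card_univ, Fintype.card_fin]
    congr 1
    omega
  rw [← h1]
  have hsum : ∀ s ∈ Fintype.piFinset (fun _ : Fin e => Finset.Icc q (2 * q)), ∑ i, s i ≤ e * (2 * q) := by
    intro s hs
    rw [Fintype.mem_piFinset] at hs
    refine (Finset.sum_le_sum (g := fun _ => 2 * q) fun i _ => (Finset.mem_Icc.1 (hs i)).2).trans ?_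
    simp
  have hn : e * (2 * q) + 2 * q ≤ n := by
    have : 2 * (e + 1) * q = e * (2 * q) + 2 * q := by ring
    omega
  refine Finset.card_le_card_of_injOn (fun s => (Fin.cons (n + v - ∑ i, s i) s : Fin (e + 1) → ℕ)) ?_ ?_
  · intro s hs
    have hs' := hsum s (Finset.mem_coe.1 hs)
    rw [Finset.mem_coe, Fintype.mem_piFinset] at hs
    rw [Finset.mem_coe, Finset.mem_filter, mem_antidiagonalTuple, Fin.sum_univ_succ]
    simp only [Fin.cons_zero, Fin.cons_succ]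
    refine ⟨by omega, fun j => ?_⟩
    refine Fin.cases ?_ (fun i => ?_) j
    · simp only [Fin.cons_zero]
      omega
    · simp only [Fin.cons_succ]
      exact (Finset.mem_Icc.1 (hs i)).1
  · intro s _ s' _ hss
    have := congrArg Fin.tail hss
    simpa using this

/-- geometric sum -/
noncomputable def Sg (x : ℝ) (L : ℕ) : ℝ := ∑ v ∈ Finset.range (L + 1), x ^ v

lemma one_le_Sg {x : ℝ} (hx : 0 ≤ x) (L : ℕ) : 1 ≤ Sg x L := by
  unfold Sg
  have := Finset.single_le_sum (f := fun v => x ^ v) (fun v _ => pow_nonneg hx v)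
    (Finset.mem_range.2 (Nat.succ_pos L))
  simpa using this

lemma Sg_shift {x : ℝ} (hx : 1 ≤ x) (L s : ℕ) : Sg x (L + s) ≤ (s + 1) * x ^ s * Sg x L := by
  have hx0 : 0 ≤ x := by linarith
  unfold Sg
  have h1 : ∑ v ∈ Finset.range (L + s + 1), x ^ v ≤
      ∑ j ∈ Finset.range (s + 1), ∑ i ∈ Finset.range (L + 1), x ^ (i + j) := by
    rw [← Finset.sum_product']
    have hsub : Finset.range (L + s + 1) ⊆
        (Finset.range (s + 1) ×ˢ Finset.range (L + 1)).image (fun p => p.2 + p.1) := by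
      intro v hv
      rw [Finset.mem_range] at hv
      rw [Finset.mem_image]
      by_cases hvL : v ≤ L
      · exact ⟨(0, v), by simp [Nat.lt_succ_of_le hvL], by simp⟩
      · exact ⟨(v - L, L), by simp; omega, by simp; omega⟩
    refine (Finset.sum_le_sum_of_subset_of_nonneg hsub (fun _ _ _ => pow_nonneg hx0 _)).trans ?_
    have := Finset.sum_image_le_of_nonneg (s := Finset.range (s + 1) ×ˢ Finset.range (L + 1))
      (g := fun p : ℕ × ℕ => p.2 + p.1) (f := fun v : ℕ => x ^ v) (fun _ _ => pow_nonneg hx0 _)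
    exact this
  refine h1.trans ?_
  have h2 : ∀ j ∈ Finset.range (s + 1), ∑ i ∈ Finset.range (L + 1), x ^ (i + j) ≤
      x ^ s * ∑ i ∈ Finset.range (L + 1), x ^ i := by
    intro j hj
    rw [Finset.mul_sum]
    refine Finset.sum_le_sum fun i _ => ?_
    rw [pow_add, mul_comm]
    refine mul_le_mul_of_nonneg_right ?_ (pow_nonneg hx0 _)
    exact pow_le_pow_right₀ hx (by rw [Finset.mem_range] at hj; omega)
  refine (Finset.sum_le_sum h2).trans ?_
  rw [Finset.sum_const, Finset.card_range, nsmul_eq_mul]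
  push_cast
  rw [mul_assoc]

section
variable {G : Type*} [AddCommGroup G] {d : ℕ} {z : G →+ (Fin d → ℝ)} {D : ℝ} (hL : Lat z D)

open Classical in
/-- the weight -/
noncomputable def ww (κ : ℕ) (B : ℝ) (S : Finset (Fin d → ℕ)) (m : G) : ℝ :=
  ∑ t ∈ S, if m ∈ Blk hL κ t then (B ^ (∑ j, t j))⁻¹ else 0

open Classical in
/-- the support -/
noncomputable def ZZ (κ : ℕ) (S : Finset (Fin d → ℕ)) : Finset G := S.biUnion (Blk hL κ)

lemma ww_nonneg (κ : ℕ) (B : ℝ) (hB : 0 < B) (S : Finset (Fin d → ℕ)) (m : G) : 0 ≤ ww hL κ B S m := by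
  classical
  unfold ww
  refine Finset.sum_nonneg fun t _ => ?_
  split_ifs <;> positivity

lemma sum_ww (κ : ℕ) (B : ℝ) (S : Finset (Fin d → ℕ)) :
    ∑ m ∈ ZZ hL κ S, ww hL κ B S m = ∑ t ∈ S, (B ^ (∑ j, t j))⁻¹ * (Blk hL κ t).card := by
  classical
  unfold ww
  rw [Finset.sum_comm]
  refine Finset.sum_congr rfl fun t ht => ?_
  rw [← Finset.sum_filter]
  have : (ZZ hL κ S).filter (fun m => m ∈ Blk hL κ t) = Blk hL κ t := by
    ext m
    rw [Finset.mem_filter]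
    constructor
    · exact fun h => h.2
    · exact fun h => ⟨Finset.mem_biUnion.2 ⟨t, ht, h⟩, h⟩
  rw [this, Finset.sum_const, nsmul_eq_mul, mul_comm]

lemma sum_SS_eq (q n L : ℕ) (f : (Fin d → ℕ) → ℝ) :
    ∑ t ∈ SS d q n L, f t = ∑ v ∈ Finset.range (L + 1),
      ∑ t ∈ (Finset.Nat.antidiagonalTuple d (n + v)).filter (fun t => ∀ j, q ≤ t j), f t := by
  unfold SS
  rw [Finset.sum_biUnion]
  intro v _ v' _ hvv
  rw [Function.onFun, Finset.disjoint_left]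
  intro t ht ht'
  rw [Finset.mem_filter, Finset.Nat.mem_antidiagonalTuple] at ht ht'
  omega

lemma sum_ww_ge (hd : 1 ≤ d) (κ : ℕ) (B : ℝ) (hB : 0 < B) (q n L : ℕ) (hq : 2 * d * q ≤ n)
    (hblk : ∀ t ∈ SS d q n L, (2 : ℝ) ^ (∑ j, t j - n) ≤ ((Blk hL κ t).card : ℝ)) :
    ((q : ℝ) + 1) ^ (d - 1) * (B ^ n)⁻¹ * Sg (2 / B) L ≤ ∑ m ∈ ZZ hL κ (SS d q n L), ww hL κ B (SS d q n L) m := by
  rw [sum_ww]
  have h1 : ∑ t ∈ SS d q n L, (B ^ (∑ j, t j))⁻¹ * (2 : ℝ) ^ (∑ j, t j - n) ≤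
      ∑ t ∈ SS d q n L, (B ^ (∑ j, t j))⁻¹ * (Blk hL κ t).card :=
    Finset.sum_le_sum fun t ht => mul_le_mul_of_nonneg_left (hblk t ht) (by positivity)
  refine le_trans ?_ h1
  rw [sum_SS_eq]
  unfold Sg
  rw [Finset.mul_sum]
  refine Finset.sum_le_sum fun v _ => ?_
  have h2 : ∀ t ∈ (Finset.Nat.antidiagonalTuple d (n + v)).filter (fun t => ∀ j, q ≤ t j),
      (B ^ (∑ j, t j))⁻¹ * (2 : ℝ) ^ (∑ j, t j - n) = (B ^ n)⁻¹ * (2 / B) ^ v := by
    intro t ht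
    rw [Finset.mem_filter, Finset.Nat.mem_antidiagonalTuple] at ht
    rw [ht.1, Nat.add_sub_cancel_left, div_pow, pow_add]
    field_simp
  rw [Finset.sum_congr rfl h2, Finset.sum_const, nsmul_eq_mul, mul_assoc]
  refine mul_le_mul_of_nonneg_right ?_ (by positivity)
  exact_mod_cast card_level_ge d q n v hd hq

lemma sum_ww_le [DecidableEq G] (hd : 1 ≤ d) (κ : ℕ) (B : ℝ) (hB : 0 < B) (q n L : ℕ) :
    ∑ m ∈ ZZ hL κ (SS d q n L), ww hL κ B (SS d q n L) m ≤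
      ((n : ℝ) + L + 1) ^ (d - 1) * (2 ^ (d + 1) * (2 ^ n / D)) * (B ^ n)⁻¹ * Sg (2 / B) L := by
  have hD := hL.Dpos
  rw [sum_ww]
  have h1 : ∑ t ∈ SS d q n L, (B ^ (∑ j, t j))⁻¹ * (Blk hL κ t).card ≤
      ∑ t ∈ SS d q n L, (B ^ (∑ j, t j))⁻¹ * (2 ^ (d + 1) * (2 ^ (∑ j, t j) / D)) :=
    Finset.sum_le_sum fun t ht => mul_le_mul_of_nonneg_left (card_Blk_le hL κ t hd) (by positivity)
  refine h1.trans ?_
  rw [sum_SS_eq]
  unfold Sg
  rw [Finset.mul_sum]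
  refine Finset.sum_le_sum fun v hv => ?_
  have h2 : ∀ t ∈ (Finset.Nat.antidiagonalTuple d (n + v)).filter (fun t => ∀ j, q ≤ t j),
      (B ^ (∑ j, t j))⁻¹ * (2 ^ (d + 1) * (2 ^ (∑ j, t j) / D)) =
        (2 ^ (d + 1) * (2 ^ n / D)) * (B ^ n)⁻¹ * (2 / B) ^ v := by
    intro t ht
    rw [Finset.mem_filter, Finset.Nat.mem_antidiagonalTuple] at ht
    rw [ht.1, div_pow, pow_add B n v, pow_add 2 n v]
    field_simp
  rw [Finset.sum_congr rfl h2, Finset.sum_const, nsmul_eq_mul]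
  have e5 : ((n : ℝ) + L + 1) ^ (d - 1) * (2 ^ (d + 1) * (2 ^ n / D)) * (B ^ n)⁻¹ * (2 / B) ^ v =
      ((n : ℝ) + L + 1) ^ (d - 1) * ((2 ^ (d + 1) * (2 ^ n / D)) * (B ^ n)⁻¹ * (2 / B) ^ v) := by ring
  rw [e5]
  refine mul_le_mul_of_nonneg_right ?_ (by positivity)
  have h3 : ((Finset.Nat.antidiagonalTuple d (n + v)).filter (fun t => ∀ j, q ≤ t j)).card ≤
      (n + v + 1) ^ (d - 1) := (Finset.card_filter_le _ _).trans (card_antidiag_le d (n + v) hd)
  have h4 : (n + v + 1) ^ (d - 1) ≤ (n + L + 1) ^ (d - 1) := by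
    rw [Finset.mem_range] at hv
    exact Nat.pow_le_pow_left (by omega) _
  exact_mod_cast h3.trans h4

end

end Pool.Agent.Helper64.Frolov
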