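import Mathlib
import Pool.Agent.Helper64.Frolov.X

open MeasureTheory Real
open scoped ENNReal ContDiff Matrix

namespace Pool.Agent.Helper64.Frolov

/-- support conditions -/
structure Supp (φ : ℕ → ℝ → ℝ) (C0 : ℝ) (κ1 : ℕ) : Prop where
  C0nn : 0 ≤ C0
  bd : ∀ s ξ, |φ s ξ| ≤ C0
  zero : ∀ ξ, 2 ^ κ1 < |ξ| → φ 0 ξ = 0
  small : ∀ s, 1 ≤ s → ∀ ξ, 2 ^ κ1 * |ξ| < 2 ^ s → φ s ξ = 0
  large : ∀ s, 1 ≤ s → ∀ ξ, 2 ^ κ1 * 2 ^ s < |ξ| → φ s ξ = 0

section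
variable {G : Type*} [AddCommGroup G] {d : ℕ} {z : G →+ (Fin d → ℝ)} {D : ℝ} (hL : Lat z D)
variable {φ : ℕ → ℝ → ℝ} {C0 : ℝ} {κ1 : ℕ} (hs : Supp φ C0 κ1)

include hs in
lemma near_idx (κ : ℕ) (t : Fin d → ℕ) (m : G) (hm : m ∈ Blk hL κ t) (j : Fin d) (s : ℕ)
    (hne : φ s (z m j) ≠ 0) : t j ≤ s + (κ + κ1) ∧ s ≤ t j + κ1 := by
  rw [mem_Blk] at hm
  have h1 := hm.1 j
  have h2 := hm.2 j
  rcases Nat.eq_zero_or_pos s with h0 | h0
  · subst h0
    have h3 : |z m j| ≤ 2 ^ κ1 := by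
      by_contra hcon
      exact hne (hs.zero _ (not_le.1 hcon))
    refine ⟨?_, Nat.zero_le _⟩
    have h4 : (2 : ℝ) ^ (t j) ≤ 2 ^ (0 + (κ + κ1)) := by
      rw [zero_add, pow_add]
      exact h2.trans (mul_le_mul_of_nonneg_left h3 (by positivity))
    exact (pow_le_pow_iff_right₀ (by norm_num)).1 h4
  · have h3 : (2 : ℝ) ^ s ≤ 2 ^ κ1 * |z m j| := by
      by_contra hcon
      exact hne (hs.small s h0 _ (not_le.1 hcon))
    have h4 : |z m j| ≤ 2 ^ κ1 * 2 ^ s := by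
      by_contra hcon
      exact hne (hs.large s h0 _ (not_le.1 hcon))
    constructor
    · have h5 : (2 : ℝ) ^ (t j) ≤ 2 ^ (s + (κ + κ1)) := by
        calc (2 : ℝ) ^ (t j) ≤ 2 ^ κ * |z m j| := h2
          _ ≤ 2 ^ κ * (2 ^ κ1 * 2 ^ s) := mul_le_mul_of_nonneg_left h4 (by positivity)
          _ = 2 ^ (s + (κ + κ1)) := by rw [pow_add, pow_add]; ring
      exact (pow_le_pow_iff_right₀ (by norm_num)).1 h5
    · have h5 : (2 : ℝ) ^ s ≤ 2 ^ (t j + κ1) := by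
        calc (2 : ℝ) ^ s ≤ 2 ^ κ1 * |z m j| := h3
          _ ≤ 2 ^ κ1 * 2 ^ (t j) := mul_le_mul_of_nonneg_left h1.le (by positivity)
          _ = 2 ^ (t j + κ1) := by rw [pow_add]; ring
      exact (pow_le_pow_iff_right₀ (by norm_num)).1 h5

/-- the coefficients of a piece -/
noncomputable def cc (φ : ℕ → ℝ → ℝ) (κ : ℕ) (B : ℝ) (S : Finset (Fin d → ℕ)) (τ : Fin d → ℕ) (m : G) : ℝ :=
  ww hL κ B S m * ∏ j, φ (τ j) (z m j)

lemma ww_ne_zero {κ : ℕ} {B : ℝ} {S : Finset (Fin d → ℕ)} {m : G} (h : ww hL κ B S m ≠ 0) :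
    ∃ t ∈ S, m ∈ Blk hL κ t := by
  classical
  by_contra hcon
  push Not at hcon
  apply h
  unfold ww
  exact Finset.sum_eq_zero fun t ht => if_neg (hcon t ht)

include hs in
lemma cc_mem (κ : ℕ) (B : ℝ) (S : Finset (Fin d → ℕ)) (τ : Fin d → ℕ) (m : G) (hd : 0 < d)
    [DecidableEq G] (hne : cc hL φ κ B S τ m ≠ 0) : m ∈ (Box hL (fun j => τ j + (κ + κ1))).erase 0 := by
  unfold cc at hne
  have h1 : ww hL κ B S m ≠ 0 := fun h => hne (by rw [h, zero_mul])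
  have h2 : ∀ j, φ (τ j) (z m j) ≠ 0 := by
    intro j h
    apply hne
    rw [Finset.prod_eq_zero (Finset.mem_univ j) h, mul_zero]
  obtain ⟨t, ht, hm⟩ := ww_ne_zero hL h1
  rw [Finset.mem_erase, mem_Box]
  constructor
  · rintro rfl
    have := (mem_Blk hL).1 hm
    have := this.2 ⟨0, hd⟩
    simp only [map_zero, Pi.zero_apply, abs_zero, mul_zero] at this
    have h3 : (0 : ℝ) < 2 ^ (t ⟨0, hd⟩) := by positivity
    linarith
  · intro j
    have h3 := near_idx hL hs κ t m hm j (τ j) (h2 j)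
    have h4 := ((mem_Blk hL).1 hm).1 j
    refine h4.trans_le ?_
    exact pow_le_pow_right₀ (by norm_num) h3.1

/-- the constant in the coefficient bound -/
noncomputable def Cu (d : ℕ) (C0 : ℝ) (κ κ1 : ℕ) (B : ℝ) : ℝ :=
  ((2 * (κ + κ1) + 1 : ℕ) : ℝ) ^ d * B ^ (d * (κ + κ1)) * C0 ^ d

include hs in
lemma cc_bound (κ : ℕ) (B : ℝ) (hB : 1 ≤ B) (S : Finset (Fin d → ℕ)) (τ : Fin d → ℕ) (m : G) :
    |cc hL φ κ B S τ m| ≤ Cu d C0 κ κ1 B / B ^ (∑ j, τ j) := by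
  classical
  have hC0 := hs.C0nn
  have hB0 : 0 < B := by linarith
  by_cases h2 : ∀ j, φ (τ j) (z m j) ≠ 0
  · unfold cc
    rw [abs_mul, abs_of_nonneg (ww_nonneg hL κ B hB0 S m)]
    have h3 : |∏ j, φ (τ j) (z m j)| ≤ C0 ^ d := by
      rw [Finset.abs_prod]
      refine (Finset.prod_le_prod (fun j _ => abs_nonneg _) (fun j _ => hs.bd _ _)).trans ?_
      simp
    have h4 : ww hL κ B S m ≤ ((2 * (κ + κ1) + 1 : ℕ) : ℝ) ^ d * (B ^ (d * (κ + κ1)) / B ^ (∑ j, τ j)) := by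
      unfold ww
      rw [← Finset.sum_filter]
      have h5 : ∀ t ∈ S.filter (fun t => m ∈ Blk hL κ t),
          (B ^ (∑ j, t j))⁻¹ ≤ B ^ (d * (κ + κ1)) / B ^ (∑ j, τ j) := by
        intro t ht
        rw [Finset.mem_filter] at ht
        rw [le_div_iff₀ (by positivity), inv_mul_le_iff₀ (by positivity), ← pow_add]
        refine pow_le_pow_right₀ hB ?_
        have h6 : ∑ j, τ j ≤ ∑ j : Fin d, (t j + (κ + κ1)) := by
          refine Finset.sum_le_sum fun j _ => ?_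
          have := near_idx hL hs κ t m ht.2 j (τ j) (h2 j)
          omega
        rw [Finset.sum_add_distrib, Finset.sum_const, Finset.card_univ, Fintype.card_fin,
          smul_eq_mul] at h6
        exact h6
      refine (Finset.sum_le_sum h5).trans ?_
      rw [Finset.sum_const, nsmul_eq_mul]
      refine mul_le_mul_of_nonneg_right ?_ (by positivity)
      have h7 : S.filter (fun t => m ∈ Blk hL κ t) ⊆
          Fintype.piFinset (fun j => Finset.Icc (τ j - (κ + κ1)) (τ j + (κ + κ1))) := by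
        intro t ht
        rw [Finset.mem_filter] at ht
        rw [Fintype.mem_piFinset]
        intro j
        have := near_idx hL hs κ t m ht.2 j (τ j) (h2 j)
        rw [Finset.mem_Icc]
        omega
      have h8 : (S.filter (fun t => m ∈ Blk hL κ t)).card ≤ (2 * (κ + κ1) + 1) ^ d := by
        refine (Finset.card_le_card h7).trans ?_
        rw [Fintype.card_piFinset]
        refine (Finset.prod_le_prod (g := fun _ => 2 * (κ + κ1) + 1) (fun _ _ => Nat.zero_le _) fun j _ => ?_).trans ?_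
        · rw [Nat.card_Icc]; omega
        · simp
      exact_mod_cast h8
    unfold Cu
    have h9 : ((2 * (κ + κ1) + 1 : ℕ) : ℝ) ^ d * B ^ (d * (κ + κ1)) * C0 ^ d / B ^ (∑ j, τ j) =
      (((2 * (κ + κ1) + 1 : ℕ) : ℝ) ^ d * (B ^ (d * (κ + κ1)) / B ^ (∑ j, τ j))) * C0 ^ d := by ring
    rw [h9]
    exact mul_le_mul h4 h3 (abs_nonneg _) (by positivity)
  · push Not at h2
    obtain ⟨j, hj⟩ := h2
    unfold cc Cu
    rw [Finset.prod_eq_zero (Finset.mem_univ j) hj, mul_zero, abs_zero]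
    positivity

/-- levels -/
def II (d n L κ2 : ℕ) : Finset ℕ := Finset.Icc (n - d * κ2) (n + L + d * κ2)

/-- set of relevant indices -/
def TT (d n L κ2 : ℕ) : Finset (Fin d → ℕ) :=
  (Fintype.piFinset (fun _ => Finset.range (n + L + κ2 + 1))).filter (fun τ => ∑ j, τ j ∈ II d n L κ2)

include hs in
lemma not_mem_TT (κ q n L : ℕ) (τ : Fin d → ℕ) (hτ : τ ∉ TT d n L (κ + κ1)) (m : G)
    (hm : m ∈ ZZ hL κ (SS d q n L)) : ∏ j, φ (τ j) (z m j) = 0 := by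
  classical
  by_contra hne
  have h2 : ∀ j, φ (τ j) (z m j) ≠ 0 := by
    intro j h
    apply hne
    rw [Finset.prod_eq_zero (Finset.mem_univ j) h]
  unfold ZZ at hm
  rw [Finset.mem_biUnion] at hm
  obtain ⟨t, ht, hmt⟩ := hm
  rw [mem_SS] at ht
  apply hτ
  unfold TT II
  rw [Finset.mem_filter, Fintype.mem_piFinset, Finset.mem_Icc]
  have h3 := fun j => near_idx hL hs κ t m hmt j (τ j) (h2 j)
  have h4 : ∑ j, τ j ≤ ∑ j : Fin d, (t j + (κ + κ1)) := Finset.sum_le_sum fun j _ => by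
    have := h3 j; omega
  have h5 : ∑ j, t j ≤ ∑ j : Fin d, (τ j + (κ + κ1)) := Finset.sum_le_sum fun j _ => by
    have := h3 j; omega
  rw [Finset.sum_add_distrib, Finset.sum_const, Finset.card_univ, Fintype.card_fin,
    smul_eq_mul] at h4 h5
  refine ⟨fun j => ?_, by omega, by omega⟩
  rw [Finset.mem_range]
  have := h3 j
  have h6 : t j ≤ ∑ j, t j := Finset.single_le_sum (f := t) (fun _ _ => Nat.zero_le _) (Finset.mem_univ j)
  omega

/-- the square function polynomial of the pieces -/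
noncomputable def TP (φ : ℕ → ℝ → ℝ) (κ : ℕ) (B : ℝ) (S : Finset (Fin d → ℕ)) (𝒯 : Finset (Fin d → ℕ))
    (Z : Finset G) : AddMonoidAlgebra ℝ G :=
  ∑ τ ∈ 𝒯, (B ^ (∑ j, τ j)) • (Pc Z (cc hL φ κ B S τ) * Pcs Z (cc hL φ κ B S τ))

/-- constant of the levels -/
noncomputable def Ca (d : ℕ) (C0 : ℝ) (κ κ1 : ℕ) (B : ℝ) : ℝ :=
  (Cu d C0 κ κ1 B) ^ 2 * (2 ^ (d + 1) * 2 ^ ((κ + κ1) * d))

/-- level coefficients -/
noncomputable def aP (d : ℕ) (C0 : ℝ) (κ κ1 : ℕ) (B D : ℝ) (ν : ℕ) : ℝ :=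
  Ca d C0 κ κ1 B * ((2 / B) ^ ν / D)

include hs in
lemma absdom_TP [DecidableEq G] (hd : 0 < d) (κ : ℕ) (B : ℝ) (hB : 1 ≤ B) (S : Finset (Fin d → ℕ))
    (Z : Finset G) (n L : ℕ) :
    AbsDom (TP hL φ κ B S (TT d n L (κ + κ1)) Z)
      (∑ ν ∈ II d n L (κ + κ1), aP d C0 κ κ1 B D ν • EN hL (ν + ((κ + κ1) + 1) * d)) := by
  have hD := hL.Dpos
  have hB0 : 0 < B := by linarith
  refine AbsDom.trans_dom (Q := ∑ τ ∈ TT d n L (κ + κ1), aP d C0 κ κ1 B D (∑ j, τ j) •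
    EB hL (fun j => τ j + ((κ + κ1) + 1))) ?_ ?_
  · unfold TP
    refine AbsDom_sum fun τ _ => ?_
    have h1 := absdom_block hL Z (cc hL φ κ B S τ) (Cu d C0 κ κ1 B / B ^ (∑ j, τ j))
      (fun j => τ j + (κ + κ1)) ((abs_nonneg _).trans (cc_bound hL hs κ B hB S τ 0))
      (fun m _ hne => cc_mem hL hs κ B S τ m hd hne) (fun m _ => cc_bound hL hs κ B hB S τ m)
    intro g
    have h2 := h1 g
    rw [AddMonoidAlgebra.coeff_smul_apply, smul_eq_mul, abs_mul, abs_of_pos (pow_pos hB0 _)]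
    refine (mul_le_mul_of_nonneg_left h2 (pow_pos hB0 _).le).trans (le_of_eq ?_)
    rw [AddMonoidAlgebra.coeff_smul_apply, AddMonoidAlgebra.coeff_smul_apply, smul_eq_mul, smul_eq_mul,
      ← mul_assoc]
    have e1 : (EB hL fun j => τ j + (κ + κ1) + 1) = EB hL (fun j => τ j + ((κ + κ1) + 1)) := rfl
    rw [e1]
    congr 1
    unfold aP Ca
    rw [Finset.sum_add_distrib, Finset.sum_const, Finset.card_univ, Fintype.card_fin, smul_eq_mul,
      pow_add 2 (∑ j, τ j), div_pow, div_pow, mul_comm d]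
    field_simp
  · refine dom_levels hL _ (aP d C0 κ κ1 B D) (fun ν => ?_) ((κ + κ1) + 1) _ ?_
    · unfold aP Ca
      positivity
    · intro τ hτ
      unfold TT at hτ
      exact (Finset.mem_filter.1 hτ).2

lemma sum_II_le (d n L κ2 : ℕ) {x : ℝ} (hx : 1 ≤ x) :
    ∑ ν ∈ II d n L κ2, x ^ ν ≤ x ^ n * Sg x (L + 2 * (d * κ2)) := by
  have hx0 : 0 ≤ x := by linarith
  unfold Sg
  rw [Finset.mul_sum]
  have h1 : ∀ ν ∈ II d n L κ2, x ^ ν ≤ x ^ n * x ^ (ν + d * κ2 - n) := by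
    intro ν hν
    unfold II at hν
    rw [Finset.mem_Icc] at hν
    rw [← pow_add]
    exact pow_le_pow_right₀ hx (by omega)
  refine (Finset.sum_le_sum h1).trans ?_
  have h2 : Set.InjOn (fun ν => ν + d * κ2 - n) (II d n L κ2 : Set ℕ) := by
    intro ν hν ν' hν' h
    unfold II at hν hν'
    rw [Finset.mem_coe, Finset.mem_Icc] at hν hν'
    dsimp only at h
    omega
  rw [← Finset.sum_image (f := fun v => x ^ n * x ^ v) h2]
  refine Finset.sum_le_sum_of_subset_of_nonneg ?_ (fun _ _ _ => by positivity)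
  intro v hv
  rw [Finset.mem_image] at hv
  obtain ⟨ν, hν, rfl⟩ := hv
  unfold II at hν
  rw [Finset.mem_Icc] at hν
  rw [Finset.mem_range]
  omega

lemma Bd_mono (d : ℕ) {D : ℝ} (hD : 0 < D) {N N' : ℕ} (h : N ≤ N') : Bd d N D ≤ Bd d N' D := by
  unfold Bd
  have h1 : (N : ℝ) ≤ N' := by exact_mod_cast h
  have h2 : (2 : ℝ) ^ N ≤ 2 ^ N' := pow_le_pow_right₀ (by norm_num) h
  gcongr

end

section
variable {X : Type*} [MeasurableSpace X] {μ : Measure X} [IsProbabilityMeasure μ]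
variable {G : Type*} [AddCommGroup G] {χ : G → X → ℂ} (h : CharSys μ χ) {d : ℕ}
variable {φ : ℕ → ℝ → ℝ} {C0 : ℝ} {κ1 : ℕ} (hs : Supp φ C0 κ1)

include h hs in
theorem torus_bound (hd : 1 ≤ d) (i κ : ℕ) (B : ℝ) (hB : 1 ≤ B) (hB2 : B ≤ 2) :
    ∃ C : ℝ, 1 ≤ C ∧ ∀ (z : G →+ (Fin d → ℝ)) (D : ℝ) (hL : Lat z D) (S : Finset (Fin d → ℕ))
      (Z : Finset G) (n L : ℕ),
      ∫ x, (∑ τ ∈ TT d n L (κ + κ1), B ^ (∑ j, τ j) *
        ‖∑ m ∈ Z, (cc hL φ κ B S τ m : ℂ) * χ m x‖ ^ 2) ^ (2 ^ (i + 1)) ∂μ ≤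
      (C * ((2 / B) ^ n / D * Sg (2 / B) L * Bd d (n + L) D)) ^ (2 ^ (i + 1)) := by
  classical
  have hB0 : 0 < B := by linarith
  have hx : 1 ≤ 2 / B := by rw [le_div_iff₀ hB0]; linarith
  obtain ⟨Cm, hCm, hmom⟩ := moment h hd i
  set κ2 := κ + κ1 with hκ2
  set s := d * κ2 + (κ2 + 1) * d with hs'
  set Cc : ℝ := Ca d C0 κ κ1 B * ((2 * (d * κ2) : ℕ) + 1) * (2 / B) ^ (2 * (d * κ2)) * (Cm * Kd d s) with hCc
  refine ⟨max 1 Cc, le_max_left _ _, ?_⟩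
  intro z D hL S Z n L
  have hD := hL.Dpos
  have hCa : 0 ≤ Ca d C0 κ κ1 B := by unfold Ca; positivity
  have haP : ∀ ν, 0 ≤ aP d C0 κ κ1 B D ν := by
    intro ν
    unfold aP
    positivity
  -- the integral is a coefficient
  set T := TP hL φ κ B S (TT d n L κ2) Z with hT
  have hev : ∀ x, ev h (T ^ (2 ^ (i + 1))) x = (((∑ τ ∈ TT d n L κ2, B ^ (∑ j, τ j) *
        ‖∑ m ∈ Z, (cc hL φ κ B S τ m : ℂ) * χ m x‖ ^ 2) ^ (2 ^ (i + 1)) : ℝ) : ℂ) := by
    intro x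
    rw [ev_pow]
    push_cast
    congr 1
    rw [hT]
    unfold TP
    rw [ev_sum]
    refine Finset.sum_congr rfl fun τ _ => ?_
    rw [ev_smul, ev_Pc_mul_Pcs]
    push_cast
    rfl
  have hint := integral_ev h (T ^ (2 ^ (i + 1)))
  simp_rw [hev] at hint
  rw [integral_complex_ofReal] at hint
  have hint2 : ∫ x, (∑ τ ∈ TT d n L κ2, B ^ (∑ j, τ j) *
        ‖∑ m ∈ Z, (cc hL φ κ B S τ m : ℂ) * χ m x‖ ^ 2) ^ (2 ^ (i + 1)) ∂μ =
        (T ^ (2 ^ (i + 1))).coeff 0 := by exact_mod_cast hint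
  rw [hint2]
  set Q : AddMonoidAlgebra ℝ G := ∑ ν ∈ II d n L κ2, aP d C0 κ κ1 B D ν • EN hL (ν + (κ2 + 1) * d) with hQ
  have hdom : AbsDom T Q := absdom_TP hL hs hd κ B hB S Z n L
  have h1 : (T ^ (2 ^ (i + 1))).coeff 0 ≤ (Q ^ (2 ^ (i + 1))).coeff 0 :=
    (le_abs_self _).trans (hdom.pow _ 0)
  have hNN : NN Q := by
    refine NN_sum fun ν _ => ?_
    intro g
    rw [AddMonoidAlgebra.coeff_smul_apply, smul_eq_mul]
    exact mul_nonneg (haP ν) (NN_EN hL _ g)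
  have hBd0 := Bd_nonneg d (n + L) hD
  have hKd : 0 ≤ Kd d s := by unfold Kd; positivity
  have hSg := one_le_Sg (x := 2 / B) (by linarith) L
  have h2 := coeff_pow_le hL h hNN (II d n L κ2) (aP d C0 κ κ1 B D) haP (fun ν => ν + (κ2 + 1) * d)
    (fun _ => le_rfl) (2 ^ (i + 1))
    (Ca d C0 κ κ1 B / D * ((2 / B) ^ n * (((2 * (d * κ2) : ℕ) + 1) * (2 / B) ^ (2 * (d * κ2)) * Sg (2 / B) L)))
    (Cm * (Kd d s * Bd d (n + L) D)) ?_ (by positivity) ?_
  · refine (h1.trans h2).trans ?_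
    refine pow_le_pow_left₀ (by positivity) ?_ _
    have h3 : Ca d C0 κ κ1 B / D * ((2 / B) ^ n * (((2 * (d * κ2) : ℕ) + 1) * (2 / B) ^ (2 * (d * κ2)) *
        Sg (2 / B) L)) * (Cm * (Kd d s * Bd d (n + L) D)) = Cc * ((2 / B) ^ n / D * Sg (2 / B) L * Bd d (n + L) D) := by
      rw [hCc]; ring
    rw [h3]
    refine mul_le_mul_of_nonneg_right (le_max_right _ _) ?_
    positivity
  · unfold aP
    rw [← Finset.mul_sum, ← Finset.sum_div]
    rw [div_mul_eq_mul_div, mul_div_assoc]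
    refine mul_le_mul_of_nonneg_left ?_ hCa
    refine div_le_div_of_nonneg_right ?_ hD.le
    refine (sum_II_le d n L κ2 hx).trans ?_
    refine mul_le_mul_of_nonneg_left ?_ (by positivity)
    exact Sg_shift hx L (2 * (d * κ2))
  · intro ν hν
    refine (hmom z D hL (ν + (κ2 + 1) * d)).trans ?_
    have hb := Bd_nonneg d (ν + (κ2 + 1) * d) hD
    refine pow_le_pow_left₀ (by positivity) ?_ _
    refine mul_le_mul_of_nonneg_left ?_ (by linarith)
    refine (Bd_mono d hD (N' := n + L + s) ?_).trans (Bd_shift d (n + L) (n + L) s hD le_rfl)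
    unfold II at hν
    rw [Finset.mem_Icc] at hν
    rw [hs']
    omega

end

end Pool.Agent.Helper64.Frolov
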