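import Mathlib
import Pool.Agent.Helper64.Frolov.Y

open MeasureTheory Real
open scoped ENNReal ContDiff Matrix

namespace Pool.Agent.Helper64.Frolov

lemma mem_ZZ {G : Type*} [AddCommGroup G] {d : ℕ} {z : G →+ (Fin d → ℝ)} {D : ℝ} (hL : Lat z D)
    {κ : ℕ} {S : Finset (Fin d → ℕ)} {m : G} (hm : m ∈ ZZ hL κ S) : ∃ t ∈ S, m ∈ Blk hL κ t := by
  classical
  unfold ZZ at hm
  exact Finset.mem_biUnion.1 hm

section
variable {d : ℕ}

lemma supp_of_resolution {φ : ℕ → ℝ → ℝ} (hφ : IsDyadicResolution φ) : ∃ C0 κ1, Supp φ C0 κ1 := by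
  obtain ⟨C, hC⟩ := hφ.deriv_bound 0
  obtain ⟨K, hK0, hK1⟩ := hφ.support
  have h0 : ∀ s ξ, |φ s ξ| ≤ C := by
    intro s ξ
    have := hC s ξ
    rwa [iteratedDeriv_zero, mul_zero, pow_zero, div_one] at this
  obtain ⟨κ1, hκ1⟩ := pow_unbounded_of_one_lt K (by norm_num : (1 : ℝ) < 2)
  refine ⟨C, κ1, (abs_nonneg _).trans (h0 0 0), h0, ?_, ?_, ?_⟩
  · intro ξ hξ
    exact hK0 ξ (hκ1.trans hξ)
  · intro s hs ξ hξ
    refine hK1 s hs ξ (Or.inl ?_)
    exact (mul_le_mul_of_nonneg_right hκ1.le (abs_nonneg _)).trans_lt hξ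
  · intro s hs ξ hξ
    refine hK1 s hs ξ (Or.inr ?_)
    exact (mul_le_mul_of_nonneg_right hκ1.le (by positivity)).trans_lt hξ

lemma chi_comp (A : Matrix (Fin d) (Fin d) ℝ) (a : ℝ) (m : Fin d → ℤ) (x : Fin d → ℝ) :
    chi m ((a • Aᵀ) *ᵥ x) = ee (∑ j, zA A a m j * x j) := by
  unfold chi
  congr 1
  have h1 : ∑ j, (m j : ℝ) * ((a • Aᵀ) *ᵥ x) j = (fun i => (m i : ℝ)) ⬝ᵥ ((a • Aᵀ) *ᵥ x) := rfl
  have h2 : ∑ j, zA A a m j * x j = (a • (A *ᵥ (fun i => (m i : ℝ)))) ⬝ᵥ x := rfl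
  rw [h1, h2, Matrix.smul_mulVec, dotProduct_smul, smul_dotProduct, Matrix.dotProduct_mulVec,
    Matrix.vecMul_transpose]

lemma chi_periodic (m : Fin d → ℤ) (v : Fin d → ℤ) (x : Fin d → ℝ) :
    chi m (fun j => x j + v j) = chi m x := by
  unfold chi
  have : ∑ j, (m j : ℝ) * (x j + v j) = ∑ j, (m j : ℝ) * x j + ((∑ j, m j * v j : ℤ) : ℝ) := by
    push_cast
    rw [← Finset.sum_add_distrib]
    exact Finset.sum_congr rfl fun j _ => by ring
  rw [this, ee_add, ee_int, mul_one]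

theorem cube_bound (A : Matrix (Fin d) (Fin d) ℝ) (hA : IsFrolovMatrix A) {φ : ℕ → ℝ → ℝ} {C0 : ℝ}
    {κ1 : ℕ} (hs : Supp φ C0 κ1) (hd : 1 ≤ d) (i κ : ℕ) (B : ℝ) (hB : 1 ≤ B) (hB2 : B ≤ 2) :
    ∃ C : ℝ, 1 ≤ C ∧ ∀ (a : ℝ) (ha : 1 ≤ a) (S : Finset (Fin d → ℕ)) (Z : Finset (Fin d → ℤ)) (n L : ℕ),
      ∫ x in cube d, (∑ τ ∈ TT d n L (κ + κ1), B ^ (∑ j, τ j) *
        ‖∑ m ∈ Z, (cc (lat_zA A hA a (zero_lt_one.trans_le ha)) φ κ B S τ m : ℂ) *
          ee (∑ j, zA A a m j * x j)‖ ^ 2) ^ (2 ^ (i + 1)) ≤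
      (C * ((2 / B) ^ n / a ^ d * Sg (2 / B) L * Bd d (n + L) (a ^ d))) ^ (2 ^ (i + 1)) := by
  obtain ⟨C, hC1, hC⟩ := torus_bound (charSys (d := d)) hs hd i κ B hB hB2
  set CA : ℝ := ∑ i, ∑ j, |A i j| with hCA
  have hCA0 : 0 ≤ CA := Finset.sum_nonneg fun i _ => Finset.sum_nonneg fun j _ => abs_nonneg _
  have hdet : 0 < |A.det| := abs_pos.2 hA.det_ne_zero
  set κA : ℝ := max 1 (|A.det|⁻¹ * (2 * CA + 3) ^ d) with hκA
  have hκA1 : 1 ≤ κA := le_max_left _ _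
  refine ⟨κA * C, by nlinarith, ?_⟩
  intro a ha S Z n L
  have ha0 : 0 < a := zero_lt_one.trans_le ha
  set hL := lat_zA A hA a ha0 with hhL
  set k := 2 ^ (i + 1) with hk
  have hk1 : 1 ≤ k := Nat.one_le_two_pow
  set Gt : (Fin d → ℝ) → ℝ := fun u => (∑ τ ∈ TT d n L (κ + κ1), B ^ (∑ j, τ j) *
        ‖∑ m ∈ Z, (cc hL φ κ B S τ m : ℂ) * chi m u‖ ^ 2) ^ k with hGt
  have hB0 : 0 < B := by linarith
  have hGt0 : ∀ u, 0 ≤ Gt u := fun u => by rw [hGt]; positivity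
  have hGtc : Continuous Gt := by
    rw [hGt]
    refine Continuous.pow ?_ _
    refine continuous_finsetSum _ fun τ _ => continuous_const.mul (Continuous.pow (Continuous.norm ?_) 2)
    exact continuous_finsetSum _ fun m _ => continuous_const.mul (continuous_chi m)
  set M : Matrix (Fin d) (Fin d) ℝ := a • Aᵀ with hM
  have hdetM : M.det = a ^ d * A.det := by
    rw [hM, Matrix.det_smul, Fintype.card_fin, Matrix.det_transpose]
  have hM0 : M.det ≠ 0 := by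
    rw [hdetM]; exact mul_ne_zero (pow_ne_zero _ ha0.ne') hA.det_ne_zero
  have hcomp : ∀ x, Gt (M *ᵥ x) = (∑ τ ∈ TT d n L (κ + κ1), B ^ (∑ j, τ j) *
        ‖∑ m ∈ Z, (cc hL φ κ B S τ m : ℂ) * ee (∑ j, zA A a m j * x j)‖ ^ 2) ^ k := by
    intro x
    rw [hGt]
    dsimp only
    simp_rw [hM, chi_comp]
  simp_rw [← hcomp]
  have hcont2 : Continuous (fun x => Gt (M *ᵥ x)) := by
    refine hGtc.comp ?_
    exact (Matrix.toLin' M).continuous_of_finiteDimensional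
  rw [integral_eq_lintegral_of_nonneg_ae (Filter.Eventually.of_forall fun x => hGt0 _)
    hcont2.aestronglyMeasurable]
  have h1 := lintegral_comp_matrix_le M hM0 (fun u => ENNReal.ofReal (Gt u))
    hGtc.measurable.ennreal_ofReal (fun v x => by
      rw [hGt]
      simp_rw [chi_periodic]) ⌈a * CA⌉₊ (fun x hx j => by
      have e1 : (M *ᵥ x) j = a * ∑ i, A i j * x i := by
        rw [hM, Matrix.smul_mulVec]
        rfl
      rw [e1, abs_mul, abs_of_pos ha0]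
      refine le_trans (mul_le_mul_of_nonneg_left ?_ ha0.le) (Nat.le_ceil _)
      refine (Finset.abs_sum_le_sum_abs _ _).trans ?_
      rw [hCA]
      refine Finset.sum_le_sum fun i _ => ?_
      rw [abs_mul]
      refine le_trans ?_ (Finset.single_le_sum (f := fun j => |A i j|) (fun j _ => abs_nonneg _)
        (Finset.mem_univ j))
      have h2 := hx i
      have h3 : |x i| ≤ 1 := by rw [abs_of_nonneg h2.1]; exact h2.2
      calc |A i j| * |x i| ≤ |A i j| * 1 := mul_le_mul_of_nonneg_left h3 (abs_nonneg _)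
        _ = |A i j| := mul_one _)
  have h2 : ∫⁻ u in cube d, ENNReal.ofReal (Gt u) = ENNReal.ofReal (∫ u in cube d, Gt u) := by
    refine (ofReal_integral_eq_lintegral_ofReal ?_ (Filter.Eventually.of_forall fun x => hGt0 _)).symm
    have hcompact : IsCompact (cube d) := by
      have : cube d = Set.Icc (fun _ => 0) (fun _ => 1) := by
        ext x
        simp only [cube, Set.mem_ofPred_eq, Set.mem_Icc, Pi.le_def]
        constructor
        · intro h; exact ⟨fun j => (h j).1, fun j => (h j).2⟩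
        · intro h j; exact ⟨h.1 j, h.2 j⟩
      rw [this]
      exact isCompact_Icc
    exact hGtc.continuousOn.integrableOn_compact hcompact
  have hY0 : 0 ≤ (2 / B) ^ n / a ^ d * Sg (2 / B) L * Bd d (n + L) (a ^ d) := by
    have e1 := one_le_Sg (x := 2 / B) (by positivity) L
    have e2 := Bd_nonneg d (n + L) (pow_pos ha0 d)
    positivity
  have h3 : |M.det|⁻¹ * (2 * (⌈a * CA⌉₊ : ℝ) + 1) ^ d ≤ κA := by
    refine le_trans ?_ (le_max_right _ _)
    rw [hdetM, abs_mul, abs_of_pos (pow_pos ha0 d)]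
    have e1 : (⌈a * CA⌉₊ : ℝ) < a * CA + 1 := Nat.ceil_lt_add_one (by positivity)
    have e2 : 2 * (⌈a * CA⌉₊ : ℝ) + 1 ≤ a * (2 * CA + 3) := by nlinarith
    have e3 : (2 * (⌈a * CA⌉₊ : ℝ) + 1) ^ d ≤ a ^ d * (2 * CA + 3) ^ d := by
      rw [← mul_pow]
      exact pow_le_pow_left₀ (by positivity) e2 d
    calc (a ^ d * |A.det|)⁻¹ * (2 * (⌈a * CA⌉₊ : ℝ) + 1) ^ d
        ≤ (a ^ d * |A.det|)⁻¹ * (a ^ d * (2 * CA + 3) ^ d) := mul_le_mul_of_nonneg_left e3 (by positivity)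
      _ = |A.det|⁻¹ * (2 * CA + 3) ^ d := by
        have : a ^ d ≠ 0 := (pow_pos ha0 d).ne'
        field_simp
  have h4 : ∫⁻ x in cube d, ENNReal.ofReal (Gt (M *ᵥ x)) ≤
      ENNReal.ofReal (κA * (C * ((2 / B) ^ n / a ^ d * Sg (2 / B) L * Bd d (n + L) (a ^ d))) ^ k) := by
    refine h1.trans ?_
    rw [h2, ← ENNReal.ofReal_mul (by positivity)]
    refine ENNReal.ofReal_le_ofReal ?_
    refine mul_le_mul h3 (hC (zA A a) (a ^ d) hL S Z n L) ?_ (by linarith)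
    exact integral_nonneg fun u => hGt0 u
  have h5 := ENNReal.toReal_mono ENNReal.ofReal_ne_top h4
  rw [ENNReal.toReal_ofReal (by positivity)] at h5
  refine h5.trans ?_
  rw [mul_assoc κA, mul_pow κA]
  refine mul_le_mul_of_nonneg_right ?_ (by positivity)
  calc κA = κA ^ 1 := (pow_one _).symm
    _ ≤ κA ^ k := pow_le_pow_right₀ hκA1 hk1

theorem norm_bound (A : Matrix (Fin d) (Fin d) ℝ) (hA : IsFrolovMatrix A) {φ : ℕ → ℝ → ℝ}
    (hφ : IsDyadicResolution φ) (hd : 1 ≤ d) (p r : ℝ) (hp : 2 < p) (hr : 0 < r) (hr2 : r ≤ 1 / 2) (κ : ℕ) :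
    ∃ C : ℝ, 0 ≤ C ∧ ∀ (a : ℝ) (ha : 1 ≤ a) (q n L : ℕ), κ ≤ q →
      mixedNorm φ p r (testF (ZZ (lat_zA A hA a (zero_lt_one.trans_le ha)) κ (SS d q n L))
        (ww (lat_zA A hA a (zero_lt_one.trans_le ha)) κ (2 ^ (2 * r)) (SS d q n L)) (zA A a)) ≤
      ENNReal.ofReal (C * (√((2 / 2 ^ (2 * r)) ^ n / a ^ d * Sg (2 / 2 ^ (2 * r)) L * Bd d (n + L) (a ^ d)) +
        (∑ m ∈ ZZ (lat_zA A hA a (zero_lt_one.trans_le ha)) κ (SS d q n L),
          ww (lat_zA A hA a (zero_lt_one.trans_le ha)) κ (2 ^ (2 * r)) (SS d q n L) m) *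
          ((2 ^ (n + L)) ^ r / (2 ^ (q - κ)) ^ r))) := by
  obtain ⟨C0, κ1, hs⟩ := supp_of_resolution hφ
  obtain ⟨i, hi⟩ : ∃ i : ℕ, p / 2 ≤ ((2 ^ (i + 1) : ℕ) : ℝ) := by
    obtain ⟨i, hi⟩ := pow_unbounded_of_one_lt (p / 2) (by norm_num : (1 : ℝ) < 2)
    refine ⟨i, ?_⟩
    push_cast
    rw [pow_succ]
    have : (0 : ℝ) < 2 ^ i := by positivity
    linarith
  set B : ℝ := 2 ^ (2 * r) with hB
  have hB1 : 1 ≤ B := Real.one_le_rpow (by norm_num) (by linarith)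
  have hB2 : B ≤ 2 := by
    calc B ≤ 2 ^ (1 : ℝ) := Real.rpow_le_rpow_of_exponent_le (by norm_num) (by linarith)
      _ = 2 := Real.rpow_one 2
  have hB0 : 0 < B := by linarith
  obtain ⟨Cc, hCc1, hCc⟩ := cube_bound A hA hs hd i κ B hB1 hB2
  obtain ⟨Cn, hCn0, hCn⟩ := mixedNorm_testF_le (d := d) φ hφ p r hp hr (by linarith) (2 ^ (i + 1)) hi
  refine ⟨Cn * (√Cc + 1), by positivity, ?_⟩
  intro a ha q n L hκq
  have ha0 : 0 < a := zero_lt_one.trans_le ha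
  set hL := lat_zA A hA a ha0 with hhL
  set S := SS d q n L with hS
  set Y : ℝ := (2 / B) ^ n / a ^ d * Sg (2 / B) L * Bd d (n + L) (a ^ d) with hY
  have hY0 : 0 < Y := by
    have e1 := one_le_Sg (x := 2 / B) (by positivity) L
    have e2 : 0 < Bd d (n + L) (a ^ d) := by
      unfold Bd
      positivity
    positivity
  have hmem : ∀ m ∈ ZZ hL κ S, ∃ t ∈ S, m ∈ Blk hL κ t := fun m hm => mem_ZZ hL hm
  have hmain := hCn (ZZ hL κ S) (ww hL κ B S) (zA A a) (2 ^ (n + L)) (2 ^ (q - κ)) (Cc * Y)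
    (fun m _ => ww_nonneg hL κ B hB0 S m) (one_le_pow₀ (by norm_num))
    (fun m hm j => by
      obtain ⟨t, ht, hmt⟩ := hmem m hm
      rw [hS, mem_SS] at ht
      have h1 := ((mem_Blk hL).1 hmt).2 j
      have h2 : (2 : ℝ) ^ κ * 2 ^ (q - κ) ≤ 2 ^ κ * |zA A a m j| := by
        refine le_trans ?_ h1
        rw [← pow_add]
        refine pow_le_pow_right₀ (by norm_num) ?_
        have := ht.2.2 j
        omega
      exact le_of_mul_le_mul_left h2 (by positivity))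
    (fun m hm => by
      obtain ⟨t, ht, hmt⟩ := hmem m hm
      rw [hS, mem_SS] at ht
      have h1 := ((mem_Blk hL).1 hmt).1
      refine (Finset.prod_le_prod (fun j _ => abs_nonneg _) (fun j _ => (h1 j).le)).trans ?_
      rw [Finset.prod_pow_eq_pow_sum]
      exact pow_le_pow_right₀ (by norm_num) ht.2.1)
    (TT d n L (κ + κ1)) (fun τ hτ m hm => not_mem_TT hL hs κ q n L τ hτ m hm) (by positivity)
    (by
      refine le_trans (le_of_eq ?_) (hCc a ha S (ZZ hL κ S) n L)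
      refine integral_congr_ae (Filter.Eventually.of_forall fun x => ?_)
      dsimp only
      congr 1
      refine Finset.sum_congr rfl fun τ _ => ?_
      congr 1
      rw [hB, ← Real.rpow_natCast, ← Real.rpow_natCast, ← Real.rpow_mul (by norm_num),
        ← Real.rpow_mul (by norm_num)]
      congr 1
      push_cast
      ring)
  refine hmain.trans (ENNReal.ofReal_le_ofReal ?_)
  rw [mul_assoc Cn]
  refine mul_le_mul_of_nonneg_left ?_ hCn0
  rw [Real.sqrt_mul (by linarith)]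
  have e1 : 0 ≤ √Cc := Real.sqrt_nonneg _
  have e2 : 0 ≤ √Y := Real.sqrt_nonneg _
  have e3 : 0 ≤ (∑ m ∈ ZZ hL κ S, ww hL κ B S m) * ((2 ^ (n + L)) ^ r / (2 ^ (q - κ)) ^ r) := by
    refine mul_nonneg (Finset.sum_nonneg fun m _ => ww_nonneg hL κ B hB0 S m) (by positivity)
  nlinarith

end

end Pool.Agent.Helper64.Frolov
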