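import Mathlib
import Pool.Agent.Helper64.Frolov.Z

open MeasureTheory Real
open scoped ENNReal ContDiff Matrix SchwartzMap

namespace Pool.Agent.Helper64.Frolov

section
variable {d : ℕ}

/-- the nodes -/
noncomputable def yy (A : Matrix (Fin d) (Fin d) ℝ) (a : ℝ) (m : Fin d → ℤ) : Fin d → ℝ :=
  fun j => ((A⁻¹)ᵀ *ᵥ (fun i => (m i : ℝ))) j / a

lemma zA_dot_yy (A : Matrix (Fin d) (Fin d) ℝ) (hA : A.det ≠ 0) (a : ℝ) (ha : a ≠ 0) (m m' : Fin d → ℤ) :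
    ∑ j, zA A a m' j * yy A a m j = ((∑ j, m' j * m j : ℤ) : ℝ) := by
  have h1 : ∑ j, zA A a m' j * yy A a m j =
      (A *ᵥ (fun i => (m' i : ℝ))) ⬝ᵥ ((A⁻¹)ᵀ *ᵥ (fun i => (m i : ℝ))) := by
    unfold dotProduct
    refine Finset.sum_congr rfl fun j _ => ?_
    rw [zA_apply]
    unfold yy
    field_simp
  rw [h1, Matrix.dotProduct_mulVec, Matrix.vecMul_transpose, Matrix.mulVec_mulVec,
    Matrix.nonsing_inv_mul A (isUnit_iff_ne_zero.2 hA), Matrix.one_mulVec]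
  push_cast
  rfl

lemma trigF_yy (A : Matrix (Fin d) (Fin d) ℝ) (hA : A.det ≠ 0) (a : ℝ) (ha : a ≠ 0)
    (Z : Finset (Fin d → ℤ)) (w : (Fin d → ℤ) → ℝ) (m : Fin d → ℤ) :
    trigF Z w (zA A a) (yy A a m) = ((∑ m ∈ Z, w m : ℝ) : ℂ) := by
  unfold trigF
  push_cast
  refine Finset.sum_congr rfl fun m' _ => ?_
  rw [zA_dot_yy A hA a ha, ee_int, mul_one]

lemma frolovRule_testF (A : Matrix (Fin d) (Fin d) ℝ) (hA : A.det ≠ 0) (a : ℝ) (ha : a ≠ 0)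
    (Z : Finset (Fin d → ℤ)) (w : (Fin d → ℤ) → ℝ) :
    frolovRule A a (testF Z w (zA A a)) =
      (((a ^ d * |A.det|)⁻¹ * (∑' m, psiP (yy A a m)) * (∑ m ∈ Z, w m) : ℝ) : ℂ) := by
  unfold frolovRule
  have h1 : ∀ m : Fin d → ℤ, testF Z w (zA A a) (fun j => ((A⁻¹)ᵀ *ᵥ (fun i => (m i : ℝ))) j / a) =
      ((psiP (yy A a m) * (∑ m ∈ Z, w m) : ℝ) : ℂ) := by
    intro m
    unfold testF
    have := trigF_yy A hA a ha Z w m
    unfold yy at this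
    rw [this]
    push_cast
    unfold psiP yy
    push_cast
    rfl
  simp_rw [h1]
  rw [← Complex.ofReal_tsum, tsum_mul_right]
  push_cast
  ring

lemma yy_inv (A : Matrix (Fin d) (Fin d) ℝ) (hA : A.det ≠ 0) (a : ℝ) (ha : a ≠ 0) (m : Fin d → ℤ) (i : Fin d) :
    (m i : ℝ) = a * ∑ j, A j i * yy A a m j := by
  have h1 : Aᵀ *ᵥ ((A⁻¹)ᵀ *ᵥ (fun i => (m i : ℝ))) = fun i => (m i : ℝ) := by
    rw [Matrix.mulVec_mulVec, ← Matrix.transpose_mul, Matrix.nonsing_inv_mul A (isUnit_iff_ne_zero.2 hA),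
      Matrix.transpose_one, Matrix.one_mulVec]
  have h2 := congrFun h1 i
  have h3 : (Aᵀ *ᵥ ((A⁻¹)ᵀ *ᵥ (fun i => (m i : ℝ)))) i = ∑ j, A j i * ((A⁻¹)ᵀ *ᵥ (fun i => (m i : ℝ))) j := rfl
  rw [h3] at h2
  rw [← h2, Finset.mul_sum]
  refine Finset.sum_congr rfl fun j _ => ?_
  unfold yy
  field_simp

lemma summable_psiP (A : Matrix (Fin d) (Fin d) ℝ) (hA : A.det ≠ 0) (a : ℝ) (ha : 0 < a) :
    Summable (fun m => psiP (yy A a m)) := by
  classical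
  set CA : ℝ := ∑ i, ∑ j, |A i j| with hCA
  refine summable_of_ne_finset_zero (s := Fintype.piFinset (fun _ : Fin d => Finset.Icc (-⌈a * CA⌉) ⌈a * CA⌉)) ?_
  intro m hm
  by_contra hne
  apply hm
  have hcube : yy A a m ∈ cube d := by
    by_contra hcon
    exact hne (psiP_zero hcon)
  rw [Fintype.mem_piFinset]
  intro i
  have h1 : |(m i : ℝ)| ≤ a * CA := by
    rw [yy_inv A hA a ha.ne' m i, abs_mul, abs_of_pos ha]
    refine mul_le_mul_of_nonneg_left ?_ ha.le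
    refine (Finset.abs_sum_le_sum_abs _ _).trans ?_
    rw [hCA]
    refine Finset.sum_le_sum fun j _ => ?_
    rw [abs_mul]
    refine le_trans ?_ (Finset.single_le_sum (f := fun i => |A j i|) (fun j _ => abs_nonneg _)
      (Finset.mem_univ i))
    have h2 := hcube j
    have h3 : |yy A a m j| ≤ 1 := by rw [abs_of_nonneg h2.1]; exact h2.2
    calc |A j i| * |yy A a m j| ≤ |A j i| * 1 := mul_le_mul_of_nonneg_left h3 (abs_nonneg _)
      _ = |A j i| := mul_one _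
  rw [Finset.mem_Icc]
  have h4 := abs_le.1 h1
  have h5 : a * CA ≤ ⌈a * CA⌉ := Int.le_ceil _
  constructor
  · have : (-(⌈a * CA⌉ : ℝ)) ≤ m i := by linarith
    exact_mod_cast this
  · have : (m i : ℝ) ≤ ⌈a * CA⌉ := by linarith
    exact_mod_cast this

lemma tsum_psiP_ge (A : Matrix (Fin d) (Fin d) ℝ) (hA : A.det ≠ 0) :
    ∃ ρ : ℝ, 0 < ρ ∧ ∀ a : ℝ, 1 ≤ ρ * a → (ρ * a) ^ d ≤ ∑' m, psiP (yy A a m) := by
  classical
  set CI : ℝ := ∑ i, ∑ j, |A⁻¹ i j| with hCI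
  have hCI0 : 0 ≤ CI := Finset.sum_nonneg fun i _ => Finset.sum_nonneg fun j _ => abs_nonneg _
  set ρ : ℝ := 1 / (4 * (CI + 1)) with hρ
  have hρ0 : 0 < ρ := by positivity
  refine ⟨ρ, hρ0, ?_⟩
  intro a ha
  have ha0 : 0 < a := by
    by_contra hcon
    have : ρ * a ≤ 0 := mul_nonpos_of_nonneg_of_nonpos hρ0.le (not_lt.1 hcon)
    linarith
  -- centre
  set c : Fin d → ℝ := fun i => a * ∑ j, A j i * (1 / 2) with hc
  set F : Finset (Fin d → ℤ) := Fintype.piFinset (fun i => Finset.Icc ⌈c i - ρ * a⌉ ⌊c i + ρ * a⌋) with hF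
  have hone : ∀ m ∈ F, psiP (yy A a m) = 1 := by
    intro m hm
    rw [hF, Fintype.mem_piFinset] at hm
    unfold psiP
    refine Finset.prod_eq_one fun j _ => psi_eq_one ?_
    have h1 : ∀ i, |(m i : ℝ) - c i| ≤ ρ * a := by
      intro i
      have h2 := Finset.mem_Icc.1 (hm i)
      have h3 : c i - ρ * a ≤ m i := Int.ceil_le.1 h2.1
      have h4 : (m i : ℝ) ≤ c i + ρ * a := Int.le_floor.1 h2.2
      rw [abs_le]
      constructor <;> linarith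
    have h5 : (A⁻¹)ᵀ *ᵥ c = fun _ => a * (1 / 2) := by
      have e1 : c = Aᵀ *ᵥ (fun _ => a * (1 / 2)) := by
        funext i
        have e2 : (Aᵀ *ᵥ (fun _ => a * (1 / 2))) i = ∑ j, A j i * (a * (1 / 2)) := rfl
        have e3 : c i = a * ∑ j, A j i * (1 / 2) := rfl
        rw [e3, e2, Finset.mul_sum]
        refine Finset.sum_congr rfl fun j _ => ?_
        ring
      rw [e1, Matrix.mulVec_mulVec, ← Matrix.transpose_mul, Matrix.mul_nonsing_inv A (isUnit_iff_ne_zero.2 hA),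
        Matrix.transpose_one, Matrix.one_mulVec]
    have h6 : yy A a m j - 1 / 2 = (∑ i, A⁻¹ i j * ((m i : ℝ) - c i)) / a := by
      have e1 := congrFun h5 j
      have e2 : ((A⁻¹)ᵀ *ᵥ c) j = ∑ i, A⁻¹ i j * c i := rfl
      have e3 : yy A a m j = (∑ i, A⁻¹ i j * (m i : ℝ)) / a := rfl
      rw [e2] at e1
      rw [e3]
      simp_rw [mul_sub, Finset.sum_sub_distrib]
      rw [e1]
      field_simp
    rw [h6, abs_div, abs_of_pos ha0, div_le_iff₀ ha0]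
    refine (Finset.abs_sum_le_sum_abs _ _).trans ?_
    have h7 : ∑ i, |A⁻¹ i j * ((m i : ℝ) - c i)| ≤ ∑ i, |A⁻¹ i j| * (ρ * a) := by
      refine Finset.sum_le_sum fun i _ => ?_
      rw [abs_mul]
      exact mul_le_mul_of_nonneg_left (h1 i) (abs_nonneg _)
    refine h7.trans ?_
    rw [← Finset.sum_mul]
    have h8 : ∑ i, |A⁻¹ i j| ≤ CI := by
      rw [hCI]
      refine Finset.sum_le_sum fun i _ => ?_
      exact Finset.single_le_sum (f := fun j => |A⁻¹ i j|) (fun j _ => abs_nonneg _) (Finset.mem_univ j)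
    have h9 : CI * ρ ≤ 1 / 4 := by
      rw [hρ, mul_one_div, div_le_div_iff₀ (by positivity) (by norm_num)]
      linarith
    calc (∑ i, |A⁻¹ i j|) * (ρ * a) ≤ CI * (ρ * a) := mul_le_mul_of_nonneg_right h8 (by positivity)
      _ = (CI * ρ) * a := by ring
      _ ≤ 1 / 4 * a := mul_le_mul_of_nonneg_right h9 ha0.le
  have hcard : (ρ * a) ^ d ≤ (F.card : ℝ) := by
    rw [hF, Fintype.card_piFinset]
    push_cast
    have e1 : (ρ * a) ^ d = ∏ _j : Fin d, (ρ * a) := by simp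
    rw [e1]
    refine Finset.prod_le_prod (fun _ _ => by linarith) fun i _ => ?_
    rw [Int.card_Icc]
    have h1 : (((⌊c i + ρ * a⌋ + 1 - ⌈c i - ρ * a⌉).toNat : ℤ) : ℝ) ≥ ((⌊c i + ρ * a⌋ + 1 - ⌈c i - ρ * a⌉ : ℤ) : ℝ) := by
      exact_mod_cast Int.self_le_toNat _
    have h2 : (c i + ρ * a) < ⌊c i + ρ * a⌋ + 1 := Int.lt_floor_add_one _
    have h3 : (⌈c i - ρ * a⌉ : ℝ) < c i - ρ * a + 1 := Int.ceil_lt_add_one _
    push_cast at h1
    have h4 : (((⌊c i + ρ * a⌋ + 1 - ⌈c i - ρ * a⌉).toNat : ℕ) : ℝ) = (((⌊c i + ρ * a⌋ + 1 - ⌈c i - ρ * a⌉).toNat : ℤ) : ℝ) := by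
      push_cast; rfl
    rw [h4]
    push_cast
    linarith
  refine hcard.trans ?_
  have h10 := (summable_psiP A hA a ha0).sum_le_tsum F (fun m _ => psiP_nonneg _)
  rw [Finset.sum_congr rfl hone, Finset.sum_const, nsmul_eq_mul, mul_one] at h10
  exact h10

lemma gam_decay : ∃ Cg : ℝ, 0 ≤ Cg ∧ ∀ η : ℝ, |η| * ‖gam η‖ ≤ Cg := by
  obtain ⟨C, hC0, hC⟩ := gam.decay 1 0
  refine ⟨C, hC0.le, fun η => ?_⟩
  have := hC η
  rwa [pow_one, norm_iteratedFDeriv_zero, Real.norm_eq_abs] at this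

lemma integral_testF_le {G : Type*} : ∃ Cg : ℝ, 0 ≤ Cg ∧ ∀ (Z : Finset G) (w : G → ℝ) (z : G → Fin d → ℝ) (R : ℝ),
    (∀ m ∈ Z, 0 ≤ w m) → 0 < R → (∀ m ∈ Z, ∀ j, R ≤ |z m j|) →
    ‖∫ x, testF Z w z x‖ ≤ (∑ m ∈ Z, w m) * (Cg / R) ^ d := by
  obtain ⟨Cg, hCg0, hCg⟩ := gam_decay
  refine ⟨Cg, hCg0, ?_⟩
  intro Z w z R hw hR hz
  have h1 := fourierT_testF Z w z 0
  have h2 : fourierT (testF Z w z) 0 = ∫ x, testF Z w z x := by
    unfold fourierT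
    refine integral_congr_ae (Filter.Eventually.of_forall fun x => ?_)
    simp [ee_zero]
  rw [← h2, h1, Finset.sum_mul]
  refine (norm_sum_le _ _).trans (Finset.sum_le_sum fun m hm => ?_)
  rw [norm_mul, Complex.norm_real, Real.norm_of_nonneg (hw m hm), norm_prod]
  refine mul_le_mul_of_nonneg_left ?_ (hw m hm)
  have e1 : (Cg / R) ^ d = ∏ _j : Fin d, (Cg / R) := by
    rw [Finset.prod_const, Finset.card_univ, Fintype.card_fin]
  rw [e1]
  refine Finset.prod_le_prod (fun _ _ => norm_nonneg _) fun j _ => ?_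
  rw [Pi.zero_apply, zero_sub, le_div_iff₀ hR]
  have h3 := hCg (-z m j)
  rw [abs_neg] at h3
  calc ‖gam (-z m j)‖ * R ≤ ‖gam (-z m j)‖ * |z m j| := mul_le_mul_of_nonneg_left (hz m hm j) (norm_nonneg _)
    _ = |z m j| * ‖gam (-z m j)‖ := mul_comm _ _
    _ ≤ Cg := h3

lemma lpPiece_smul (φ : ℕ → ℝ → ℝ) (s : Fin d → ℕ) (c : ℂ) (f : (Fin d → ℝ) → ℂ) (x : Fin d → ℝ) :
    lpPiece φ s (fun y => c * f y) x = c * lpPiece φ s f x := by
  unfold lpPiece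
  have h1 : ∀ ξ : Fin d → ℝ, fourierT (fun y => c * f y) ξ = c * fourierT f ξ := by
    intro ξ
    unfold fourierT
    rw [← integral_const_mul]
    refine integral_congr_ae (Filter.Eventually.of_forall fun x => ?_)
    ring
  simp_rw [h1]
  rw [← integral_const_mul]
  refine integral_congr_ae (Filter.Eventually.of_forall fun x => ?_)
  ring

lemma mixedNorm_smul (φ : ℕ → ℝ → ℝ) (p r : ℝ) (hp : 0 < p) (c : ℂ) (f : (Fin d → ℝ) → ℂ) :
    mixedNorm φ p r (fun y => c * f y) = ‖c‖ₑ * mixedNorm φ p r f := by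
  unfold mixedNorm
  have h1 : ∀ x : Fin d → ℝ, (∑' s : Fin d → ℕ,
    (ENNReal.ofReal (2 ^ (r * ∑ j, (s j : ℝ))) * ‖lpPiece φ s (fun y => c * f y) x‖ₑ) ^ 2) ^ (p / 2) =
    ‖c‖ₑ ^ p * (∑' s : Fin d → ℕ,
    (ENNReal.ofReal (2 ^ (r * ∑ j, (s j : ℝ))) * ‖lpPiece φ s f x‖ₑ) ^ 2) ^ (p / 2) := by
    intro x
    have h2 : ∀ s : Fin d → ℕ, (ENNReal.ofReal (2 ^ (r * ∑ j, (s j : ℝ))) * ‖lpPiece φ s (fun y => c * f y) x‖ₑ) ^ 2 =
      ‖c‖ₑ ^ 2 * (ENNReal.ofReal (2 ^ (r * ∑ j, (s j : ℝ))) * ‖lpPiece φ s f x‖ₑ) ^ 2 := by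
      intro s
      rw [lpPiece_smul, enorm_mul]
      ring
    simp_rw [h2]
    rw [ENNReal.tsum_mul_left, ENNReal.mul_rpow_of_nonneg _ _ (by positivity)]
    congr 1
    rw [← ENNReal.rpow_natCast, ← ENNReal.rpow_mul]
    congr 1
    push_cast
    ring
  simp_rw [h1]
  rw [lintegral_const_mul' _ _ (ENNReal.rpow_ne_top_of_nonneg hp.le (by simp)),
    ENNReal.mul_rpow_of_nonneg _ _ (by positivity), ← ENNReal.rpow_mul, mul_one_div_cancel hp.ne',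
    ENNReal.rpow_one]

lemma frolovRule_smul (A : Matrix (Fin d) (Fin d) ℝ) (a : ℝ) (c : ℂ) (f : (Fin d → ℝ) → ℂ) :
    frolovRule A a (fun y => c * f y) = c * frolovRule A a f := by
  unfold frolovRule
  rw [tsum_mul_left]
  ring

lemma error_ge (A : Matrix (Fin d) (Fin d) ℝ) (a : ℝ) (φ : ℕ → ℝ → ℝ) (p r : ℝ) (hp : 0 < p)
    (f : (Fin d → ℝ) → ℂ) (hf : Continuous f) (hsupp : ∀ x, f x ≠ 0 → ∀ j, 0 ≤ x j ∧ x j ≤ 1)
    (N : ℝ) (hN : 0 < N) (hnorm : mixedNorm φ p r f ≤ ENNReal.ofReal N) (E : ℝ)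
    (hE : E ≤ ‖frolovRule A a f - ∫ x, f x‖) :
    ENNReal.ofReal (E / N) ≤ frolovError A a φ p r := by
  have h1 : (fun y => ((N⁻¹ : ℝ) : ℂ) * f y) ∈ unitBall d φ p r := by
    refine ⟨continuous_const.mul hf, fun x hx => hsupp x ?_, ?_⟩
    · intro h0
      apply hx
      change ((N⁻¹ : ℝ) : ℂ) * f x = 0
      rw [h0, mul_zero]
    · rw [mixedNorm_smul φ p r hp]
      refine (mul_le_mul' le_rfl hnorm).trans ?_
      have e1 : ‖((N⁻¹ : ℝ) : ℂ)‖ₑ = ENNReal.ofReal N⁻¹ := by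
        rw [← ofReal_norm, Complex.norm_real, Real.norm_of_nonneg (by positivity)]
      rw [e1, ← ENNReal.ofReal_mul (by positivity), inv_mul_cancel₀ hN.ne', ENNReal.ofReal_one]
  have h2 : ‖frolovRule A a (fun y => ((N⁻¹ : ℝ) : ℂ) * f y) - ∫ x, ((N⁻¹ : ℝ) : ℂ) * f x‖ₑ ≤
      frolovError A a φ p r := by
    unfold frolovError
    exact le_iSup₂ (f := fun (g : (Fin d → ℝ) → ℂ) (_ : g ∈ unitBall d φ p r) =>
      ‖frolovRule A a g - ∫ x : Fin d → ℝ, g x‖ₑ) _ h1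
  refine le_trans ?_ h2
  rw [frolovRule_smul, integral_const_mul, ← mul_sub, ← ofReal_norm]
  refine ENNReal.ofReal_le_ofReal ?_
  rw [norm_mul, Complex.norm_real, Real.norm_of_nonneg (by positivity), div_eq_inv_mul]
  exact mul_le_mul_of_nonneg_left hE (by positivity)

end

end Pool.Agent.Helper64.Frolov
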