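import Mathlib
import Pool.Agent.Helper64.Frolov.AA

open MeasureTheory Real Filter
open scoped ENNReal ContDiff Matrix

namespace Pool.Agent.Helper64.Frolov

lemma log_fact1 (d n : ℕ) (hn : 1 ≤ n) : (2 : ℝ) ^ (Nat.log 2 (n ^ (d - 1))) ≤ (n : ℝ) ^ (d - 1) := by
  have h1 : 2 ^ (Nat.log 2 (n ^ (d - 1))) ≤ n ^ (d - 1) :=
    Nat.pow_log_le_self 2 (pow_pos (by omega) _).ne'
  exact_mod_cast h1

lemma log_fact2 (d n : ℕ) (hn : 1 ≤ n) (hd : 1 ≤ d) :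
    (n : ℝ) + (Nat.log 2 (n ^ (d - 1)) : ℕ) + 1 ≤ ((d : ℝ) + 1) * n := by
  have h1 : 2 ^ (Nat.log 2 (n ^ (d - 1))) ≤ n ^ (d - 1) :=
    Nat.pow_log_le_self 2 (pow_pos (by omega) _).ne'
  have h2 : n ^ (d - 1) ≤ 2 ^ (n * (d - 1)) := by
    rw [pow_mul]
    exact Nat.pow_le_pow_left Nat.lt_two_pow_self.le _
  have h3 : Nat.log 2 (n ^ (d - 1)) ≤ n * (d - 1) :=
    (Nat.pow_le_pow_iff_right (by norm_num)).1 (h1.trans h2)
  have h4 : n + Nat.log 2 (n ^ (d - 1)) + 1 ≤ (d + 1) * n := by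
    obtain ⟨e, rfl⟩ : ∃ e, d = e + 1 := ⟨d - 1, by omega⟩
    simp only [Nat.add_sub_cancel] at h3 ⊢
    nlinarith
  exact_mod_cast h4

lemma Sg_le {x : ℝ} (hx0 : 0 ≤ x) (hx : x ≤ 2) (L : ℕ) : Sg x L ≤ 2 * 2 ^ L := by
  unfold Sg
  have h1 : ∑ v ∈ Finset.range (L + 1), x ^ v ≤ ∑ v ∈ Finset.range (L + 1), (2 : ℝ) ^ v :=
    Finset.sum_le_sum fun v _ => pow_le_pow_left₀ hx0 hx v
  refine h1.trans ?_
  rw [geom_sum_eq (by norm_num), pow_succ]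
  norm_num
  linarith

lemma exp_decay (d : ℕ) (θ : ℝ) (h0 : 0 ≤ θ) (h1 : θ < 1) : ∃ C5 : ℝ, 0 ≤ C5 ∧ ∀ n : ℕ, (n : ℝ) ^ (2 * d) * θ ^ n ≤ C5 := by
  have h2 := tendsto_pow_const_mul_const_pow_of_abs_lt_one (2 * d) (r := θ) (by rwa [abs_of_nonneg h0])
  obtain ⟨C, hC⟩ := h2.bddAbove_range
  refine ⟨C, ?_, fun n => hC ⟨n, rfl⟩⟩
  have := hC ⟨0, rfl⟩
  refine le_trans ?_ this
  positivity

lemma PR_bound (d : ℕ) (hd : 1 ≤ d) (r : ℝ) (hr : 0 < r) (hr1 : r ≤ 1) (κ n q : ℕ) (hn : 1 ≤ n) (hq : q = n / (2 * d))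
    (hκ : κ ≤ q) :
    ((2 : ℝ) ^ (n + Nat.log 2 (n ^ (d - 1)))) ^ r / (2 ^ (q - κ)) ^ r ≤
      √((2 ^ (2 * r)) ^ n) * (n : ℝ) ^ (d - 1) * 2 ^ (r * (κ + 1)) * ((2 : ℝ) ^ (-(r / (2 * d)))) ^ n := by
  have hd0 : (0 : ℝ) < d := by exact_mod_cast hd
  have e1 : √(((2 : ℝ) ^ (2 * r)) ^ n) = 2 ^ (r * n) := by
    rw [Real.sqrt_eq_rpow, ← Real.rpow_natCast, ← Real.rpow_mul (by positivity), ← Real.rpow_mul (by positivity)]
    congr 1
    ring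
  have e2 : ((2 : ℝ) ^ (n + Nat.log 2 (n ^ (d - 1)))) ^ r ≤ 2 ^ (r * n) * (n : ℝ) ^ (d - 1) := by
    rw [pow_add, Real.mul_rpow (by positivity) (by positivity)]
    have e3 : ((2 : ℝ) ^ n) ^ r = 2 ^ (r * n) := by
      rw [← Real.rpow_natCast, ← Real.rpow_mul (by norm_num)]
      congr 1
      ring
    rw [e3]
    refine mul_le_mul_of_nonneg_left ?_ (by positivity)
    have e4 : (1 : ℝ) ≤ (n : ℝ) ^ (d - 1) := one_le_pow₀ (by exact_mod_cast hn)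
    calc ((2 : ℝ) ^ Nat.log 2 (n ^ (d - 1))) ^ r ≤ ((n : ℝ) ^ (d - 1)) ^ r :=
          Real.rpow_le_rpow (by positivity) (log_fact1 d n hn) hr.le
      _ ≤ ((n : ℝ) ^ (d - 1)) ^ (1 : ℝ) := Real.rpow_le_rpow_of_exponent_le e4 hr1
      _ = _ := Real.rpow_one _
  have e5 : ((2 : ℝ) ^ (q - κ)) ^ r = 2 ^ (r * q - r * κ) := by
    rw [← Real.rpow_natCast, ← Real.rpow_mul (by norm_num), Nat.cast_sub hκ]
    congr 1
    ring
  have e6 : ((2 : ℝ) ^ (-(r / (2 * d)))) ^ n = 2 ^ (-(r * n / (2 * d))) := by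
    rw [← Real.rpow_natCast, ← Real.rpow_mul (by norm_num)]
    congr 1
    ring
  rw [e1, e5, e6, div_le_iff₀ (by positivity)]
  refine e2.trans ?_
  have e7 : (n : ℝ) / (2 * d) ≤ q + 1 := by
    rw [div_le_iff₀ (by positivity)]
    have : n < (2 * d) * (q + 1) := by
      rw [hq]
      exact Nat.lt_mul_div_succ n (by omega)
    have h2 : (n : ℝ) < (2 * d) * (q + 1) := by exact_mod_cast this
    linarith
  have e8 : (1 : ℝ) ≤ 2 ^ (r * (κ + 1)) * 2 ^ (-(r * n / (2 * d))) * 2 ^ (r * q - r * κ) := by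
    rw [← Real.rpow_add (by norm_num), ← Real.rpow_add (by norm_num)]
    refine Real.one_le_rpow (by norm_num) ?_
    have : r * n / (2 * d) = r * (n / (2 * d)) := by ring
    rw [this]
    nlinarith
  have e9 : 0 ≤ (2 : ℝ) ^ (r * n) * (n : ℝ) ^ (d - 1) := by positivity
  calc (2 : ℝ) ^ (r * n) * (n : ℝ) ^ (d - 1) = (2 : ℝ) ^ (r * n) * (n : ℝ) ^ (d - 1) * 1 := by ring
    _ ≤ (2 : ℝ) ^ (r * n) * (n : ℝ) ^ (d - 1) *
        (2 ^ (r * (κ + 1)) * 2 ^ (-(r * n / (2 * d))) * 2 ^ (r * q - r * κ)) :=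
        mul_le_mul_of_nonneg_left e8 e9
    _ = _ := by ring

lemma second_aux (Λ W CW PR sB nd K θn C5 Sx Bn : ℝ) (hΛ : 0 ≤ Λ) (hCW : 0 ≤ CW) (hWle : W ≤ CW * Λ)
    (hPR0 : 0 ≤ PR) (hPR : PR ≤ sB * nd * K * θn) (hnd : 0 ≤ nd) (hK : 0 ≤ K) (hθn : 0 ≤ θn)
    (hBn : nd * Sx = Λ * Bn) (hsB : sB = √Bn) (hSx : Sx ≤ 2 * nd) (hC5 : nd * nd * θn ≤ C5) :
    W * PR ≤ CW * 2 * K * C5 * √Λ := by
  have h0 : 0 ≤ √Λ := Real.sqrt_nonneg _
  have h1 : W * PR ≤ CW * Λ * (sB * nd * K * θn) :=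
    mul_le_mul hWle hPR hPR0 (mul_nonneg hCW hΛ)
  refine h1.trans ?_
  have h2 : Λ * sB = √Λ * √(nd * Sx) := by
    rw [hBn, Real.sqrt_mul hΛ, ← mul_assoc, Real.mul_self_sqrt hΛ, hsB]
  have h3 : √(nd * Sx) ≤ 2 * nd := by
    rw [Real.sqrt_le_left (by positivity)]
    calc nd * Sx ≤ nd * (2 * nd) := mul_le_mul_of_nonneg_left hSx hnd
      _ ≤ (2 * nd) ^ 2 := by
        have : 0 ≤ nd * nd := mul_nonneg hnd hnd
        linarith [this, show (2 * nd) ^ 2 = 4 * (nd * nd) by ring, show nd * (2 * nd) = 2 * (nd * nd) by ring]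
  calc CW * Λ * (sB * nd * K * θn) = CW * (Λ * sB) * (nd * K * θn) := by ring
    _ = CW * (√Λ * √(nd * Sx)) * (nd * K * θn) := by rw [h2]
    _ ≤ CW * (√Λ * (2 * nd)) * (nd * K * θn) :=
      mul_le_mul_of_nonneg_right (mul_le_mul_of_nonneg_left (mul_le_mul_of_nonneg_left h3 h0) hCW)
        (by positivity)
    _ = CW * 2 * K * √Λ * (nd * nd * θn) := by ring
    _ ≤ CW * 2 * K * √Λ * C5 := mul_le_mul_of_nonneg_left hC5 (by positivity)
    _ = _ := by ring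

lemma norm_aux (Cn a1 b1 a2 b2 s : ℝ) (hCn : 0 ≤ Cn) (hs : 0 ≤ s) (h1 : a1 ≤ a2 * s) (h2 : b1 ≤ b2 * s) :
    Cn * (a1 + b1) ≤ (Cn * (a2 + b2) + 1) * s := by
  have h3 : Cn * (a1 + b1) ≤ Cn * (a2 * s + b2 * s) := mul_le_mul_of_nonneg_left (add_le_add h1 h2) hCn
  have h4 : (Cn * (a2 + b2) + 1) * s = Cn * (a2 * s + b2 * s) + s := by ring
  linarith

section
variable {d : ℕ}

set_option maxHeartbeats 1000000 in
theorem lower_main (A : Matrix (Fin d) (Fin d) ℝ) (hA : IsFrolovMatrix A) {φ : ℕ → ℝ → ℝ}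
    (hφ : IsDyadicResolution φ) (hd : 1 ≤ d) (p r : ℝ) (hp : 2 < p) (hr : 0 < r) (hr2 : r ≤ 1 / 2) :
    ∃ c : ℝ, 0 < c ∧ ∃ n0 : ℕ, ∃ a0 : ℝ, ∀ a : ℝ, a0 ≤ a → ∀ n : ℕ, n0 ≤ n →
      8 * |A.det| * a ^ d ≤ 2 ^ n → (2 : ℝ) ^ n ≤ 16 * |A.det| * a ^ d →
      ENNReal.ofReal (c * √(((2 ^ (2 * r)) ^ n)⁻¹ * (n : ℝ) ^ (d - 1) *
        Sg (2 / 2 ^ (2 * r)) (Nat.log 2 (n ^ (d - 1))))) ≤ frolovError A a φ p r := by
  classical
  set δ : ℝ := |A.det| with hδ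
  have hδ0 : 0 < δ := abs_pos.2 hA.det_ne_zero
  have hd0 : (0 : ℝ) < d := by exact_mod_cast hd
  obtain ⟨κ, hκ'⟩ := pow_unbounded_of_one_lt ((d : ℝ) * 2 ^ (d + 2) * δ) (by norm_num : (1 : ℝ) < 2)
  have hκ : (d : ℝ) * 2 ^ (d + 2) * δ ≤ 2 ^ κ := hκ'.le
  obtain ⟨Cn, hCn0, hCn⟩ := norm_bound A hA hφ hd p r hp hr hr2 κ
  obtain ⟨ρ, hρ0, hρ⟩ := tsum_psiP_ge A hA.det_ne_zero
  obtain ⟨Cg, hCg0, hCg⟩ := integral_testF_le (d := d) (G := Fin d → ℤ)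
  set B : ℝ := 2 ^ (2 * r) with hB
  have hB1 : 1 ≤ B := Real.one_le_rpow (by norm_num) (by linarith)
  have hB2 : B ≤ 2 := by
    calc B ≤ 2 ^ (1 : ℝ) := Real.rpow_le_rpow_of_exponent_le (by norm_num) (by linarith)
      _ = 2 := Real.rpow_one 2
  have hB0 : 0 < B := by linarith
  set x : ℝ := 2 / B with hx
  have hx0 : 0 < x := by positivity
  have hx2 : x ≤ 2 := by rw [hx, div_le_iff₀ hB0]; linarith
  set θ : ℝ := (2 : ℝ) ^ (-(r / (2 * d))) with hθ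
  have hθ0 : 0 < θ := by positivity
  have hθ1 : θ < 1 := Real.rpow_lt_one_of_one_lt_of_neg (by norm_num) (by
    have : 0 < r / (2 * d) := by positivity
    linarith)
  obtain ⟨C5, hC50, hC5⟩ := exp_decay d θ hθ0.le hθ1
  -- q tends to infinity
  have hlim : ∃ n1 : ℕ, ∀ n ≥ n1, κ ≤ n / (2 * d) ∧
      (Cg / (2 : ℝ) ^ (n / (2 * d) - κ)) ^ d ≤ ρ ^ d / (2 * δ) := by
    have h1 : Tendsto (fun u : ℕ => (Cg / (2 : ℝ) ^ u) ^ d) atTop (nhds 0) := by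
      have h2 : Tendsto (fun u : ℕ => Cg / (2 : ℝ) ^ u) atTop (nhds 0) :=
        Tendsto.const_div_atTop (tendsto_pow_atTop_atTop_of_one_lt (by norm_num)) Cg
      have h3 := h2.pow d
      rwa [zero_pow (by omega)] at h3
    have h2 : ∀ᶠ u : ℕ in atTop, (Cg / (2 : ℝ) ^ u) ^ d ≤ ρ ^ d / (2 * δ) :=
      h1.eventually (eventually_le_nhds (by positivity))
    obtain ⟨u0, hu0⟩ := eventually_atTop.1 h2
    refine ⟨(2 * d) * (κ + u0), fun n hn => ?_⟩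
    have h3 : κ + u0 ≤ n / (2 * d) := by
      rw [Nat.le_div_iff_mul_le (by omega), mul_comm]
      exact hn
    exact ⟨by omega, hu0 _ (by omega)⟩
  obtain ⟨n1, hn1⟩ := hlim
  -- constants
  set CB : ℝ := ((d : ℝ) + 1) ^ (d - 1) + 16 * δ with hCB
  set CW : ℝ := ((d : ℝ) + 1) ^ (d - 1) * (2 ^ (d + 1) * (16 * δ)) with hCW
  have hCB0 : 0 < CB := by positivity
  have hCW0 : 0 < CW := by positivity
  set CN : ℝ := Cn * (√(16 * δ * CB) + CW * 2 * 2 ^ (r * (κ + 1)) * C5) + 1 with hCN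
  have hCN0 : 0 < CN := by positivity
  set cE : ℝ := ρ ^ d / (2 * δ) * (((2 * d : ℝ)) ^ (d - 1))⁻¹ with hcE
  have hcE0 : 0 < cE := by positivity
  refine ⟨cE / CN, by positivity, max 1 n1, max 1 (1 / ρ), ?_⟩
  intro a ha n hn hlo hhi
  have ha1 : 1 ≤ a := (le_max_left _ _).trans ha
  have ha0 : 0 < a := by linarith
  have haρ : 1 ≤ ρ * a := by
    have := (le_max_right _ _).trans ha
    rw [div_le_iff₀ hρ0] at this
    linarith
  have hnn : 1 ≤ n := (le_max_left _ _).trans hn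
  obtain ⟨hκq, hqR⟩ := hn1 n ((le_max_right _ _).trans hn)
  set q : ℕ := n / (2 * d) with hq
  set L : ℕ := Nat.log 2 (n ^ (d - 1)) with hL'
  set hL := lat_zA A hA a (zero_lt_one.trans_le ha1) with hhL
  set S := SS d q n L with hS
  set W : ℝ := ∑ m ∈ ZZ hL κ S, ww hL κ B S m with hW
  have hn0' : (0 : ℝ) < n := by exact_mod_cast hnn
  have hSg1 := one_le_Sg hx0.le L
  set Λ : ℝ := (B ^ n)⁻¹ * (n : ℝ) ^ (d - 1) * Sg x L with hΛ
  have hΛ0 : 0 < Λ := by positivity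
  have had : (0 : ℝ) < a ^ d := by positivity
  have h2a : (2 : ℝ) ^ n / a ^ d ≤ 16 * δ := by rw [div_le_iff₀ had]; exact hhi
  have hNL : ((n : ℝ) + L + 1) ^ (d - 1) ≤ ((d : ℝ) + 1) ^ (d - 1) * (n : ℝ) ^ (d - 1) := by
    rw [← mul_pow]
    exact pow_le_pow_left₀ (by positivity) (log_fact2 d n hnn hd) _
  have h2L : (2 : ℝ) ^ L ≤ (n : ℝ) ^ (d - 1) := log_fact1 d n hnn
  -- lower bound of the weight sum
  have hqn : 2 * d * q ≤ n := by
    rw [hq, mul_comm]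
    exact Nat.div_mul_le_self n (2 * d)
  have hWge : (((2 * d : ℝ)) ^ (d - 1))⁻¹ * Λ ≤ W := by
    have h1 := sum_ww_ge hL hd κ B hB0 q n L hqn (fun t ht => by
      rw [mem_SS] at ht
      exact card_Blk_ge hL δ hδ0 κ n t (card_Box_ge A hA a (zero_lt_one.trans_le ha1) t) hκ
        (fun j => hκq.trans (ht.2.2 j)) hlo ht.1)
    refine le_trans ?_ h1
    have h2 : (n : ℝ) ≤ 2 * d * (q + 1) := by
      have : n < (2 * d) * (q + 1) := by
        rw [hq]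
        exact Nat.lt_mul_div_succ n (by omega)
      have h2 : (n : ℝ) < (2 * d) * (q + 1) := by exact_mod_cast this
      exact h2.le
    have h3 : (n : ℝ) ^ (d - 1) ≤ (2 * d) ^ (d - 1) * ((q : ℝ) + 1) ^ (d - 1) := by
      rw [← mul_pow]
      exact pow_le_pow_left₀ hn0'.le h2 _
    have h4 : (((2 * d : ℝ)) ^ (d - 1))⁻¹ * (n : ℝ) ^ (d - 1) ≤ ((q : ℝ) + 1) ^ (d - 1) := by
      rw [inv_mul_le_iff₀ (by positivity)]
      exact h3
    have h5 : (((2 * d : ℝ)) ^ (d - 1))⁻¹ * Λ =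
        (((2 * d : ℝ)) ^ (d - 1))⁻¹ * (n : ℝ) ^ (d - 1) * ((B ^ n)⁻¹ * Sg x L) := by
      rw [hΛ]; ring
    rw [h5, mul_assoc (((q : ℝ) + 1) ^ (d - 1))]
    exact mul_le_mul_of_nonneg_right h4 (by positivity)
  have hW0 : 0 < W := lt_of_lt_of_le (by positivity) hWge
  -- upper bound of the weight sum
  have hWle : W ≤ CW * Λ := by
    refine (sum_ww_le hL hd κ B hB0 q n L).trans ?_
    have h1 : CW * Λ = (((d : ℝ) + 1) ^ (d - 1) * (n : ℝ) ^ (d - 1)) * (2 ^ (d + 1) * (16 * δ)) * (B ^ n)⁻¹ * Sg x L := by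
      rw [hCW, hΛ]; ring
    rw [h1]
    refine mul_le_mul_of_nonneg_right (mul_le_mul_of_nonneg_right ?_ (by positivity)) (by linarith)
    refine mul_le_mul hNL ?_ (by positivity) (by positivity)
    exact mul_le_mul_of_nonneg_left h2a (by positivity)
  -- the norm
  have hY : (2 / B) ^ n / a ^ d * Sg (2 / B) L * Bd d (n + L) (a ^ d) ≤ 16 * δ * CB * Λ := by
    have h1 : Bd d (n + L) (a ^ d) ≤ CB * (n : ℝ) ^ (d - 1) := by
      unfold Bd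
      rw [hCB, add_mul]
      push_cast
      refine add_le_add hNL ?_
      rw [pow_add, mul_div_right_comm]
      exact mul_le_mul h2a h2L (by positivity) (by positivity)
    have h2 : (2 / B) ^ n / a ^ d ≤ (B ^ n)⁻¹ * (16 * δ) := by
      rw [div_pow]
      calc (2 : ℝ) ^ n / B ^ n / a ^ d = (B ^ n)⁻¹ * (2 ^ n / a ^ d) := by field_simp
        _ ≤ (B ^ n)⁻¹ * (16 * δ) := mul_le_mul_of_nonneg_left h2a (by positivity)
    calc (2 / B) ^ n / a ^ d * Sg (2 / B) L * Bd d (n + L) (a ^ d)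
        ≤ ((B ^ n)⁻¹ * (16 * δ)) * Sg x L * (CB * (n : ℝ) ^ (d - 1)) := by
          refine mul_le_mul (mul_le_mul_of_nonneg_right h2 (by linarith)) h1 (Bd_nonneg d (n + L) had) (by positivity)
      _ = 16 * δ * CB * Λ := by rw [hΛ]; ring
  have hPR := PR_bound d hd r hr (by linarith) κ n q hnn hq hκq
  have hsecond : W * ((2 ^ (n + L)) ^ r / (2 ^ (q - κ)) ^ r) ≤ CW * 2 * 2 ^ (r * (κ + 1)) * C5 * √Λ := by
    refine second_aux Λ W CW _ (√(B ^ n)) ((n : ℝ) ^ (d - 1)) (2 ^ (r * (κ + 1))) (θ ^ n) C5 (Sg x L) (B ^ n)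
      hΛ0.le hCW0.le hWle ?_ hPR ?_ ?_ ?_ ?_ rfl ?_ ?_
    · exact div_nonneg (Real.rpow_nonneg (pow_nonneg (by norm_num) _) _)
        (Real.rpow_nonneg (pow_nonneg (by norm_num) _) _)
    · exact pow_nonneg hn0'.le _
    · exact Real.rpow_nonneg (by norm_num) _
    · exact pow_nonneg hθ0.le _
    · rw [hΛ]
      have : B ^ n ≠ 0 := (pow_pos hB0 n).ne'
      field_simp
    · exact (Sg_le hx0.le hx2 L).trans (by linarith)
    · refine le_trans ?_ (hC5 n)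
      refine mul_le_mul_of_nonneg_right ?_ (pow_nonneg hθ0.le _)
      rw [← pow_add]
      exact pow_le_pow_right₀ (by exact_mod_cast hnn) (by omega)
  have hnorm : mixedNorm φ p r (testF (ZZ hL κ S) (ww hL κ B S) (zA A a)) ≤ ENNReal.ofReal (CN * √Λ) := by
    refine (hCn a ha1 q n L hκq).trans (ENNReal.ofReal_le_ofReal ?_)
    have h1 : √((2 / B) ^ n / a ^ d * Sg (2 / B) L * Bd d (n + L) (a ^ d)) ≤ √(16 * δ * CB) * √Λ := by
      rw [← Real.sqrt_mul (by positivity)]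
      exact Real.sqrt_le_sqrt hY
    exact norm_aux Cn _ _ _ _ (√Λ) hCn0 (Real.sqrt_nonneg _) h1 hsecond
  -- the error
  have hmem : ∀ m ∈ ZZ hL κ S, ∀ j, (2 : ℝ) ^ (q - κ) ≤ |zA A a m j| := by
    intro m hm j
    obtain ⟨t, ht, hmt⟩ := mem_ZZ hL hm
    rw [hS, mem_SS] at ht
    have h1 := ((mem_Blk hL).1 hmt).2 j
    have h2 : (2 : ℝ) ^ κ * 2 ^ (q - κ) ≤ 2 ^ κ * |zA A a m j| := by
      refine le_trans ?_ h1
      rw [← pow_add]
      refine pow_le_pow_right₀ (by norm_num) ?_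
      have := ht.2.2 j
      omega
    exact le_of_mul_le_mul_left h2 (by positivity)
  have hintb := hCg (ZZ hL κ S) (ww hL κ B S) (zA A a) (2 ^ (q - κ))
    (fun m _ => ww_nonneg hL κ B hB0 S m) (by positivity) hmem
  have hE : cE * Λ ≤ ‖frolovRule A a (testF (ZZ hL κ S) (ww hL κ B S) (zA A a)) -
      ∫ x, testF (ZZ hL κ S) (ww hL κ B S) (zA A a) x‖ := by
    refine le_trans ?_ (norm_sub_norm_le _ _)
    rw [frolovRule_testF A hA.det_ne_zero a ha0.ne', Complex.norm_real]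
    have h1 : ρ ^ d / δ * W ≤ ‖(a ^ d * |A.det|)⁻¹ * (∑' m, psiP (yy A a m)) * W‖ := by
      refine le_trans ?_ (Real.le_norm_self _)
      refine mul_le_mul_of_nonneg_right ?_ hW0.le
      have h2 := hρ a haρ
      have h3 : (a ^ d * |A.det|)⁻¹ * (ρ * a) ^ d = ρ ^ d / δ := by
        rw [mul_pow, ← hδ]
        field_simp
      rw [← h3]
      exact mul_le_mul_of_nonneg_left h2 (by positivity)
    have h2 : ‖∫ x, testF (ZZ hL κ S) (ww hL κ B S) (zA A a) x‖ ≤ W * (ρ ^ d / (2 * δ)) :=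
      hintb.trans (mul_le_mul_of_nonneg_left hqR hW0.le)
    have h3 : cE * Λ ≤ ρ ^ d / (2 * δ) * W := by
      rw [hcE, mul_assoc]
      exact mul_le_mul_of_nonneg_left hWge (by positivity)
    have h4 : ρ ^ d / δ * W = ρ ^ d / (2 * δ) * W + W * (ρ ^ d / (2 * δ)) := by
      field_simp
      ring
    linarith
  have hfin := error_ge A a φ p r (by linarith) (testF (ZZ hL κ S) (ww hL κ B S) (zA A a))
    (continuous_testF _ _ _) (fun x hx => by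
      by_contra hcon
      apply hx
      have hx' : x ∉ cube d := hcon
      have := psiP_zero hx'
      unfold psiP at this
      unfold testF
      rw [this]
      simp) (CN * √Λ) (by positivity) hnorm (cE * Λ) hE
  refine le_trans (ENNReal.ofReal_le_ofReal (le_of_eq ?_)) hfin
  have hsq : 0 < √Λ := Real.sqrt_pos.2 hΛ0
  rw [div_mul_eq_mul_div, div_eq_div_iff hCN0.ne' (by positivity)]
  calc cE * √Λ * (CN * √Λ) = cE * CN * (√Λ * √Λ) := by ring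
    _ = cE * Λ * CN := by rw [Real.mul_self_sqrt hΛ0.le]; ring

end

end Pool.Agent.Helper64.Frolov
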