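import Mathlib
import Pool.Agent.Helper64.Frolov.AB

open MeasureTheory Real Filter
open scoped ENNReal ContDiff Matrix

namespace Pool.Agent.Helper64.Frolov

section
variable {d : ℕ}

/-- choice of the level -/
theorem lower_in_a (A : Matrix (Fin d) (Fin d) ℝ) (hA : IsFrolovMatrix A) {φ : ℕ → ℝ → ℝ}
    (hφ : IsDyadicResolution φ) (hd : 2 ≤ d) (p r : ℝ) (hp : 2 < p) (hr : 0 < r) (hr2 : r ≤ 1 / 2) :
    ∃ c : ℝ, 0 < c ∧ ∃ a0 : ℝ, 1 < a0 ∧ ∀ a : ℝ, a0 ≤ a → ∃ n : ℕ, Real.log a ≤ n ∧ 1 ≤ n ∧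
      ENNReal.ofReal (c * (a ^ (-(r * d)) * √((n : ℝ) ^ (d - 1) *
        Sg (2 / 2 ^ (2 * r)) (Nat.log 2 (n ^ (d - 1)))))) ≤ frolovError A a φ p r := by
  obtain ⟨c, hc, n0, a0, hmain⟩ := lower_main A hA hφ (by omega) p r hp hr hr2
  set δ : ℝ := |A.det| with hδ
  have hδ0 : 0 < δ := abs_pos.2 hA.det_ne_zero
  refine ⟨c * ((16 * δ) ^ r)⁻¹, by positivity, max (max 2 a0) (max (1 / (8 * δ)) (2 ^ n0 / (8 * δ))),
    lt_of_lt_of_le (by norm_num) ((le_max_left _ _).trans (le_max_left _ _)), ?_⟩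
  intro a ha
  have ha2 : 2 ≤ a := ((le_max_left _ _).trans (le_max_left _ _)).trans ha
  have haa0 : a0 ≤ a := ((le_max_right _ _).trans (le_max_left _ _)).trans ha
  have ha8 : 1 / (8 * δ) ≤ a := ((le_max_left _ _).trans (le_max_right _ _)).trans ha
  have han0 : 2 ^ n0 / (8 * δ) ≤ a := ((le_max_right _ _).trans (le_max_right _ _)).trans ha
  have ha0 : 0 < a := by linarith
  rw [div_le_iff₀ (by positivity)] at ha8 han0
  have had : a ≤ a ^ d := by
    calc a = a ^ 1 := (pow_one a).symm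
      _ ≤ a ^ d := pow_le_pow_right₀ (by linarith) (by omega)
  have had2 : a ^ 2 ≤ a ^ d := pow_le_pow_right₀ (by linarith) hd
  have hy1 : 1 ≤ 8 * δ * a ^ d := by
    calc 1 ≤ a * (8 * δ) := ha8
      _ = 8 * δ * a := by ring
      _ ≤ 8 * δ * a ^ d := mul_le_mul_of_nonneg_left had (by positivity)
  obtain ⟨n', hn1, hn2⟩ := exists_nat_pow_near hy1 (by norm_num : (1 : ℝ) < 2)
  set n := n' + 1 with hn
  have hhi : (2 : ℝ) ^ n ≤ 16 * δ * a ^ d := by rw [hn, pow_succ]; linarith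
  have hn0 : n0 ≤ n := by
    have h1 : (2 : ℝ) ^ n0 ≤ 2 ^ n := by
      calc (2 : ℝ) ^ n0 ≤ a * (8 * δ) := han0
        _ = 8 * δ * a := by ring
        _ ≤ 8 * δ * a ^ d := mul_le_mul_of_nonneg_left had (by positivity)
        _ ≤ 2 ^ n := hn2.le
    exact (pow_le_pow_iff_right₀ (by norm_num)).1 h1
  have hlog : Real.log a ≤ n := by
    have h1 : a ≤ 2 ^ n := by
      calc a = 1 * a := (one_mul a).symm
        _ ≤ (a * (8 * δ)) * a := mul_le_mul_of_nonneg_right ha8 ha0.le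
        _ = 8 * δ * a ^ 2 := by ring
        _ ≤ 8 * δ * a ^ d := mul_le_mul_of_nonneg_left had2 (by positivity)
        _ ≤ 2 ^ n := hn2.le
    have h2 := Real.log_le_log ha0 h1
    rw [Real.log_pow] at h2
    refine h2.trans ?_
    have h3 : Real.log 2 ≤ 1 := by
      have := Real.log_two_lt_d9
      linarith
    calc (n : ℝ) * Real.log 2 ≤ n * 1 := mul_le_mul_of_nonneg_left h3 (Nat.cast_nonneg n)
      _ = n := mul_one _
  refine ⟨n, hlog, by omega, ?_⟩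
  refine le_trans (ENNReal.ofReal_le_ofReal ?_) (hmain a haa0 n hn0 hn2.le hhi)
  rw [mul_assoc c]
  refine mul_le_mul_of_nonneg_left ?_ hc.le
  have hB0 : (0 : ℝ) < 2 ^ (2 * r) := by positivity
  have hSg := one_le_Sg (x := 2 / 2 ^ (2 * r)) (by positivity) (Nat.log 2 (n ^ (d - 1)))
  rw [mul_assoc (((2 : ℝ) ^ (2 * r)) ^ n)⁻¹, Real.sqrt_mul (x := (((2 : ℝ) ^ (2 * r)) ^ n)⁻¹) (by positivity),
    ← mul_assoc]
  refine mul_le_mul_of_nonneg_right ?_ (Real.sqrt_nonneg _)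
  have h1 : √((((2 : ℝ) ^ (2 * r)) ^ n)⁻¹) = (((2 : ℝ) ^ n) ^ r)⁻¹ := by
    have e1 : ((2 : ℝ) ^ (2 * r)) ^ n = (((2 : ℝ) ^ n) ^ r) ^ 2 := by
      rw [← Real.rpow_natCast, ← Real.rpow_natCast, ← Real.rpow_natCast, ← Real.rpow_mul (by norm_num),
        ← Real.rpow_mul (by norm_num), ← Real.rpow_mul (by norm_num)]
      congr 1
      push_cast
      ring
    rw [e1, Real.sqrt_inv, Real.sqrt_sq (by positivity)]
  rw [h1]
  have h2 : ((2 : ℝ) ^ n) ^ r ≤ (16 * δ) ^ r * a ^ (r * d) := by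
    have e1 : a ^ (r * d) = (a ^ d) ^ r := by
      rw [mul_comm, Real.rpow_mul ha0.le, Real.rpow_natCast]
    rw [e1, ← Real.mul_rpow (by positivity) (by positivity)]
    exact Real.rpow_le_rpow (by positivity) hhi hr.le
  rw [Real.rpow_neg ha0.le, ← mul_inv]
  exact inv_anti₀ (by positivity) h2

theorem case_small (A : Matrix (Fin d) (Fin d) ℝ) (hA : IsFrolovMatrix A) {φ : ℕ → ℝ → ℝ}
    (hφ : IsDyadicResolution φ) (hd : 2 ≤ d) (p r : ℝ) (hp : 2 < p) (hr : 0 < r) (hr2 : r < 1 / 2) :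
    ∃ c : ℝ, 0 < c ∧ ∀ᶠ a : ℝ in atTop,
      ENNReal.ofReal (c * (a ^ (-(r * d)) * (Real.log a) ^ (((d : ℝ) - 1) * (1 - r)))) ≤
        frolovError A a φ p r := by
  obtain ⟨c, hc, a0, ha01, hmain⟩ := lower_in_a A hA hφ hd p r hp hr hr2.le
  refine ⟨c * √((1 / 2) ^ (1 - 2 * r)), by positivity, ?_⟩
  filter_upwards [eventually_ge_atTop a0] with a ha
  obtain ⟨n, hn, hn1, hle⟩ := hmain a ha
  refine le_trans (ENNReal.ofReal_le_ofReal ?_) hle
  have ha1 : 1 < a := lt_of_lt_of_le ha01 ha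
  have hlog : 0 ≤ Real.log a := Real.log_nonneg ha1.le
  rw [mul_assoc c]
  refine mul_le_mul_of_nonneg_left ?_ hc.le
  rw [mul_left_comm]
  refine mul_le_mul_of_nonneg_left ?_ (Real.rpow_nonneg (by linarith) _)
  have hn0 : (0 : ℝ) < n := by exact_mod_cast hn1
  set N : ℝ := (n : ℝ) ^ (d - 1) with hN
  have hN0 : 0 < N := by positivity
  set L := Nat.log 2 (n ^ (d - 1)) with hL
  have hNL : N / 2 ≤ (2 : ℝ) ^ L := by
    have h1 : n ^ (d - 1) < 2 ^ (L + 1) := Nat.lt_pow_succ_log_self (by norm_num) _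
    have h2 : N < 2 ^ (L + 1) := by
      rw [hN]
      exact_mod_cast h1
    rw [pow_succ] at h2
    linarith
  have hx : (2 : ℝ) / 2 ^ (2 * r) = 2 ^ (1 - 2 * r) := by
    rw [Real.rpow_sub (by norm_num), Real.rpow_one]
  have hSg : (N / 2) ^ (1 - 2 * r) ≤ Sg (2 / 2 ^ (2 * r)) L := by
    have h1 : (2 / (2 : ℝ) ^ (2 * r)) ^ L ≤ Sg (2 / 2 ^ (2 * r)) L := by
      unfold Sg
      exact Finset.single_le_sum (f := fun v => (2 / (2 : ℝ) ^ (2 * r)) ^ v) (fun v _ => by positivity)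
        (Finset.mem_range.2 (Nat.lt_succ_self L))
    refine le_trans ?_ h1
    have e1 : (2 / (2 : ℝ) ^ (2 * r)) ^ L = ((2 : ℝ) ^ L) ^ (1 - 2 * r) := by
      rw [hx, ← Real.rpow_natCast, ← Real.rpow_natCast, ← Real.rpow_mul (by norm_num),
        ← Real.rpow_mul (by norm_num), mul_comm]
    rw [e1]
    exact Real.rpow_le_rpow (by positivity) hNL (by linarith)
  have h3 : (1 / 2 : ℝ) ^ (1 - 2 * r) * (N ^ (1 - r)) ^ 2 ≤ N * Sg (2 / 2 ^ (2 * r)) L := by
    have e1 : (1 / 2 : ℝ) ^ (1 - 2 * r) * (N ^ (1 - r)) ^ 2 = N * (N / 2) ^ (1 - 2 * r) := by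
      have e2 : N / 2 = (1 / 2) * N := by ring
      rw [e2, Real.mul_rpow (by norm_num) hN0.le]
      have e3 : (N ^ (1 - r)) ^ 2 = N * N ^ (1 - 2 * r) := by
        rw [← Real.rpow_natCast, ← Real.rpow_mul hN0.le]
        have : N * N ^ (1 - 2 * r) = N ^ (1 : ℝ) * N ^ (1 - 2 * r) := by rw [Real.rpow_one]
        rw [this, ← Real.rpow_add hN0]
        congr 1
        push_cast
        ring
      rw [e3]
      ring
    rw [e1]
    exact mul_le_mul_of_nonneg_left hSg hN0.le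
  have h4 := Real.sqrt_le_sqrt h3
  rw [Real.sqrt_mul (by positivity), Real.sqrt_sq (by positivity)] at h4
  refine le_trans (mul_le_mul_of_nonneg_left ?_ (Real.sqrt_nonneg _)) h4
  rw [hN, ← Real.rpow_natCast, ← Real.rpow_mul hn0.le, Nat.cast_sub (by omega), Nat.cast_one]
  refine Real.rpow_le_rpow hlog hn ?_
  have : (2 : ℝ) ≤ d := by exact_mod_cast hd
  exact mul_nonneg (by linarith) (by linarith)

theorem case_half (A : Matrix (Fin d) (Fin d) ℝ) (hA : IsFrolovMatrix A) {φ : ℕ → ℝ → ℝ}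
    (hφ : IsDyadicResolution φ) (hd : 2 ≤ d) (p : ℝ) (hp : 2 < p) :
    ∃ c : ℝ, 0 < c ∧ ∀ᶠ a : ℝ in atTop,
      ENNReal.ofReal (c * (a ^ (-((1 / 2 : ℝ) * d)) * (Real.log a) ^ (((d : ℝ) - 1) / 2) *
        √(Real.log (Real.log a)))) ≤ frolovError A a φ p (1 / 2) := by
  obtain ⟨c, hc, a0, ha01, hmain⟩ := lower_in_a A hA hφ hd p (1 / 2) hp (by norm_num) le_rfl
  refine ⟨c, hc, ?_⟩
  filter_upwards [eventually_ge_atTop a0, eventually_gt_atTop (Real.exp 1)] with a ha ha3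
  obtain ⟨n, hn, hn1, hle⟩ := hmain a ha
  refine le_trans (ENNReal.ofReal_le_ofReal ?_) hle
  have ha1 : 1 < a := lt_of_lt_of_le ha01 ha
  have ha0 : 0 < a := by linarith
  have hlog1 : 1 < Real.log a := by
    rw [Real.lt_log_iff_exp_lt ha0]
    exact ha3
  refine mul_le_mul_of_nonneg_left ?_ hc.le
  rw [mul_assoc]
  refine mul_le_mul_of_nonneg_left ?_ (Real.rpow_nonneg (by linarith) _)
  have hn0 : (0 : ℝ) < n := by exact_mod_cast hn1
  set L := Nat.log 2 (n ^ (d - 1)) with hL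
  have hx : (2 : ℝ) / 2 ^ (2 * (1 / 2 : ℝ)) = 1 := by
    norm_num
  have hSg : Sg (2 / 2 ^ (2 * (1 / 2 : ℝ))) L = L + 1 := by
    rw [hx]
    unfold Sg
    simp
  rw [hSg, Real.sqrt_mul (by positivity)]
  refine mul_le_mul ?_ ?_ (Real.sqrt_nonneg _) (Real.sqrt_nonneg _)
  · have h1 : √((n : ℝ) ^ (d - 1)) = (n : ℝ) ^ (((d : ℝ) - 1) / 2) := by
      rw [Real.sqrt_eq_rpow, ← Real.rpow_natCast, ← Real.rpow_mul hn0.le, Nat.cast_sub (by omega), Nat.cast_one]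
      congr 1
      ring
    rw [h1]
    refine Real.rpow_le_rpow (by linarith) hn ?_
    have : (2 : ℝ) ≤ d := by exact_mod_cast hd
    linarith
  · refine Real.sqrt_le_sqrt ?_
    have h1 : n ^ (d - 1) < 2 ^ (L + 1) := Nat.lt_pow_succ_log_self (by norm_num) _
    have h2 : n < 2 ^ (L + 1) := by
      refine lt_of_le_of_lt ?_ h1
      calc n = n ^ 1 := (pow_one n).symm
        _ ≤ n ^ (d - 1) := Nat.pow_le_pow_right hn1 (by omega)
    have h3 : Real.log a ≤ 2 ^ (L + 1) := by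
      refine hn.trans ?_
      have : (n : ℝ) < 2 ^ (L + 1) := by exact_mod_cast h2
      exact this.le
    have h4 := Real.log_le_log (by linarith) h3
    rw [Real.log_pow] at h4
    refine h4.trans ?_
    have h5 : Real.log 2 ≤ 1 := by
      have := Real.log_two_lt_d9
      linarith
    push_cast
    calc ((L : ℝ) + 1) * Real.log 2 ≤ (L + 1) * 1 := mul_le_mul_of_nonneg_left h5 (by positivity)
      _ = L + 1 := mul_one _

end

end Pool.Agent.Helper64.Frolov
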